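import Pool.Agent.Work.MP_b7dc8a_pr.Base

/-! Module CLB (basic facts on clusters)
CLB: basic reachability facts. cl_eq_of: walk argument. largest_eq: the set {x : K < |cl x|} is one cluster.
-/

namespace Pool.Agent.Work.MP_b7dc8a_pr

open Finset Filter Topology

section CLB
variable {V : Type} [Fintype V]

theorem clb_mem_cl (ω : Finset (Sym2 V)) (x y : V) :
    y ∈ cl ω x ↔ (SimpleGraph.fromEdgeSet (ω : Set (Sym2 V))).Reachable x y := by
  simp [cl]

theorem clb_mem_cls (ω : Finset (Sym2 V)) (S : Finset V) (y : V) :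
    y ∈ cls ω S ↔ ∃ x ∈ S, (SimpleGraph.fromEdgeSet (ω : Set (Sym2 V))).Reachable x y := by
  simp [cls]

omit [Fintype V] in
theorem clb_reach_of_edge (ω : Finset (Sym2 V)) (x y : V) (h : s(x, y) ∈ ω) :
    (SimpleGraph.fromEdgeSet (ω : Set (Sym2 V))).Reachable x y := by
  by_cases hxy : x = y
  · subst hxy; exact SimpleGraph.Reachable.refl _
  · apply SimpleGraph.Adj.reachable
    rw [SimpleGraph.fromEdgeSet_adj]
    exact ⟨by exact_mod_cast h, hxy⟩

omit [Fintype V] in
/-- a set closed under the edges of `ω` contains everything reachable from its elements -/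
theorem clb_closed (ω : Finset (Sym2 V)) (R : Set V)
    (hR : ∀ a ∈ R, ∀ b, s(a, b) ∈ ω → b ∈ R) (x y : V) (hx : x ∈ R)
    (h : (SimpleGraph.fromEdgeSet (ω : Set (Sym2 V))).Reachable x y) : y ∈ R := by
  obtain ⟨w⟩ := h
  induction w with
  | nil => exact hx
  | cons hadj w ih =>
    apply ih
    rw [SimpleGraph.fromEdgeSet_adj] at hadj
    exact hR _ hx _ (by exact_mod_cast hadj.1)

theorem mem_cl_self (ω : Finset (Sym2 V)) (x : V) : x ∈ cl ω x := by
  rw [clb_mem_cl]

theorem cl_symm (ω : Finset (Sym2 V)) (x y : V) : y ∈ cl ω x ↔ x ∈ cl ω y := by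
  rw [clb_mem_cl, clb_mem_cl]; exact ⟨fun h => h.symm, fun h => h.symm⟩

theorem cl_eq_of_mem (ω : Finset (Sym2 V)) (x y : V) (h : y ∈ cl ω x) : cl ω y = cl ω x := by
  ext z
  rw [clb_mem_cl] at h
  rw [clb_mem_cl, clb_mem_cl]
  exact ⟨fun h' => h.trans h', fun h' => h.symm.trans h'⟩

theorem cl_mono (ω ω' : Finset (Sym2 V)) (h : ω ⊆ ω') (x : V) : cl ω x ⊆ cl ω' x := by
  intro z hz
  rw [clb_mem_cl] at hz ⊢
  exact hz.mono (SimpleGraph.fromEdgeSet_mono (by exact_mod_cast h))

theorem cls_singleton (ω : Finset (Sym2 V)) (x : V) : cls ω {x} = cl ω x := by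
  ext z
  rw [clb_mem_cl, clb_mem_cls]
  simp

/-- adding an edge from `S` to `y` -/
theorem cls_insert [DecidableEq V] (ω : Finset (Sym2 V)) (S : Finset V) (x y : V) (hx : x ∈ S) :
    cls (insert s(x, y) ω) S = cls ω (insert y S) := by
  ext z
  constructor
  · intro hz
    rw [clb_mem_cls] at hz
    obtain ⟨w, hw, hwz⟩ := hz
    have key := clb_closed (insert s(x, y) ω) {v | v ∈ cls ω (insert y S)} ?_ w z ?_ hwz
    · exact key
    · intro a ha b hab
      rw [Set.mem_ofPred_eq, clb_mem_cls] at ha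
      rw [Set.mem_ofPred_eq, clb_mem_cls]
      obtain ⟨c, hc, hca⟩ := ha
      rw [Finset.mem_insert] at hab
      rcases hab with hab | hab
      · rw [Sym2.eq_iff] at hab
        rcases hab with ⟨_, hb⟩ | ⟨_, hb⟩
        · exact ⟨y, Finset.mem_insert_self _ _, by rw [hb]⟩
        · exact ⟨x, Finset.mem_insert_of_mem hx, by rw [hb]⟩
      · exact ⟨c, hc, hca.trans (clb_reach_of_edge ω a b hab)⟩
    · rw [Set.mem_ofPred_eq, clb_mem_cls]
      exact ⟨w, Finset.mem_insert_of_mem hw, SimpleGraph.Reachable.refl _⟩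
  · intro hz
    rw [clb_mem_cls] at hz ⊢
    obtain ⟨w, hw, hwz⟩ := hz
    have hmono : (SimpleGraph.fromEdgeSet ((insert s(x, y) ω : Finset (Sym2 V)) : Set (Sym2 V))).Reachable w z :=
      hwz.mono (SimpleGraph.fromEdgeSet_mono (by exact_mod_cast Finset.subset_insert _ _))
    rw [Finset.mem_insert] at hw
    rcases hw with hw | hw
    · subst hw
      exact ⟨x, hx, (clb_reach_of_edge _ x w (Finset.mem_insert_self _ _)).trans hmono⟩
    · exact ⟨w, hw, hmono⟩

theorem subset_cls (ω : Finset (Sym2 V)) (S : Finset V) : S ⊆ cls ω S := by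
  intro x hx
  rw [clb_mem_cls]
  exact ⟨x, hx, SimpleGraph.Reachable.refl _⟩

/-- if no edge of `ω` leaves `S` then the cluster of `S` is `S` -/
theorem cls_eq_self (ω : Finset (Sym2 V)) (S : Finset V) (h : ∀ x ∈ S, ∀ y, s(x, y) ∈ ω → y ∈ S) :
    cls ω S = S := by
  apply Finset.Subset.antisymm _ (subset_cls ω S)
  intro z hz
  rw [clb_mem_cls] at hz
  obtain ⟨w, hw, hwz⟩ := hz
  exact clb_closed ω {v | v ∈ S} (fun a ha b hab => h a ha b hab) w z hw hwz

/-- no edge of `ω` leaves a cluster -/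
theorem cl_closed (ω : Finset (Sym2 V)) (o x y : V) (hx : x ∈ cl ω o) (h : s(x, y) ∈ ω) :
    y ∈ cl ω o := by
  rw [clb_mem_cl] at hx ⊢
  exact hx.trans (clb_reach_of_edge ω x y h)

/-- the cluster of `o` depends only on the edges touching it -/
theorem cl_eq_of (ω ω' : Finset (Sym2 V)) (o : V) (h : ∀ x ∈ cl ω o, ∀ y, s(x, y) ∈ ω ↔ s(x, y) ∈ ω') :
    cl ω' o = cl ω o := by
  apply Finset.Subset.antisymm
  · intro z hz
    rw [clb_mem_cl] at hz
    exact clb_closed ω' {v | v ∈ cl ω o}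
      (fun a ha b hab => cl_closed ω o a b ha ((h a ha b).2 hab)) o z (mem_cl_self ω o) hz
  · intro z hz
    rw [clb_mem_cl] at hz
    exact (clb_closed ω {v | v ∈ cl ω o ∧ v ∈ cl ω' o}
      (fun a ha b hab => ⟨cl_closed ω o a b ha.1 hab,
        cl_closed ω' o a b ha.2 ((h a ha.1 b).1 hab)⟩) o z
        ⟨mem_cl_self ω o, mem_cl_self ω' o⟩ hz).2

theorem largest_eq (K : ℕ) (ω : Finset (Sym2 V)) (h : Uniq K ω) (hx : ∃ x, K < (cl ω x).card) :
    (largest ω : ℝ) = (Fintype.card V : ℝ) - XK K ω := by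
  classical
  obtain ⟨x0, hx0⟩ := hx
  have hset : (univ.filter fun x : V => ¬ (cl ω x).card ≤ K) = cl ω x0 := by
    ext x
    simp only [Finset.mem_filter, Finset.mem_univ, true_and, not_le]
    constructor
    · intro hx
      exact h x0 x hx0 hx
    · intro hx
      rw [cl_eq_of_mem ω x0 x hx]; exact hx0
  have hlar : largest ω = (cl ω x0).card := by
    unfold largest
    apply le_antisymm
    · apply Finset.sup_le
      intro x _
      by_cases hxK : (cl ω x).card ≤ K
      · exact hxK.trans hx0.le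
      · have hx : x ∈ cl ω x0 := h x0 x hx0 (not_le.mp hxK)
        rw [cl_eq_of_mem ω x0 x hx]
    · exact Finset.le_sup (f := fun x => (cl ω x).card) (Finset.mem_univ x0)
  have hcard : XK K ω + (cl ω x0).card = Fintype.card V := by
    rw [← hset]
    have := Finset.card_filter_add_card_filter_not (s := (univ : Finset V))
      (fun x : V => (cl ω x).card ≤ K)
    rw [Finset.card_univ] at this
    rw [← this]
    congr 1
  rw [hlar, ← hcard]
  push_cast
  ring
end CLB

end Pool.Agent.Work.MP_b7dc8a_pr
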