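import Pool.Agent.Work.MP_b7dc8a_pr.Base

/-! Module BIN: basic facts on the expectations `Ex` and `ExC` -/

namespace Pool.Agent.Work.MP_b7dc8a_pr

open Finset Filter Topology

section BIN
variable {α : Type}

theorem Ex_empty (p : ℝ) (F : Finset α → ℝ) : Ex ∅ p F = F ∅ := by
  simp [Ex]

theorem Ex_insert [DecidableEq α] (e : α) (E : Finset α) (he : e ∉ E) (p : ℝ) (F : Finset α → ℝ) :
    Ex (insert e E) p F = p * Ex E p (fun ω => F (insert e ω)) + (1 - p) * Ex E p F := by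
  unfold Ex
  rw [Finset.sum_powerset_insert he, Finset.mul_sum, Finset.mul_sum, add_comm]
  congr 1
  · refine Finset.sum_congr rfl fun ω hω => ?_
    have hω' := mem_powerset.1 hω
    have h1 : e ∉ ω := fun h => he (hω' h)
    rw [card_insert_of_notMem h1, card_insert_of_notMem he]
    have h2 : E.card + 1 - (ω.card + 1) = E.card - ω.card := by omega
    rw [h2]
    ring
  · refine Finset.sum_congr rfl fun ω hω => ?_
    have h1 := card_le_card (mem_powerset.1 hω)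
    rw [card_insert_of_notMem he]
    have h2 : E.card + 1 - ω.card = E.card - ω.card + 1 := by omega
    rw [h2]
    ring

theorem Ex_congr (E : Finset α) (p : ℝ) (F G : Finset α → ℝ) (h : ∀ ω ⊆ E, F ω = G ω) :
    Ex E p F = Ex E p G := by
  unfold Ex
  exact Finset.sum_congr rfl fun ω hω => by rw [h ω (mem_powerset.1 hω)]

theorem Ex_const (E : Finset α) (p c : ℝ) : Ex E p (fun _ => c) = c := by
  unfold Ex
  rw [← Finset.sum_mul, Finset.sum_pow_mul_eq_add_pow]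
  simp

theorem Ex_add (E : Finset α) (p : ℝ) (F G : Finset α → ℝ) :
    Ex E p (fun ω => F ω + G ω) = Ex E p F + Ex E p G := by
  unfold Ex
  rw [← Finset.sum_add_distrib]
  exact Finset.sum_congr rfl fun ω _ => by ring

theorem Ex_sub (E : Finset α) (p : ℝ) (F G : Finset α → ℝ) :
    Ex E p (fun ω => F ω - G ω) = Ex E p F - Ex E p G := by
  unfold Ex
  rw [← Finset.sum_sub_distrib]
  exact Finset.sum_congr rfl fun ω _ => by ring

theorem Ex_mul_left (E : Finset α) (p c : ℝ) (F : Finset α → ℝ) :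
    Ex E p (fun ω => c * F ω) = c * Ex E p F := by
  unfold Ex
  rw [Finset.mul_sum]
  exact Finset.sum_congr rfl fun ω _ => by ring

theorem Ex_sum {ι : Type*} (I : Finset ι) (E : Finset α) (p : ℝ) (F : ι → Finset α → ℝ) :
    Ex E p (fun ω => ∑ i ∈ I, F i ω) = ∑ i ∈ I, Ex E p (F i) := by
  unfold Ex
  rw [Finset.sum_comm]
  exact Finset.sum_congr rfl fun ω _ => by rw [Finset.mul_sum]

theorem Ex_mono (E : Finset α) (p : ℝ) (h0 : 0 ≤ p) (h1 : p ≤ 1) (F G : Finset α → ℝ)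
    (h : ∀ ω ⊆ E, F ω ≤ G ω) : Ex E p F ≤ Ex E p G := by
  unfold Ex
  refine Finset.sum_le_sum fun ω hω => ?_
  have h2 : 0 ≤ 1 - p := by linarith
  exact mul_le_mul_of_nonneg_left (h ω (mem_powerset.1 hω)) (by positivity)

theorem Ex_union [DecidableEq α] (E₁ E₂ : Finset α) (hd : Disjoint E₁ E₂) (p : ℝ)
    (F : Finset α → ℝ) :
    Ex (E₁ ∪ E₂) p F = Ex E₁ p (fun ω₁ => Ex E₂ p (fun ω₂ => F (ω₁ ∪ ω₂))) := by
  induction E₂ using Finset.induction_on generalizing F with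
  | empty => simp only [Ex_empty, union_empty]
  | insert e E₂ he ih =>
    rw [disjoint_insert_right] at hd
    have he1 : e ∉ E₁ ∪ E₂ := by
      rw [mem_union]
      exact fun h => h.elim hd.1 he
    rw [union_insert, Ex_insert e _ he1, ih hd.2, ih hd.2]
    have h1 : (fun ω₁ => Ex (insert e E₂) p (fun ω₂ => F (ω₁ ∪ ω₂))) =
        fun ω₁ => p * Ex E₂ p (fun ω₂ => F (insert e (ω₁ ∪ ω₂))) +
          (1 - p) * Ex E₂ p (fun ω₂ => F (ω₁ ∪ ω₂)) := by
      funext ω₁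
      rw [Ex_insert e _ he]
      simp only [union_insert]
    rw [h1, Ex_add, Ex_mul_left, Ex_mul_left]

theorem Ex_restrict [DecidableEq α] (E A : Finset α) (hA : A ⊆ E) (p : ℝ) (F : Finset α → ℝ) :
    Ex E p (fun ω => F (ω ∩ A)) = Ex A p F := by
  have h1 : E = A ∪ (E \ A) := (union_sdiff_of_subset hA).symm
  conv_lhs => rw [h1]
  rw [Ex_union _ _ disjoint_sdiff]
  refine Ex_congr _ _ _ _ fun ω₁ hω₁ => ?_
  rw [← Ex_const (E \ A) p (F ω₁)]
  refine Ex_congr _ _ _ _ fun ω₂ hω₂ => ?_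
  congr 1
  ext x
  simp only [mem_inter, mem_union]
  constructor
  · rintro ⟨h | h, h'⟩
    · exact h
    · exact absurd h' (mem_sdiff.1 (hω₂ h)).2
  · exact fun h => ⟨Or.inl h, hω₁ h⟩

theorem Ex_mul_indep [DecidableEq α] (E A B : Finset α) (hd : Disjoint A B) (p : ℝ)
    (F G : Finset α → ℝ) (hF : ∀ ω ⊆ E, F ω = F (ω ∩ A)) (hG : ∀ ω ⊆ E, G ω = G (ω ∩ B)) :
    Ex E p (fun ω => F ω * G ω) = Ex E p F * Ex E p G := by
  have hF1 : ∀ ω ⊆ E, F ω = F (ω ∩ (A ∩ E)) := fun ω hω => by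
    rw [hF ω hω]
    congr 1
    ext x
    simp only [mem_inter]
    exact ⟨fun h => ⟨h.1, h.2, hω h.1⟩, fun h => ⟨h.1, h.2.1⟩⟩
  have hG1 : ∀ ω ⊆ E, G ω = G (ω ∩ (B ∩ E)) := fun ω hω => by
    rw [hG ω hω]
    congr 1
    ext x
    simp only [mem_inter]
    exact ⟨fun h => ⟨h.1, h.2, hω h.1⟩, fun h => ⟨h.1, h.2.1⟩⟩
  have hFE : Ex E p F = Ex (A ∩ E) p F := by
    rw [← Ex_restrict E (A ∩ E) inter_subset_right p F]
    exact Ex_congr _ _ _ _ hF1
  have hGE : Ex E p G = Ex (B ∩ E) p G := by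
    rw [← Ex_restrict E (B ∩ E) inter_subset_right p G]
    exact Ex_congr _ _ _ _ hG1
  have hB : B ∩ E ⊆ E \ (A ∩ E) := by
    intro x hx
    rw [mem_inter] at hx
    exact mem_sdiff.2 ⟨hx.2, fun h => (disjoint_left.1 hd (mem_inter.1 h).1 hx.1)⟩
  rw [hFE, hGE]
  have h1 : E = (A ∩ E) ∪ (E \ (A ∩ E)) := (union_sdiff_of_subset inter_subset_right).symm
  conv_lhs => rw [h1]
  rw [Ex_union _ _ disjoint_sdiff, mul_comm, ← Ex_mul_left]
  refine Ex_congr _ _ _ _ fun ω₁ hω₁ => ?_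
  rw [← Ex_restrict (E \ (A ∩ E)) (B ∩ E) hB p G, mul_comm, ← Ex_mul_left]
  refine Ex_congr _ _ _ _ fun ω₂ hω₂ => ?_
  have h2 : ω₁ ∪ ω₂ ⊆ E :=
    union_subset (hω₁.trans inter_subset_right) (hω₂.trans sdiff_subset)
  rw [hF1 _ h2, hG1 _ h2]
  congr 2
  · ext x
    simp only [mem_inter, mem_union]
    constructor
    · rintro ⟨h | h, h'⟩
      · exact h
      · exact absurd (mem_inter.2 h') (mem_sdiff.1 (hω₂ h)).2
    · exact fun h => ⟨Or.inl h, mem_inter.1 (hω₁ h)⟩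
  · ext x
    simp only [mem_inter, mem_union]
    constructor
    · rintro ⟨h | h, h'⟩
      · exact absurd h'.1 (disjoint_left.1 hd (mem_inter.1 (hω₁ h)).1)
      · exact ⟨h, h'⟩
    · exact fun h => ⟨Or.inr h.1, h.2⟩

theorem Ex_prod_indep [DecidableEq α] {ι : Type*} [DecidableEq ι] (I : Finset ι) (E : Finset α)
    (S : ι → Finset α) (hS : ∀ i ∈ I, ∀ j ∈ I, i ≠ j → Disjoint (S i) (S j)) (p : ℝ)
    (F : ι → Finset α → ℝ) (hF : ∀ i ∈ I, ∀ ω ⊆ E, F i ω = F i (ω ∩ S i)) :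
    Ex E p (fun ω => ∏ i ∈ I, F i ω) = ∏ i ∈ I, Ex E p (F i) := by
  induction I using Finset.induction_on with
  | empty => simp [Ex_const]
  | insert i I hi ih =>
    have h1 := ih (fun j hj k hk => hS j (mem_insert_of_mem hj) k (mem_insert_of_mem hk))
      (fun j hj => hF j (mem_insert_of_mem hj))
    rw [Finset.prod_insert hi, ← h1]
    have h2 : (fun ω => ∏ j ∈ insert i I, F j ω) = fun ω => F i ω * ∏ j ∈ I, F j ω := by
      funext ω
      rw [Finset.prod_insert hi]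
    rw [h2]
    refine Ex_mul_indep E (S i) (I.biUnion S) ?_ p _ _ (hF i (mem_insert_self i I)) ?_
    · rw [disjoint_biUnion_right]
      intro j hj
      exact hS i (mem_insert_self i I) j (mem_insert_of_mem hj) (fun h => hi (h ▸ hj))
    · intro ω hω
      refine Finset.prod_congr rfl fun j hj => ?_
      rw [hF j (mem_insert_of_mem hj) ω hω,
        hF j (mem_insert_of_mem hj) (ω ∩ I.biUnion S) (inter_subset_left.trans hω)]
      congr 1
      ext x
      simp only [mem_inter, mem_biUnion]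
      exact ⟨fun h => ⟨⟨h.1, j, hj, h.2⟩, h.2⟩, fun h => ⟨h.1.1, h.2⟩⟩

/-- Cauchy-Schwarz -/
theorem Ex_sq_le (E : Finset α) (p : ℝ) (h0 : 0 ≤ p) (h1 : p ≤ 1) (F : Finset α → ℝ) :
    (Ex E p (fun ω => |F ω|)) ^ 2 ≤ Ex E p (fun ω => F ω ^ 2) := by
  set c := Ex E p (fun ω => |F ω|) with hc
  have h2 : 0 ≤ Ex E p (fun ω => (|F ω| - c) ^ 2) := by
    have := Ex_mono E p h0 h1 (fun _ => 0) (fun ω => (|F ω| - c) ^ 2) (fun ω _ => sq_nonneg _)
    rwa [Ex_const] at this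
  have h3 : (fun ω => (|F ω| - c) ^ 2) = fun ω => (F ω ^ 2 - (2 * c) * |F ω|) + c ^ 2 := by
    funext ω
    rw [← sq_abs (F ω)]
    ring
  rw [h3, Ex_add, Ex_sub, Ex_mul_left, Ex_const, ← hc] at h2
  nlinarith

theorem ExC_add (E : Finset α) (p : ℝ) (F G : Finset α → ℂ) :
    ExC E p (fun ω => F ω + G ω) = ExC E p F + ExC E p G := by
  unfold ExC
  rw [← Finset.sum_add_distrib]
  exact Finset.sum_congr rfl fun ω _ => by ring

theorem ExC_sub (E : Finset α) (p : ℝ) (F G : Finset α → ℂ) :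
    ExC E p (fun ω => F ω - G ω) = ExC E p F - ExC E p G := by
  unfold ExC
  rw [← Finset.sum_sub_distrib]
  exact Finset.sum_congr rfl fun ω _ => by ring

theorem ExC_mul_left (E : Finset α) (p : ℝ) (c : ℂ) (F : Finset α → ℂ) :
    ExC E p (fun ω => c * F ω) = c * ExC E p F := by
  unfold ExC
  rw [Finset.mul_sum]
  exact Finset.sum_congr rfl fun ω _ => by ring

theorem ExC_sum {ι : Type*} (I : Finset ι) (E : Finset α) (p : ℝ) (F : ι → Finset α → ℂ) :
    ExC E p (fun ω => ∑ i ∈ I, F i ω) = ∑ i ∈ I, ExC E p (F i) := by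
  unfold ExC
  rw [Finset.sum_comm]
  exact Finset.sum_congr rfl fun ω _ => by rw [Finset.mul_sum]

theorem ExC_ofReal (E : Finset α) (p : ℝ) (F : Finset α → ℝ) :
    ExC E p (fun ω => (F ω : ℂ)) = (Ex E p F : ℂ) := by
  unfold ExC Ex
  rw [Complex.ofReal_sum]
  exact Finset.sum_congr rfl fun ω _ => by push_cast; ring

theorem ExC_norm_le (E : Finset α) (p : ℝ) (h0 : 0 ≤ p) (h1 : p ≤ 1) (F : Finset α → ℂ) :
    ‖ExC E p F‖ ≤ Ex E p (fun ω => ‖F ω‖) := by
  unfold ExC Ex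
  refine (norm_sum_le _ _).trans (Finset.sum_le_sum fun ω _ => ?_)
  have h2 : 0 ≤ 1 - p := by linarith
  rw [norm_mul, Complex.norm_real, Real.norm_of_nonneg (by positivity)]

/-- real and imaginary parts -/
theorem bin_ExC_eq (E : Finset α) (p : ℝ) (F : Finset α → ℂ) :
    ExC E p F = (Ex E p (fun ω => (F ω).re) : ℂ) + Complex.I * (Ex E p (fun ω => (F ω).im) : ℂ) := by
  rw [← ExC_ofReal, ← ExC_ofReal, ← ExC_mul_left, ← ExC_add]
  congr 1
  funext ω
  rw [mul_comm]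
  exact (Complex.re_add_im (F ω)).symm

theorem ExC_mul_indep [DecidableEq α] (E A B : Finset α) (hd : Disjoint A B) (p : ℝ)
    (F G : Finset α → ℂ) (hF : ∀ ω ⊆ E, F ω = F (ω ∩ A)) (hG : ∀ ω ⊆ E, G ω = G (ω ∩ B)) :
    ExC E p (fun ω => F ω * G ω) = ExC E p F * ExC E p G := by
  have hFr : ∀ ω ⊆ E, (F ω).re = (F (ω ∩ A)).re := fun ω h => by rw [← hF ω h]
  have hFi : ∀ ω ⊆ E, (F ω).im = (F (ω ∩ A)).im := fun ω h => by rw [← hF ω h]
  have hGr : ∀ ω ⊆ E, (G ω).re = (G (ω ∩ B)).re := fun ω h => by rw [← hG ω h]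
  have hGi : ∀ ω ⊆ E, (G ω).im = (G (ω ∩ B)).im := fun ω h => by rw [← hG ω h]
  rw [bin_ExC_eq, bin_ExC_eq E p F, bin_ExC_eq E p G]
  simp only [Complex.mul_re, Complex.mul_im]
  rw [Ex_sub, Ex_add,
    Ex_mul_indep E A B hd p (fun ω => (F ω).re) (fun ω => (G ω).re) hFr hGr,
    Ex_mul_indep E A B hd p (fun ω => (F ω).im) (fun ω => (G ω).im) hFi hGi,
    Ex_mul_indep E A B hd p (fun ω => (F ω).re) (fun ω => (G ω).im) hFr hGi,
    Ex_mul_indep E A B hd p (fun ω => (F ω).im) (fun ω => (G ω).re) hFi hGr]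
  push_cast
  ring_nf
  rw [Complex.I_sq]
  ring

end BIN

end Pool.Agent.Work.MP_b7dc8a_pr
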