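import Pool.Agent.Work.MP_b7dc8a_pr.Base
import Pool.Agent.Work.MP_b7dc8a_pr.Bin

/-! Module LCLT (uses BIN)
LCLT: Tikhomirov. phi(t)=ExC e^{itW/s}. W_i = sum_{j~i} Y_j, Ex[Y_i e^{it(W-W_i)/s}] = 0, |1-e^{-iu}-iu| <= u^2/2. Q=sum Y_i W_i,
 Ex Q = s^2, Var Q <= 8 D^3 beta (dependent quadruples: 4 D^2 for each (i,j)). |phi'+t phi| <= |t| sqrt(8D^3 beta)/s^2 +
 t^2 D^2 beta/(2 s^3); mean value for phi e^{t^2/2}.
-/

namespace Pool.Agent.Work.MP_b7dc8a_pr

open Finset Filter Topology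

theorem lclt_exp_bound (x : ℝ) :
    ‖Complex.exp (Complex.I * (x : ℂ)) - 1 - Complex.I * (x : ℂ)‖ ≤ x ^ 2 / 2 := by
  have key := image_norm_le_of_norm_deriv_right_le_deriv_boundary (E := ℂ) (a := 0) (b := 1)
    (f := fun s : ℝ => Complex.exp (Complex.I * ((s * x : ℝ) : ℂ)) - 1 - Complex.I * ((s * x : ℝ) : ℂ))
    (f' := fun s : ℝ => Complex.I * (x : ℂ) * (Complex.exp (Complex.I * ((s * x : ℝ) : ℂ)) - 1))
    (B := fun s : ℝ => s ^ 2 * x ^ 2 / 2) (B' := fun s : ℝ => s * x ^ 2) ?_ ?_ ?_ ?_ ?_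
  · have := key (Set.right_mem_Icc.mpr zero_le_one)
    simpa using this
  · fun_prop
  · intro s _
    apply HasDerivAt.hasDerivWithinAt
    have h1 : HasDerivAt (fun s : ℝ => ((s * x : ℝ) : ℂ)) (x : ℂ) s := by
      have : HasDerivAt (fun s : ℝ => s * x) (1 * x) s := (hasDerivAt_id s).mul_const x
      simpa using this.ofReal_comp
    have h2 : HasDerivAt (fun s : ℝ => Complex.I * ((s * x : ℝ) : ℂ)) (Complex.I * (x : ℂ)) s :=
      h1.const_mul _
    have h3 := h2.cexp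
    have h4 := (h3.sub_const 1).fun_sub h2
    exact h4.congr_deriv (by ring)
  · simp
  · intro s
    have h1 : HasDerivAt (fun s : ℝ => s ^ 2) (2 * s) s := by
      simpa using hasDerivAt_pow 2 s
    have h2 := (h1.mul_const (x ^ 2)).div_const 2
    exact h2.congr_deriv (by ring)
  · intro s hs
    rw [norm_mul, norm_mul, Complex.norm_I, one_mul, Complex.norm_real]
    have h1 := Real.norm_exp_I_mul_ofReal_sub_one_le (x := s * x)
    rw [Real.norm_eq_abs, abs_mul, abs_of_nonneg hs.1] at h1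
    rw [Real.norm_eq_abs]
    calc |x| * ‖Complex.exp (Complex.I * ((s * x : ℝ) : ℂ)) - 1‖ ≤ |x| * (s * |x|) :=
          mul_le_mul_of_nonneg_left h1 (abs_nonneg _)
      _ = s * x ^ 2 := by rw [← sq_abs x]; ring

theorem lclt_deriv {α : Type} (E : Finset α) (p : ℝ) (G : Finset α → ℝ) (t : ℝ) :
    HasDerivAt (fun t : ℝ => ExC E p (fun ω => Complex.exp (Complex.I * ((t * G ω : ℝ) : ℂ))))
      (ExC E p (fun ω => Complex.I * (G ω : ℂ) * Complex.exp (Complex.I * ((t * G ω : ℝ) : ℂ)))) t := by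
  unfold ExC
  apply HasDerivAt.fun_sum
  intro ω _
  apply HasDerivAt.const_mul
  have h1 : HasDerivAt (fun s : ℝ => ((s * G ω : ℝ) : ℂ)) (G ω : ℂ) t := by
    have : HasDerivAt (fun s : ℝ => s * G ω) (1 * G ω) t := (hasDerivAt_id t).mul_const _
    simpa using this.ofReal_comp
  have h2 : HasDerivAt (fun s : ℝ => Complex.I * ((s * G ω : ℝ) : ℂ)) (Complex.I * (G ω : ℂ)) t :=
    h1.const_mul _
  have h3 := h2.cexp
  exact h3.congr_deriv (by ring)

/-- from the differential inequality to the bound -/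
theorem lclt_ode (φ φ' : ℝ → ℂ) (hφ : ∀ t, HasDerivAt φ (φ' t) t) (h0 : φ 0 = 1) (A B : ℝ)
    (hA : 0 ≤ A) (hB : 0 ≤ B) (h : ∀ t, ‖φ' t + (t : ℂ) * φ t‖ ≤ |t| * A + t ^ 2 * B) (t : ℝ) :
    ‖φ t - Complex.exp ((-(t ^ 2 / 2) : ℝ) : ℂ)‖ ≤ t ^ 2 * A + |t| ^ 3 * B := by
  set f : ℝ → ℂ := fun s => φ s * ((Real.exp (s ^ 2 / 2) : ℝ) : ℂ) with hf
  have hd : ∀ s, HasDerivAt f ((φ' s + (s : ℂ) * φ s) * ((Real.exp (s ^ 2 / 2) : ℝ) : ℂ)) s := by
    intro s
    have h1 : HasDerivAt (fun s : ℝ => s ^ 2 / 2) s s := by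
      have h1 : HasDerivAt (fun s : ℝ => s ^ 2) (2 * s) s := by
        simpa using hasDerivAt_pow 2 s
      have h2 := h1.div_const 2
      exact h2.congr_deriv (by ring)
    have h2 : HasDerivAt (fun s : ℝ => ((Real.exp (s ^ 2 / 2) : ℝ) : ℂ))
        ((Real.exp (s ^ 2 / 2) * s : ℝ) : ℂ) s := h1.exp.ofReal_comp
    have h3 := (hφ s).fun_mul h2
    refine h3.congr_deriv ?_
    push_cast
    ring
  have hC : ∀ s ∈ Set.Icc (-|t|) |t|,
      ‖(φ' s + (s : ℂ) * φ s) * ((Real.exp (s ^ 2 / 2) : ℝ) : ℂ)‖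
        ≤ (|t| * A + t ^ 2 * B) * Real.exp (t ^ 2 / 2) := by
    intro s hs
    have hst : |s| ≤ |t| := abs_le.mpr hs
    have hs2 : s ^ 2 ≤ t ^ 2 := sq_le_sq.mpr hst
    rw [norm_mul, Complex.norm_real, Real.norm_eq_abs, abs_of_pos (Real.exp_pos _)]
    apply mul_le_mul
    · refine (h s).trans ?_
      have e1 := mul_le_mul_of_nonneg_right hst hA
      have e2 := mul_le_mul_of_nonneg_right hs2 hB
      linarith
    · apply Real.exp_le_exp.mpr
      linarith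
    · exact (Real.exp_pos _).le
    · positivity
  have hmv := Convex.norm_image_sub_le_of_norm_hasDerivWithin_le
    (fun s hs => (hd s).hasDerivWithinAt) hC (convex_Icc _ _)
    (show (0 : ℝ) ∈ Set.Icc (-|t|) |t| by simp)
    (show t ∈ Set.Icc (-|t|) |t| from ⟨neg_abs_le t, le_abs_self t⟩)
  have hf0 : f 0 = 1 := by simp [hf, h0]
  rw [hf0, sub_zero] at hmv
  have e1 : φ t - Complex.exp ((-(t ^ 2 / 2) : ℝ) : ℂ) =
      (f t - 1) * ((Real.exp (-(t ^ 2 / 2)) : ℝ) : ℂ) := by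
    simp only [hf]
    rw [sub_mul, one_mul, mul_assoc, ← Complex.ofReal_mul, ← Real.exp_add]
    simp
  rw [e1, norm_mul, Complex.norm_real, Real.norm_eq_abs, abs_of_pos (Real.exp_pos _)]
  calc ‖f t - 1‖ * Real.exp (-(t ^ 2 / 2))
      ≤ ((|t| * A + t ^ 2 * B) * Real.exp (t ^ 2 / 2) * ‖t‖) * Real.exp (-(t ^ 2 / 2)) :=
        mul_le_mul_of_nonneg_right hmv (Real.exp_pos _).le
    _ = (|t| * A + t ^ 2 * B) * |t| * (Real.exp (t ^ 2 / 2) * Real.exp (-(t ^ 2 / 2))) := by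
        rw [Real.norm_eq_abs]; ring
    _ = (|t| * A + t ^ 2 * B) * |t| := by
        rw [← Real.exp_add]; simp
    _ = t ^ 2 * A + |t| ^ 3 * B := by
        have : t ^ 2 = |t| ^ 2 := (sq_abs t).symm
        rw [this]; ring

theorem lclt_congr {α : Type} (E : Finset α) (p : ℝ) (F G : Finset α → ℂ)
    (h : ∀ ω ⊆ E, F ω = G ω) : ExC E p F = ExC E p G := by
  unfold ExC
  apply Finset.sum_congr rfl
  intro ω hω
  rw [h ω (Finset.mem_powerset.mp hω)]

theorem lclt_far1 {α : Type} [DecidableEq α] (E S T : Finset α) (Y : Finset α → ℝ) (hSE : S ⊆ E)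
    (hY : ∀ ω ⊆ E, Y ω = Y (ω ∩ S)) (hd : Disjoint T S) (ω : Finset α) (hω : ω ⊆ E) :
    Y ω = Y (ω ∩ (E \ T)) := by
  rw [hY ω hω, hY (ω ∩ (E \ T)) (Finset.inter_subset_left.trans hω)]
  congr 1
  ext e
  simp only [Finset.mem_inter, Finset.mem_sdiff]
  constructor
  · rintro ⟨h1, h2⟩
    exact ⟨⟨h1, hSE h2, fun h3 => (Finset.disjoint_left.mp hd h3) h2⟩, h2⟩
  · rintro ⟨⟨h1, _⟩, h2⟩
    exact ⟨h1, h2⟩

theorem lclt_cov0 {α : Type} [DecidableEq α] (E T : Finset α) (p : ℝ)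
    (F : Finset α → ℝ) (hF : ∀ ω ⊆ E, F ω = F (ω ∩ T)) (hF0 : Ex E p F = 0) (G : Finset α → ℂ)
    (hG : ∀ ω ⊆ E, G ω = G (ω ∩ (E \ T))) : ExC E p (fun ω => (F ω : ℂ) * G ω) = 0 := by
  rw [ExC_mul_indep E T (E \ T) Finset.disjoint_sdiff p (fun ω => (F ω : ℂ)) G
    (fun ω hω => by rw [hF ω hω]) hG, ExC_ofReal, hF0]
  simp

theorem lclt_step {α : Type} (E : Finset α) (p : ℝ) (h0 : 0 ≤ p) (h1 : p ≤ 1)
    (Yi W Z : Finset α → ℝ) (D : ℝ) (T : ℝ) (hZ : ∀ ω ⊆ E, |Z ω| ≤ D)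
    (h2 : ExC E p (fun ω => (Yi ω : ℂ) * Complex.exp (Complex.I * ((T * (W ω - Z ω) : ℝ) : ℂ)))
      = 0) :
    ‖ExC E p (fun ω => (Yi ω : ℂ) * Complex.exp (Complex.I * ((T * W ω : ℝ) : ℂ))) -
      Complex.I * T * ExC E p (fun ω => ((Yi ω * Z ω : ℝ) : ℂ) *
        Complex.exp (Complex.I * ((T * W ω : ℝ) : ℂ)))‖ ≤
      T ^ 2 * D ^ 2 / 2 * Ex E p (fun ω => |Yi ω|) := by
  have e1 : ExC E p (fun ω => (Yi ω : ℂ) * Complex.exp (Complex.I * ((T * W ω : ℝ) : ℂ))) -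
      Complex.I * T * ExC E p (fun ω => ((Yi ω * Z ω : ℝ) : ℂ) *
        Complex.exp (Complex.I * ((T * W ω : ℝ) : ℂ))) =
      ExC E p (fun ω => -((Yi ω : ℂ) * Complex.exp (Complex.I * ((T * W ω : ℝ) : ℂ)) *
        (Complex.exp (Complex.I * ((-(T * Z ω) : ℝ) : ℂ)) - 1 -
          Complex.I * ((-(T * Z ω) : ℝ) : ℂ)))) := by
    rw [← sub_zero (ExC E p (fun ω => (Yi ω : ℂ) * Complex.exp (Complex.I * ((T * W ω : ℝ) : ℂ)))),
      ← h2, ← ExC_mul_left, ← ExC_sub, ← ExC_sub]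
    apply lclt_congr
    intro ω _
    have e2 : Complex.exp (Complex.I * ((T * (W ω - Z ω) : ℝ) : ℂ)) =
        Complex.exp (Complex.I * ((T * W ω : ℝ) : ℂ)) *
          Complex.exp (Complex.I * ((-(T * Z ω) : ℝ) : ℂ)) := by
      rw [← Complex.exp_add]
      congr 1
      push_cast
      ring
    rw [e2]
    push_cast
    ring
  rw [e1]
  refine (ExC_norm_le E p h0 h1 _).trans ?_
  rw [← Ex_mul_left]
  apply Ex_mono E p h0 h1
  intro ω hω
  rw [norm_neg, norm_mul, norm_mul, Complex.norm_exp_I_mul_ofReal, mul_one, Complex.norm_real,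
    Real.norm_eq_abs]
  have h3 := lclt_exp_bound (-(T * Z ω))
  have h4 : (-(T * Z ω)) ^ 2 / 2 ≤ T ^ 2 * D ^ 2 / 2 := by
    have h5 : (Z ω) ^ 2 ≤ D ^ 2 := by
      rw [← sq_abs (Z ω)]
      exact pow_le_pow_left₀ (abs_nonneg _) (hZ ω hω) 2
    nlinarith [sq_nonneg T]
  rw [mul_comm (T ^ 2 * D ^ 2 / 2)]
  exact mul_le_mul_of_nonneg_left (h3.trans h4) (abs_nonneg _)

section main
variable {α ι : Type} [DecidableEq α] [DecidableEq ι]

/-- pairs of dependent indices -/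
def lclt_P (I : Finset ι) (S : ι → Finset α) : Finset (ι × ι) :=
  (I ×ˢ I).filter (fun x => ¬ Disjoint (S x.1) (S x.2))

omit [DecidableEq ι] in
theorem lclt_P_sum (I : Finset ι) (S : ι → Finset α) (f : ι → ι → ℝ) :
    ∑ x ∈ lclt_P I S, f x.1 x.2 =
      ∑ i ∈ I, ∑ j ∈ I.filter (fun j => ¬ Disjoint (S i) (S j)), f i j := by
  unfold lclt_P
  rw [Finset.sum_filter, Finset.sum_product]
  apply Finset.sum_congr rfl
  intro i _
  rw [Finset.sum_filter]

omit [DecidableEq ι] in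
theorem lclt_P_sum' (I : Finset ι) (S : ι → Finset α) (f : ι → ι → ℝ) :
    ∑ x ∈ lclt_P I S, f x.1 x.2 =
      ∑ i ∈ I, ∑ j ∈ I.filter (fun j => ¬ Disjoint (S i) (S j)), f j i := by
  unfold lclt_P
  rw [Finset.sum_filter, Finset.sum_product_right]
  apply Finset.sum_congr rfl
  intro i _
  rw [Finset.sum_filter]
  apply Finset.sum_congr rfl
  intro j _
  simp only [disjoint_comm]

/-- the near part of the quadratic sum is bounded -/
theorem lclt_near (I : Finset ι) (S : ι → Finset α) (y : ι → ℝ) (D : ℝ)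
    (hy : ∀ i, 0 ≤ y i)
    (hD : ∀ i ∈ I, ∑ j ∈ I.filter (fun j => ¬ Disjoint (S i) (S j)), y j ≤ D)
    (a b : ι) (ha : a ∈ I) (hb : b ∈ I) :
    ∑ x ∈ (lclt_P I S).filter (fun x => ¬ Disjoint (S a ∪ S b) (S x.1 ∪ S x.2)), y x.1 * y x.2 ≤
      4 * D ^ 2 := by
  have hD0 : 0 ≤ D := (Finset.sum_nonneg (fun j _ => hy j)).trans (hD a ha)
  -- the four pieces
  have key : ∀ c ∈ I, ∑ x ∈ lclt_P I S, (if ¬ Disjoint (S c) (S x.1) then y x.1 * y x.2 else 0)
      ≤ D ^ 2 := by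
    intro c hc
    rw [lclt_P_sum I S (fun i j => if ¬ Disjoint (S c) (S i) then y i * y j else 0)]
    calc ∑ i ∈ I, ∑ j ∈ I.filter (fun j => ¬ Disjoint (S i) (S j)),
          (if ¬ Disjoint (S c) (S i) then y i * y j else 0)
        = ∑ i ∈ I.filter (fun i => ¬ Disjoint (S c) (S i)),
            ∑ j ∈ I.filter (fun j => ¬ Disjoint (S i) (S j)), y i * y j := by
          rw [Finset.sum_filter (fun i => ¬ Disjoint (S c) (S i))]
          apply Finset.sum_congr rfl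
          intro i _
          split_ifs <;> simp
      _ ≤ ∑ i ∈ I.filter (fun i => ¬ Disjoint (S c) (S i)), y i * D := by
          apply Finset.sum_le_sum
          intro i hi
          rw [← Finset.mul_sum]
          exact mul_le_mul_of_nonneg_left (hD i (Finset.mem_filter.mp hi).1) (hy i)
      _ ≤ D ^ 2 := by
          rw [← Finset.sum_mul, sq]
          exact mul_le_mul_of_nonneg_right (hD c hc) hD0
  have key' : ∀ c ∈ I, ∑ x ∈ lclt_P I S, (if ¬ Disjoint (S c) (S x.2) then y x.1 * y x.2 else 0)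
      ≤ D ^ 2 := by
    intro c hc
    have h1 := key c hc
    rw [lclt_P_sum I S (fun i j => if ¬ Disjoint (S c) (S i) then y i * y j else 0)] at h1
    rw [lclt_P_sum' I S (fun i j => if ¬ Disjoint (S c) (S j) then y i * y j else 0)]
    refine le_trans (le_of_eq ?_) h1
    apply Finset.sum_congr rfl
    intro i _
    apply Finset.sum_congr rfl
    intro j _
    split_ifs <;> ring
  rw [Finset.sum_filter]
  calc ∑ x ∈ lclt_P I S, (if ¬ Disjoint (S a ∪ S b) (S x.1 ∪ S x.2) then y x.1 * y x.2 else 0)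
      ≤ ∑ x ∈ lclt_P I S, ((if ¬ Disjoint (S a) (S x.1) then y x.1 * y x.2 else 0) +
          (if ¬ Disjoint (S b) (S x.1) then y x.1 * y x.2 else 0) +
          (if ¬ Disjoint (S a) (S x.2) then y x.1 * y x.2 else 0) +
          (if ¬ Disjoint (S b) (S x.2) then y x.1 * y x.2 else 0)) := by
        apply Finset.sum_le_sum
        intro x _
        have hxy : 0 ≤ y x.1 * y x.2 := mul_nonneg (hy _) (hy _)
        by_cases h : Disjoint (S a ∪ S b) (S x.1 ∪ S x.2)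
        · rw [if_neg (not_not.mpr h)]
          split_ifs <;> linarith
        · rw [if_pos h]
          rw [Finset.disjoint_union_left, Finset.disjoint_union_right,
            Finset.disjoint_union_right] at h
          by_cases c1 : Disjoint (S a) (S x.1)
          · by_cases c2 : Disjoint (S a) (S x.2)
            · by_cases c3 : Disjoint (S b) (S x.1)
              · by_cases c4 : Disjoint (S b) (S x.2)
                · exact absurd ⟨⟨c1, c2⟩, ⟨c3, c4⟩⟩ h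
                · simp [c1, c2, c3, c4]
              · rw [if_pos c3]
                split_ifs <;> linarith
            · rw [if_pos c2]
              split_ifs <;> linarith
          · rw [if_pos c1]
            split_ifs <;> linarith
    _ ≤ D ^ 2 + D ^ 2 + D ^ 2 + D ^ 2 := by
        rw [Finset.sum_add_distrib, Finset.sum_add_distrib, Finset.sum_add_distrib]
        have k1 := key a ha
        have k2 := key b hb
        have k3 := key' a ha
        have k4 := key' b hb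
        linarith
    _ = 4 * D ^ 2 := by ring

/-- covariance of a product with the quadratic sum -/
theorem lclt_pair (E : Finset α) (p : ℝ) (h0 : 0 ≤ p)
    (h1 : p ≤ 1) (I : Finset ι) (Y : ι → Finset α → ℝ) (S : ι → Finset α)
    (hS : ∀ i ∈ I, S i ⊆ E) (hY : ∀ i ∈ I, ∀ ω ⊆ E, Y i ω = Y i (ω ∩ S i)) (D : ℝ)
    (hD : ∀ i ∈ I, ∀ ω ⊆ E, ∑ j ∈ I.filter (fun j => ¬ Disjoint (S i) (S j)), |Y j ω| ≤ D)
    (v : ℝ) (hv : Ex E p (fun ω => ∑ x ∈ lclt_P I S, Y x.1 ω * Y x.2 ω) = v)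
    (a b : ι) (ha : a ∈ I) (hb : b ∈ I) :
    Ex E p (fun ω => (Y a ω * Y b ω) * ((∑ x ∈ lclt_P I S, Y x.1 ω * Y x.2 ω) - v)) ≤
      8 * D ^ 2 * Ex E p (fun ω => |Y a ω * Y b ω|) := by
  set T := S a ∪ S b with hT
  set Qn : Finset α → ℝ := fun ω => ∑ x ∈ (lclt_P I S).filter
    (fun x => ¬ Disjoint T (S x.1 ∪ S x.2)), Y x.1 ω * Y x.2 ω with hQn
  set Qf : Finset α → ℝ := fun ω => ∑ x ∈ (lclt_P I S).filter
    (fun x => Disjoint T (S x.1 ∪ S x.2)), Y x.1 ω * Y x.2 ω with hQf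
  have hQ : ∀ ω, ∑ x ∈ lclt_P I S, Y x.1 ω * Y x.2 ω = Qf ω + Qn ω := by
    intro ω
    exact (Finset.sum_filter_add_sum_filter_not _ _ _).symm
  have hQnb : ∀ ω ⊆ E, |Qn ω| ≤ 4 * D ^ 2 := by
    intro ω hω
    refine (Finset.abs_sum_le_sum_abs _ _).trans ?_
    simp only [abs_mul]
    exact lclt_near I S (fun i => |Y i ω|) D (fun i => abs_nonneg _) (fun i hi => hD i hi ω hω)
      a b ha hb
  have hTE : T ⊆ E := Finset.union_subset (hS a ha) (hS b hb)
  have hPI : ∀ x ∈ lclt_P I S, x.1 ∈ I ∧ x.2 ∈ I := by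
    intro x hx
    unfold lclt_P at hx
    rw [Finset.mem_filter, Finset.mem_product] at hx
    exact hx.1
  have hYY : ∀ ω ⊆ E, Y a ω * Y b ω = Y a (ω ∩ T) * Y b (ω ∩ T) := by
    intro ω hω
    have h2 : ω ∩ T ⊆ E := Finset.inter_subset_left.trans hω
    rw [hY a ha ω hω, hY b hb ω hω, hY a ha _ h2, hY b hb _ h2]
    have e1 : ω ∩ T ∩ S a = ω ∩ S a := by
      rw [Finset.inter_assoc, Finset.inter_eq_right.mpr (Finset.subset_union_left)]
    have e2 : ω ∩ T ∩ S b = ω ∩ S b := by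
      rw [Finset.inter_assoc, Finset.inter_eq_right.mpr (Finset.subset_union_right)]
    rw [e1, e2]
  have hQfdep : ∀ ω ⊆ E, Qf ω = Qf (ω ∩ (E \ T)) := by
    intro ω hω
    simp only [hQf]
    apply Finset.sum_congr rfl
    intro x hx
    rw [Finset.mem_filter] at hx
    obtain ⟨hx1, hx2⟩ := hPI x hx.1
    have hd := hx.2
    rw [Finset.disjoint_union_right] at hd
    rw [← lclt_far1 E (S x.1) T (Y x.1) (hS _ hx1) (hY _ hx1) hd.1 ω hω,
      ← lclt_far1 E (S x.2) T (Y x.2) (hS _ hx2) (hY _ hx2) hd.2 ω hω]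
  have hind : Ex E p (fun ω => (Y a ω * Y b ω) * Qf ω) =
      Ex E p (fun ω => Y a ω * Y b ω) * Ex E p Qf :=
    Ex_mul_indep E T (E \ T) Finset.disjoint_sdiff p (fun ω => Y a ω * Y b ω) Qf hYY hQfdep
  have hvs : v = Ex E p Qf + Ex E p Qn := by
    rw [← hv, ← Ex_add]
    apply Ex_congr
    intro ω _
    exact hQ ω
  have e1 : Ex E p (fun ω => (Y a ω * Y b ω) * ((∑ x ∈ lclt_P I S, Y x.1 ω * Y x.2 ω) - v)) =
      Ex E p (fun ω => (Y a ω * Y b ω) * Qn ω) - Ex E p (fun ω => Y a ω * Y b ω) * Ex E p Qn := by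
    have e2 : Ex E p (fun ω => (Y a ω * Y b ω) * ((∑ x ∈ lclt_P I S, Y x.1 ω * Y x.2 ω) - v)) =
        Ex E p (fun ω => (Y a ω * Y b ω) * Qf ω + (Y a ω * Y b ω) * Qn ω) -
          v * Ex E p (fun ω => Y a ω * Y b ω) := by
      rw [← Ex_mul_left, ← Ex_sub]
      apply Ex_congr
      intro ω _
      rw [hQ]
      ring
    rw [e2, Ex_add, hind, hvs]
    ring
  rw [e1]
  have b1 : Ex E p (fun ω => (Y a ω * Y b ω) * Qn ω) ≤
      4 * D ^ 2 * Ex E p (fun ω => |Y a ω * Y b ω|) := by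
    rw [← Ex_mul_left]
    apply Ex_mono E p h0 h1
    intro ω hω
    refine (le_abs_self _).trans ?_
    rw [abs_mul, mul_comm]
    exact mul_le_mul_of_nonneg_right (hQnb ω hω) (abs_nonneg _)
  have b2 : |Ex E p (fun ω => Y a ω * Y b ω)| ≤ Ex E p (fun ω => |Y a ω * Y b ω|) := by
    rw [abs_le]
    constructor
    · have : -(Ex E p (fun ω => |Y a ω * Y b ω|)) = Ex E p (fun ω => -1 * |Y a ω * Y b ω|) := by
        rw [Ex_mul_left]; ring
      rw [this]
      apply Ex_mono E p h0 h1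
      intro ω _
      have := neg_abs_le (Y a ω * Y b ω)
      linarith
    · apply Ex_mono E p h0 h1
      intro ω _
      exact le_abs_self _
  have b3 : |Ex E p Qn| ≤ 4 * D ^ 2 := by
    rw [abs_le]
    constructor
    · have h3 := Ex_mono E p h0 h1 (fun _ => -(4 * D ^ 2)) Qn
        (fun ω hω => (abs_le.mp (hQnb ω hω)).1)
      rwa [Ex_const] at h3
    · have h3 := Ex_mono E p h0 h1 Qn (fun _ => (4 * D ^ 2))
        (fun ω hω => (abs_le.mp (hQnb ω hω)).2)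
      rwa [Ex_const] at h3
  have b4 : |Ex E p (fun ω => Y a ω * Y b ω) * Ex E p Qn| ≤
      Ex E p (fun ω => |Y a ω * Y b ω|) * (4 * D ^ 2) := by
    rw [abs_mul]
    exact mul_le_mul b2 b3 (abs_nonneg _) ((abs_nonneg _).trans b2)
  have b5 := neg_abs_le (Ex E p (fun ω => Y a ω * Y b ω) * Ex E p Qn)
  linarith

/-- variance of the quadratic sum -/
theorem lclt_var (E : Finset α) (p : ℝ) (h0 : 0 ≤ p)
    (h1 : p ≤ 1) (I : Finset ι) (Y : ι → Finset α → ℝ) (S : ι → Finset α)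
    (hS : ∀ i ∈ I, S i ⊆ E) (hY : ∀ i ∈ I, ∀ ω ⊆ E, Y i ω = Y i (ω ∩ S i)) (D : ℝ) (hD0 : 0 ≤ D)
    (hD : ∀ i ∈ I, ∀ ω ⊆ E, ∑ j ∈ I.filter (fun j => ¬ Disjoint (S i) (S j)), |Y j ω| ≤ D)
    (β : ℝ) (hβ : ∑ i ∈ I, Ex E p (fun ω => |Y i ω|) ≤ β)
    (v : ℝ) (hv : Ex E p (fun ω => ∑ x ∈ lclt_P I S, Y x.1 ω * Y x.2 ω) = v) :
    Ex E p (fun ω => ((∑ x ∈ lclt_P I S, Y x.1 ω * Y x.2 ω) - v) ^ 2) ≤ 8 * D ^ 3 * β := by
  have hPI : ∀ x ∈ lclt_P I S, x.1 ∈ I ∧ x.2 ∈ I := by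
    intro x hx
    unfold lclt_P at hx
    rw [Finset.mem_filter, Finset.mem_product] at hx
    exact hx.1
  have e1 : Ex E p (fun ω => ((∑ x ∈ lclt_P I S, Y x.1 ω * Y x.2 ω) - v) ^ 2) =
      ∑ z ∈ lclt_P I S, Ex E p (fun ω => (Y z.1 ω * Y z.2 ω) *
        ((∑ x ∈ lclt_P I S, Y x.1 ω * Y x.2 ω) - v)) := by
    have e2 : Ex E p (fun ω => ((∑ x ∈ lclt_P I S, Y x.1 ω * Y x.2 ω) - v) ^ 2) =
        Ex E p (fun ω => (∑ z ∈ lclt_P I S, (Y z.1 ω * Y z.2 ω) *
        ((∑ x ∈ lclt_P I S, Y x.1 ω * Y x.2 ω) - v)) - v * ((∑ x ∈ lclt_P I S, Y x.1 ω * Y x.2 ω) - v)) := by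
      apply Ex_congr
      intro ω _
      rw [← Finset.sum_mul]
      ring
    rw [e2, Ex_sub, Ex_sum, Ex_mul_left, Ex_sub, hv, Ex_const]
    ring
  rw [e1]
  calc ∑ z ∈ lclt_P I S, Ex E p (fun ω => (Y z.1 ω * Y z.2 ω) *
        ((∑ x ∈ lclt_P I S, Y x.1 ω * Y x.2 ω) - v))
      ≤ ∑ z ∈ lclt_P I S, 8 * D ^ 2 * Ex E p (fun ω => |Y z.1 ω * Y z.2 ω|) := by
        apply Finset.sum_le_sum
        intro z hz
        obtain ⟨hz1, hz2⟩ := hPI z hz
        exact lclt_pair E p h0 h1 I Y S hS hY D hD v hv z.1 z.2 hz1 hz2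
    _ = 8 * D ^ 2 * Ex E p (fun ω => ∑ z ∈ lclt_P I S, |Y z.1 ω| * |Y z.2 ω|) := by
        rw [← Finset.mul_sum, Ex_sum]
        simp only [abs_mul]
    _ ≤ 8 * D ^ 2 * Ex E p (fun ω => D * ∑ i ∈ I, |Y i ω|) := by
        apply mul_le_mul_of_nonneg_left _ (by positivity)
        apply Ex_mono E p h0 h1
        intro ω hω
        rw [lclt_P_sum I S (fun i j => |Y i ω| * |Y j ω|), Finset.mul_sum]
        apply Finset.sum_le_sum
        intro i hi
        rw [← Finset.mul_sum, mul_comm]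
        exact mul_le_mul_of_nonneg_right (hD i hi ω hω) (abs_nonneg _)
    _ = 8 * D ^ 3 * ∑ i ∈ I, Ex E p (fun ω => |Y i ω|) := by
        rw [Ex_mul_left, Ex_sum]
        ring
    _ ≤ 8 * D ^ 3 * β := by
        apply mul_le_mul_of_nonneg_left hβ (by positivity)

theorem lclt (E : Finset α) (p : ℝ) (h0 : 0 ≤ p)
    (h1 : p ≤ 1) (I : Finset ι) (Y : ι → Finset α → ℝ) (S : ι → Finset α)
    (hS : ∀ i ∈ I, S i ⊆ E) (hY : ∀ i ∈ I, ∀ ω ⊆ E, Y i ω = Y i (ω ∩ S i))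
    (hY0 : ∀ i ∈ I, Ex E p (Y i) = 0) (D : ℝ)
    (hD : ∀ i ∈ I, ∀ ω ⊆ E, ∑ j ∈ I.filter (fun j => ¬ Disjoint (S i) (S j)), |Y j ω| ≤ D)
    (σ : ℝ) (hσ : 0 < σ) (hσ2 : Ex E p (fun ω => (∑ i ∈ I, Y i ω) ^ 2) = σ ^ 2) (β : ℝ)
    (hβ : ∑ i ∈ I, Ex E p (fun ω => |Y i ω|) ≤ β) (t : ℝ) :
    ‖ExC E p (fun ω => Complex.exp (Complex.I * ((t * (∑ i ∈ I, Y i ω) / σ : ℝ) : ℂ))) -
      Complex.exp ((-(t ^ 2 / 2) : ℝ) : ℂ)‖ ≤
      t ^ 2 * Real.sqrt (8 * D ^ 3 * β) / σ ^ 2 + |t| ^ 3 * D ^ 2 * β / (2 * σ ^ 3) := by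
  classical
  have hne : I.Nonempty := by
    rcases I.eq_empty_or_nonempty with h | h
    · exfalso
      rw [h] at hσ2
      simp only [Finset.sum_empty] at hσ2
      rw [Ex_const] at hσ2
      have : 0 < σ ^ 2 := by positivity
      norm_num at hσ2
      linarith
    · exact h
  have hD0 : 0 ≤ D := by
    obtain ⟨i, hi⟩ := hne
    exact (Finset.sum_nonneg (fun j _ => abs_nonneg _)).trans (hD i hi ∅ (Finset.empty_subset _))
  have hExnn : ∀ i, 0 ≤ Ex E p (fun ω => |Y i ω|) := by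
    intro i
    have := Ex_mono E p h0 h1 (fun _ => 0) (fun ω => |Y i ω|) (fun ω _ => abs_nonneg _)
    rwa [Ex_const] at this
  have hβ0 : 0 ≤ β := (Finset.sum_nonneg (fun i _ => hExnn i)).trans hβ
  set W : Finset α → ℝ := fun ω => ∑ i ∈ I, Y i ω with hW
  set Z : ι → Finset α → ℝ := fun i ω =>
    ∑ j ∈ I.filter (fun j => ¬ Disjoint (S i) (S j)), Y j ω with hZ
  set Q : Finset α → ℝ := fun ω => ∑ x ∈ lclt_P I S, Y x.1 ω * Y x.2 ω with hQ
  have hQ' : ∀ ω, Q ω = ∑ i ∈ I, Y i ω * Z i ω := by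
    intro ω
    simp only [hQ, hZ]
    rw [lclt_P_sum I S (fun i j => Y i ω * Y j ω)]
    apply Finset.sum_congr rfl
    intro i _
    rw [Finset.mul_sum]
  have hZb : ∀ i ∈ I, ∀ ω ⊆ E, |Z i ω| ≤ D := by
    intro i hi ω hω
    exact (Finset.abs_sum_le_sum_abs _ _).trans (hD i hi ω hω)
  have hWZ : ∀ i ∈ I, ∀ ω ⊆ E, W ω - Z i ω = W (ω ∩ (E \ S i)) - Z i (ω ∩ (E \ S i)) := by
    intro i hi ω hω
    have h2 : ∀ ω', W ω' - Z i ω' = ∑ j ∈ I.filter (fun j => Disjoint (S i) (S j)), Y j ω' := by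
      intro ω'
      have := Finset.sum_filter_add_sum_filter_not I (fun j => Disjoint (S i) (S j))
        (fun j => Y j ω')
      simp only [hW, hZ]
      linarith
    rw [h2, h2]
    apply Finset.sum_congr rfl
    intro j hj
    rw [Finset.mem_filter] at hj
    exact lclt_far1 E (S j) (S i) (Y j) (hS j hj.1) (hY j hj.1) hj.2 ω hω
  have hEQ : Ex E p Q = σ ^ 2 := by
    rw [← hσ2]
    have e1 : Ex E p (fun ω => (∑ i ∈ I, Y i ω) ^ 2) =
        Ex E p (fun ω => Q ω + ∑ i ∈ I, Y i ω * (W ω - Z i ω)) := by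
      apply Ex_congr
      intro ω _
      rw [hQ', ← Finset.sum_add_distrib]
      have : (∑ i ∈ I, Y i ω) ^ 2 = ∑ i ∈ I, Y i ω * W ω := by
        rw [← Finset.sum_mul, sq]
      rw [this]
      apply Finset.sum_congr rfl
      intro i _
      ring
    rw [e1, Ex_add]
    have e2 : Ex E p (fun ω => ∑ i ∈ I, Y i ω * (W ω - Z i ω)) = 0 := by
      rw [Ex_sum]
      apply Finset.sum_eq_zero
      intro i hi
      rw [Ex_mul_indep E (S i) (E \ S i) Finset.disjoint_sdiff p (Y i) (fun ω => W ω - Z i ω)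
        (hY i hi) (hWZ i hi), hY0 i hi, zero_mul]
    rw [e2, add_zero]
  have hVar := lclt_var E p h0 h1 I Y S hS hY D hD0 hD β hβ (σ ^ 2) hEQ
  -- first absolute moment
  have hL1 : Ex E p (fun ω => |Q ω - σ ^ 2|) ≤ Real.sqrt (8 * D ^ 3 * β) := by
    apply Real.le_sqrt_of_sq_le
    exact (Ex_sq_le E p h0 h1 (fun ω => Q ω - σ ^ 2)).trans hVar
  -- the main estimate
  have hmain : ∀ T : ℝ, ‖ExC E p (fun ω => (W ω : ℂ) *
      Complex.exp (Complex.I * ((T * W ω : ℝ) : ℂ))) -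
      Complex.I * T * (σ ^ 2 : ℝ) *
        ExC E p (fun ω => Complex.exp (Complex.I * ((T * W ω : ℝ) : ℂ)))‖ ≤
      T ^ 2 * D ^ 2 / 2 * β + |T| * Real.sqrt (8 * D ^ 3 * β) := by
    intro T
    set e : Finset α → ℂ := fun ω => Complex.exp (Complex.I * ((T * W ω : ℝ) : ℂ)) with he
    have a1 : ExC E p (fun ω => (W ω : ℂ) * e ω) = ∑ i ∈ I, ExC E p (fun ω => (Y i ω : ℂ) * e ω) := by
      rw [← ExC_sum]
      apply lclt_congr
      intro ω _
      simp only [hW]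
      push_cast
      rw [Finset.sum_mul]
    have a2 : ExC E p (fun ω => (Q ω : ℂ) * e ω) =
        ∑ i ∈ I, ExC E p (fun ω => ((Y i ω * Z i ω : ℝ) : ℂ) * e ω) := by
      rw [← ExC_sum]
      apply lclt_congr
      intro ω _
      rw [hQ']
      push_cast
      rw [Finset.sum_mul]
    have a3 : ‖ExC E p (fun ω => (W ω : ℂ) * e ω) -
        Complex.I * T * ExC E p (fun ω => (Q ω : ℂ) * e ω)‖ ≤ T ^ 2 * D ^ 2 / 2 * β := by
      rw [a1, a2, Finset.mul_sum, ← Finset.sum_sub_distrib]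
      refine (norm_sum_le _ _).trans ?_
      calc ∑ i ∈ I, ‖ExC E p (fun ω => (Y i ω : ℂ) * e ω) -
            Complex.I * T * ExC E p (fun ω => ((Y i ω * Z i ω : ℝ) : ℂ) * e ω)‖
          ≤ ∑ i ∈ I, T ^ 2 * D ^ 2 / 2 * Ex E p (fun ω => |Y i ω|) := by
            apply Finset.sum_le_sum
            intro i hi
            apply lclt_step E p h0 h1 (Y i) W (Z i) D T (hZb i hi)
            apply lclt_cov0 E (S i) p (Y i) (hY i hi) (hY0 i hi)
              (fun ω => Complex.exp (Complex.I * ((T * (W ω - Z i ω) : ℝ) : ℂ)))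
            intro ω hω
            simp only [hWZ i hi ω hω]
        _ = T ^ 2 * D ^ 2 / 2 * ∑ i ∈ I, Ex E p (fun ω => |Y i ω|) := by rw [Finset.mul_sum]
        _ ≤ T ^ 2 * D ^ 2 / 2 * β := mul_le_mul_of_nonneg_left hβ (by positivity)
    have a4 : ‖ExC E p (fun ω => (Q ω : ℂ) * e ω) - (σ ^ 2 : ℝ) * ExC E p e‖ ≤
        Real.sqrt (8 * D ^ 3 * β) := by
      rw [← ExC_mul_left, ← ExC_sub]
      refine (ExC_norm_le E p h0 h1 _).trans (le_trans ?_ hL1)
      apply Ex_mono E p h0 h1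
      intro ω _
      have a5 : (Q ω : ℂ) * e ω - ((σ ^ 2 : ℝ) : ℂ) * e ω = ((Q ω - σ ^ 2 : ℝ) : ℂ) * e ω := by
        push_cast
        ring
      rw [a5, norm_mul, Complex.norm_exp_I_mul_ofReal, mul_one, Complex.norm_real,
        Real.norm_eq_abs]
    have a6 : ExC E p (fun ω => (W ω : ℂ) * e ω) - Complex.I * T * (σ ^ 2 : ℝ) * ExC E p e =
        (ExC E p (fun ω => (W ω : ℂ) * e ω) - Complex.I * T * ExC E p (fun ω => (Q ω : ℂ) * e ω)) +
        Complex.I * T * (ExC E p (fun ω => (Q ω : ℂ) * e ω) - (σ ^ 2 : ℝ) * ExC E p e) := by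
      ring
    rw [a6]
    refine (norm_add_le _ _).trans (add_le_add a3 ?_)
    rw [norm_mul, norm_mul, Complex.norm_I, one_mul, Complex.norm_real, Real.norm_eq_abs]
    exact mul_le_mul_of_nonneg_left a4 (abs_nonneg _)
  -- conclusion by the differential inequality
  have hode := lclt_ode
    (fun t : ℝ => ExC E p (fun ω => Complex.exp (Complex.I * ((t * (W ω / σ) : ℝ) : ℂ))))
    (fun t : ℝ => ExC E p (fun ω => Complex.I * ((W ω / σ : ℝ) : ℂ) *
      Complex.exp (Complex.I * ((t * (W ω / σ) : ℝ) : ℂ))))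
    (fun t => lclt_deriv E p (fun ω => W ω / σ) t)
    (by
      have : (fun ω : Finset α => Complex.exp (Complex.I * (((0:ℝ) * (W ω / σ) : ℝ) : ℂ))) =
          fun _ => (((1:ℝ)) : ℂ) := by
        funext ω
        simp
      simp only [this]
      rw [ExC_ofReal, Ex_const]
      simp)
    (Real.sqrt (8 * D ^ 3 * β) / σ ^ 2) (D ^ 2 * β / (2 * σ ^ 3)) (by positivity) (by positivity)
    (by
      intro s
      have b1 := hmain (s / σ)
      have b2 : (fun ω : Finset α => Complex.exp (Complex.I * ((s * (W ω / σ) : ℝ) : ℂ))) =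
          fun ω => Complex.exp (Complex.I * ((s / σ * W ω : ℝ) : ℂ)) := by
        funext ω
        congr 3
        ring
      have b3 : ExC E p (fun ω => Complex.I * ((W ω / σ : ℝ) : ℂ) *
          Complex.exp (Complex.I * ((s * (W ω / σ) : ℝ) : ℂ))) =
          (Complex.I / σ) * ExC E p (fun ω => (W ω : ℂ) *
            Complex.exp (Complex.I * ((s / σ * W ω : ℝ) : ℂ))) := by
        rw [← ExC_mul_left]
        apply lclt_congr
        intro ω _
        rw [congrFun b2 ω]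
        push_cast
        ring
      rw [b3, b2]
      have hσC : (σ : ℂ) ≠ 0 := by exact_mod_cast hσ.ne'
      have b4 : (Complex.I / σ) * ExC E p (fun ω => (W ω : ℂ) *
            Complex.exp (Complex.I * ((s / σ * W ω : ℝ) : ℂ))) +
            (s : ℂ) * ExC E p (fun ω => Complex.exp (Complex.I * ((s / σ * W ω : ℝ) : ℂ))) =
          (Complex.I / σ) * (ExC E p (fun ω => (W ω : ℂ) *
            Complex.exp (Complex.I * ((s / σ * W ω : ℝ) : ℂ))) -
            Complex.I * ((s / σ : ℝ) : ℂ) * (σ ^ 2 : ℝ) *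
            ExC E p (fun ω => Complex.exp (Complex.I * ((s / σ * W ω : ℝ) : ℂ)))) := by
        generalize ExC E p (fun ω => (W ω : ℂ) *
            Complex.exp (Complex.I * ((s / σ * W ω : ℝ) : ℂ))) = A
        generalize ExC E p (fun ω => Complex.exp (Complex.I * ((s / σ * W ω : ℝ) : ℂ))) = B
        have hI : Complex.I * Complex.I = -1 := Complex.I_mul_I
        push_cast
        have b5 : Complex.I / (σ : ℂ) * (A - Complex.I * ((s : ℂ) / σ) * (σ : ℂ) ^ 2 * B) =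
            Complex.I / (σ : ℂ) * A - (Complex.I * Complex.I) * s * B * ((σ : ℂ) ^ 2 / (σ * σ)) := by
          ring
        have b6 : (σ : ℂ) ^ 2 / (σ * σ) = 1 := by
          rw [← sq]
          exact div_self (pow_ne_zero 2 hσC)
        rw [b5, b6, hI]
        ring
      rw [b4, norm_mul, norm_div, Complex.norm_I, Complex.norm_real, Real.norm_eq_abs,
        abs_of_pos hσ]
      calc 1 / σ * ‖ExC E p (fun ω => (W ω : ℂ) *
            Complex.exp (Complex.I * ((s / σ * W ω : ℝ) : ℂ))) -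
            Complex.I * ((s / σ : ℝ) : ℂ) * (σ ^ 2 : ℝ) *
            ExC E p (fun ω => Complex.exp (Complex.I * ((s / σ * W ω : ℝ) : ℂ)))‖
          ≤ 1 / σ * ((s / σ) ^ 2 * D ^ 2 / 2 * β + |s / σ| * Real.sqrt (8 * D ^ 3 * β)) :=
            mul_le_mul_of_nonneg_left b1 (by positivity)
        _ = |s| * (Real.sqrt (8 * D ^ 3 * β) / σ ^ 2) + s ^ 2 * (D ^ 2 * β / (2 * σ ^ 3)) := by
            rw [abs_div, abs_of_pos hσ]
            field_simp
            ring)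
    t
  have c1 : (fun ω : Finset α => Complex.exp (Complex.I * ((t * (∑ i ∈ I, Y i ω) / σ : ℝ) : ℂ))) =
      fun ω => Complex.exp (Complex.I * ((t * (W ω / σ) : ℝ) : ℂ)) := by
    funext ω
    congr 3
    simp only [hW]
    ring
  rw [c1]
  refine hode.trans (le_of_eq ?_)
  ring

end main

end Pool.Agent.Work.MP_b7dc8a_pr
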