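import Pool.Agent.Work.MP_b7dc8a_pr.Base
import Pool.Agent.Work.MP_b7dc8a_pr.Clb
import Pool.Agent.Work.MP_b7dc8a_pr.Lclt

/-! Module APP (uses BIN, CLB, LCLT)
APP: index set = nonempty A with |A| <= K; Y_A = |A|(1[A is a cluster] - P), S_A = edges of cubeE touching A; A~B => B meets
 N[A], |N[A]| <= (m+1)K, sum_{B~A}|B| 1[B cluster] <= (m+1)K^2. beta <= 2 Ex X_K <= 2 2^m.
-/

namespace Pool.Agent.Work.MP_b7dc8a_pr

open Finset Filter Topology

open Classical in
/-- number of vertices whose cluster is `A` -/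
noncomputable def app_n {V : Type} [Fintype V] (A : Finset V) (ω : Finset (Sym2 V)) : ℕ :=
  (univ.filter fun x : V => cl ω x = A).card

open Classical in
/-- the sets with at most `K` vertices -/
noncomputable def app_I (V : Type) [Fintype V] (K : ℕ) : Finset (Finset V) :=
  (univ : Finset (Finset V)).filter fun A => A.card ≤ K

open Classical in
/-- the edges which touch `A` -/
noncomputable def app_S {m : ℕ} (A : Finset (Q m)) : Finset (Sym2 (Q m)) :=
  (cubeE m).filter fun e => ∃ x ∈ A, x ∈ e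

/-- closed neighbourhood of `x` -/
noncomputable def app_N1 {m : ℕ} (x : Q m) : Finset (Q m) :=
  insert x (univ.image fun i : Fin m => Function.update x i (!x i))

theorem app_XK {V : Type} [Fintype V] (K : ℕ) (ω : Finset (Sym2 V)) :
    XK K ω = ∑ A ∈ app_I V K, app_n A ω := by
  classical
  unfold XK app_n
  rw [Finset.card_eq_sum_card_fiberwise (f := fun x => cl ω x) (t := app_I V K)]
  · apply Finset.sum_congr rfl
    intro A hA
    congr 1
    ext x
    simp only [Finset.mem_filter, Finset.mem_univ, true_and]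
    constructor
    · rintro ⟨_, h⟩
      exact h
    · intro h
      refine ⟨?_, h⟩
      rw [h]
      unfold app_I at hA
      exact (Finset.mem_filter.mp hA).2
  · intro x hx
    simp only [Finset.coe_filter, Finset.mem_univ, true_and, Set.mem_ofPred_eq] at hx
    unfold app_I
    simp only [Finset.coe_filter, Finset.mem_univ, true_and, Set.mem_ofPred_eq]
    exact hx

theorem app_n_le {V : Type} [Fintype V] (A : Finset V) (ω : Finset (Sym2 V)) :
    app_n A ω ≤ A.card := by
  classical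
  unfold app_n
  apply Finset.card_le_card
  intro x hx
  rw [Finset.mem_filter] at hx
  rw [← hx.2]
  exact mem_cl_self ω x

theorem app_n_pos {V : Type} [Fintype V] (A : Finset V) (ω : Finset (Sym2 V)) (z : V) (hz : z ∈ A)
    (h : app_n A ω ≠ 0) : A = cl ω z := by
  classical
  unfold app_n at h
  rw [Finset.card_ne_zero] at h
  obtain ⟨x, hx⟩ := h
  rw [Finset.mem_filter] at hx
  rw [← hx.2] at hz ⊢
  exact (cl_eq_of_mem ω x z hz).symm

theorem app_mem_S {m : ℕ} (A : Finset (Q m)) (e : Sym2 (Q m)) :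
    e ∈ app_S A ↔ e ∈ cubeE m ∧ ∃ x ∈ A, x ∈ e := by
  unfold app_S
  simp only [Finset.mem_filter]

theorem app_dep {m : ℕ} (A : Finset (Q m)) (ω : Finset (Sym2 (Q m))) (hω : ω ⊆ cubeE m) :
    app_n A ω = app_n A (ω ∩ app_S A) := by
  classical
  unfold app_n
  congr 1
  ext x
  simp only [Finset.mem_filter, Finset.mem_univ, true_and]
  have hE : ∀ z ∈ A, ∀ y, s(z, y) ∈ ω ↔ s(z, y) ∈ ω ∩ app_S A := by
    intro z hz y
    rw [Finset.mem_inter, app_mem_S]
    constructor
    · intro h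
      exact ⟨h, hω h, z, hz, Sym2.mem_mk_left z y⟩
    · exact fun h => h.1
  constructor
  · intro h
    rw [cl_eq_of ω (ω ∩ app_S A) x (by rw [h]; exact hE), h]
  · intro h
    rw [cl_eq_of (ω ∩ app_S A) ω x (by rw [h]; exact fun z hz y => (hE z hz y).symm), h]

theorem app_N1_card {m : ℕ} (x : Q m) : (app_N1 x).card ≤ m + 1 := by
  unfold app_N1
  refine (Finset.card_insert_le _ _).trans ?_
  have h := Finset.card_image_le (s := (univ : Finset (Fin m)))
    (f := fun i : Fin m => Function.update x i (!x i))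
  rw [Finset.card_univ, Fintype.card_fin] at h
  omega

theorem app_N1_mem {m : ℕ} (x z : Q m) (h : hammingDist x z = 1) : z ∈ app_N1 x := by
  unfold app_N1
  rw [Finset.mem_insert]
  right
  unfold hammingDist at h
  rw [Finset.card_eq_one] at h
  obtain ⟨i, hi⟩ := h
  rw [Finset.mem_image]
  refine ⟨i, Finset.mem_univ _, ?_⟩
  funext j
  by_cases hj : j = i
  · subst hj
    have h1 : j ∈ univ.filter (fun i => x i ≠ z i) := by rw [hi]; exact Finset.mem_singleton_self _
    rw [Finset.mem_filter] at h1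
    rw [Function.update_self]
    have h2 := h1.2
    cases hx : x j <;> cases hz : z j <;> simp_all
  · have h1 : j ∉ univ.filter (fun i => x i ≠ z i) := by
      rw [hi, Finset.mem_singleton]; exact hj
    rw [Finset.mem_filter] at h1
    rw [Function.update_of_ne hj]
    by_contra h2
    exact h1 ⟨Finset.mem_univ _, h2⟩

theorem app_touch {m : ℕ} (A B : Finset (Q m)) (h : ¬ Disjoint (app_S A) (app_S B)) :
    ∃ x ∈ A, ∃ z ∈ B, z ∈ app_N1 x := by
  rw [Finset.not_disjoint_iff] at h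
  obtain ⟨e, h1, h2⟩ := h
  rw [app_mem_S] at h1 h2
  obtain ⟨hE, x, hx, hxe⟩ := h1
  obtain ⟨_, z, hz, hze⟩ := h2
  refine ⟨x, hx, z, hz, ?_⟩
  by_cases hxz : x = z
  · rw [hxz]
    unfold app_N1
    exact Finset.mem_insert_self _ _
  · have he : e = s(x, z) := ((Sym2.mem_and_mem_iff hxz).mp ⟨hxe, hze⟩)
    rw [he] at hE
    unfold cubeE at hE
    rw [SimpleGraph.mem_edgeFinset, SimpleGraph.mem_edgeSet] at hE
    exact app_N1_mem x z hE

theorem app_near {m : ℕ} (K : ℕ) (A : Finset (Q m)) (hA : A ∈ app_I (Q m) K)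
    (ω : Finset (Sym2 (Q m))) :
    ∑ B ∈ (app_I (Q m) K).filter (fun B => ¬ Disjoint (app_S A) (app_S B)), app_n B ω ≤
      (m + 1) * K ^ 2 := by
  classical
  have hAK : A.card ≤ K := by
    unfold app_I at hA
    exact (Finset.mem_filter.mp hA).2
  have h1 : ∀ B ∈ (app_I (Q m) K).filter (fun B => ¬ Disjoint (app_S A) (app_S B)),
      app_n B ω ≤ ∑ z ∈ A.biUnion app_N1, if B = cl ω z then app_n B ω else 0 := by
    intro B hB
    rw [Finset.mem_filter] at hB
    obtain ⟨x, hx, z, hz, hzx⟩ := app_touch A B hB.2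
    by_cases h0 : app_n B ω = 0
    · rw [h0]; exact Nat.zero_le _
    · have h2 := app_n_pos B ω z hz h0
      have h3 : z ∈ A.biUnion app_N1 := Finset.mem_biUnion.mpr ⟨x, hx, hzx⟩
      calc app_n B ω = if B = cl ω z then app_n B ω else 0 := by rw [if_pos h2]
        _ ≤ _ := Finset.single_le_sum (f := fun z => if B = cl ω z then app_n B ω else 0)
            (fun _ _ => Nat.zero_le _) h3
  refine (Finset.sum_le_sum h1).trans ?_
  rw [Finset.sum_comm]
  have h2 : ∀ z ∈ A.biUnion app_N1, ∑ B ∈ (app_I (Q m) K).filter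
      (fun B => ¬ Disjoint (app_S A) (app_S B)), (if B = cl ω z then app_n B ω else 0) ≤ K := by
    intro z _
    rw [Finset.sum_ite_eq']
    split_ifs with h3
    · rw [Finset.mem_filter] at h3
      have h4 := h3.1
      unfold app_I at h4
      exact (app_n_le _ _).trans (Finset.mem_filter.mp h4).2
    · exact Nat.zero_le _
  refine (Finset.sum_le_card_nsmul _ _ K h2).trans ?_
  rw [smul_eq_mul]
  have h3 : (A.biUnion app_N1).card ≤ K * (m + 1) := by
    refine Finset.card_biUnion_le.trans ?_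
    refine (Finset.sum_le_card_nsmul _ _ (m + 1) (fun x _ => app_N1_card x)).trans ?_
    rw [smul_eq_mul]
    exact Nat.mul_le_mul_right _ hAK
  calc (A.biUnion app_N1).card * K ≤ K * (m + 1) * K := Nat.mul_le_mul_right _ h3
    _ = (m + 1) * K ^ 2 := by ring

theorem clt_XK (m K : ℕ) (hm : 1 ≤ m) (p : ℝ) (h0 : 0 ≤ p) (h1 : p ≤ 1) (μ σ : ℝ)
    (hμ : Ex (cubeE m) p (fun ω => (XK K ω : ℝ)) = μ) (hσ : 0 < σ)
    (hσ2 : Ex (cubeE m) p (fun ω => ((XK K ω : ℝ) - μ) ^ 2) = σ ^ 2) (t : ℝ) :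
    ‖ExC (cubeE m) p (fun ω => Complex.exp (Complex.I * ((t * ((XK K ω : ℝ) - μ) / σ : ℝ) : ℂ))) -
      Complex.exp ((-(t ^ 2 / 2) : ℝ) : ℂ)‖ ≤
      t ^ 2 * Real.sqrt (8 * (2 * (m + 1) * (K : ℝ) ^ 2) ^ 3 * (2 * 2 ^ m)) / σ ^ 2 +
        |t| ^ 3 * (2 * (m + 1) * (K : ℝ) ^ 2) ^ 2 * (2 * 2 ^ m) / (2 * σ ^ 3) := by
  classical
  set I := app_I (Q m) K with hI
  set ν : Finset (Q m) → ℝ := fun A => Ex (cubeE m) p (fun ω => (app_n A ω : ℝ)) with hν
  have hν0 : ∀ A, 0 ≤ ν A := by
    intro A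
    have h := Ex_mono (cubeE m) p h0 h1 (fun _ => 0) (fun ω => (app_n A ω : ℝ))
      (fun ω _ => Nat.cast_nonneg _)
    rwa [Ex_const] at h
  set Y : Finset (Q m) → Finset (Sym2 (Q m)) → ℝ := fun A ω => (app_n A ω : ℝ) - ν A with hY
  have hsum : ∀ ω, (XK K ω : ℝ) = ∑ A ∈ I, (app_n A ω : ℝ) := by
    intro ω
    rw [app_XK]
    push_cast
    rfl
  have hμs : ∑ A ∈ I, ν A = μ := by
    rw [← hμ, hν, ← Ex_sum]
    apply Ex_congr
    intro ω _
    exact (hsum ω).symm
  have hW : ∀ ω, ∑ A ∈ I, Y A ω = (XK K ω : ℝ) - μ := by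
    intro ω
    simp only [hY]
    rw [Finset.sum_sub_distrib, hμs, hsum]
  have hμle : μ ≤ 2 ^ m := by
    have h := Ex_mono (cubeE m) p h0 h1 (fun ω => (XK K ω : ℝ)) (fun _ => 2 ^ m) (by
      intro ω _
      have h2 : XK K ω ≤ 2 ^ m := by
        unfold XK
        refine (Finset.card_filter_le _ _).trans ?_
        rw [Finset.card_univ]
        simp [Q]
      exact_mod_cast h2)
    rwa [Ex_const, hμ] at h
  have habs : ∀ A ω, |Y A ω| ≤ (app_n A ω : ℝ) + ν A := by
    intro A ω
    simp only [hY]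
    have hn : (0:ℝ) ≤ (app_n A ω : ℝ) := Nat.cast_nonneg _
    rw [abs_le]
    constructor <;> linarith [hν0 A]
  have hnear : ∀ A ∈ I, ∀ ω, ∑ B ∈ I.filter (fun B => ¬ Disjoint (app_S A) (app_S B)),
      (app_n B ω : ℝ) ≤ (m + 1) * (K : ℝ) ^ 2 := by
    intro A hA ω
    have h := app_near K A hA ω
    exact_mod_cast h
  have key := lclt (cubeE m) p h0 h1 I Y app_S
    (fun A _ e he => ((app_mem_S A e).mp he).1)
    (fun A _ ω hω => by
      simp only [hY]
      rw [app_dep A ω hω])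
    (fun A _ => by
      simp only [hY]
      rw [Ex_sub, Ex_const]
      simp [hν])
    (2 * (m + 1) * (K : ℝ) ^ 2)
    (fun A hA ω _ => by
      calc ∑ B ∈ I.filter (fun B => ¬ Disjoint (app_S A) (app_S B)), |Y B ω|
          ≤ ∑ B ∈ I.filter (fun B => ¬ Disjoint (app_S A) (app_S B)), ((app_n B ω : ℝ) + ν B) :=
            Finset.sum_le_sum (fun B _ => habs B ω)
        _ = ∑ B ∈ I.filter (fun B => ¬ Disjoint (app_S A) (app_S B)), (app_n B ω : ℝ) +
            ∑ B ∈ I.filter (fun B => ¬ Disjoint (app_S A) (app_S B)), ν B :=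
            Finset.sum_add_distrib
        _ ≤ (m + 1) * (K : ℝ) ^ 2 + (m + 1) * (K : ℝ) ^ 2 := by
            apply add_le_add (hnear A hA ω)
            rw [hν, ← Ex_sum]
            have h := Ex_mono (cubeE m) p h0 h1
              (fun ω => ∑ B ∈ I.filter (fun B => ¬ Disjoint (app_S A) (app_S B)), (app_n B ω : ℝ))
              (fun _ => (m + 1) * (K : ℝ) ^ 2) (fun ω _ => hnear A hA ω)
            rwa [Ex_const] at h
        _ = 2 * (m + 1) * (K : ℝ) ^ 2 := by ring)
    σ hσ (by simp only [hW]; exact hσ2) (2 * 2 ^ m)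
    (by
      calc ∑ A ∈ I, Ex (cubeE m) p (fun ω => |Y A ω|)
          ≤ ∑ A ∈ I, 2 * ν A := by
            apply Finset.sum_le_sum
            intro A _
            have h := Ex_mono (cubeE m) p h0 h1 (fun ω => |Y A ω|)
              (fun ω => (app_n A ω : ℝ) + ν A) (fun ω _ => habs A ω)
            rw [Ex_add, Ex_const] at h
            refine h.trans (le_of_eq ?_)
            simp only [hν]
            ring
        _ = 2 * μ := by rw [← Finset.mul_sum, hμs]
        _ ≤ 2 * 2 ^ m := by linarith)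
    t
  simp only [hW] at key
  exact key

end Pool.Agent.Work.MP_b7dc8a_pr
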