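import Pool.Agent.Work.MP_b7dc8a_pr.Base
import Pool.Agent.Work.MP_b7dc8a_pr.Bin
import Pool.Agent.Work.MP_b7dc8a_pr.Clb

/-! Module EXLOW (uses BIN, CLB)
EXLOW: translations x -> xor x z preserve cubeE, so Ex|cl o| = 2^-m sum_x Ex|cl x|; sum_x |cl x| >= N^2 on Uniq (N = #{x: M<|cl x|}),
 >= N^2 - 4^m always; Ex N^2 >= (Ex N)^2 >= (2^m s)^2.
-/

namespace Pool.Agent.Work.MP_b7dc8a_pr

open Finset Filter Topology

/-- invariance of the expectation under bijections of the ground set -/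
theorem exlow_equiv {α : Type} [DecidableEq α] (E : Finset α) (e : α ≃ α) (p : ℝ)
    (hE : ∀ a, a ∈ E ↔ e a ∈ E) (F : Finset α → ℝ) :
    Ex E p (fun ω => F (ω.image e)) = Ex E p F := by
  unfold Ex
  refine Finset.sum_nbij' (fun ω => ω.image e) (fun ω => ω.image e.symm) ?_ ?_ ?_ ?_ ?_
  · intro ω hω
    rw [mem_powerset] at hω ⊢
    intro a ha
    rw [mem_image] at ha
    obtain ⟨b, hb, rfl⟩ := ha
    exact (hE b).1 (hω hb)
  · intro ω hω
    rw [mem_powerset] at hω ⊢
    intro a ha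
    rw [mem_image] at ha
    obtain ⟨b, hb, rfl⟩ := ha
    exact (hE _).2 (by rw [Equiv.apply_symm_apply]; exact hω hb)
  · intro ω _
    simp [Finset.image_image]
  · intro ω _
    simp [Finset.image_image]
  · intro ω _
    rw [Finset.card_image_of_injective _ e.injective]

/-- the bijection of pairs induced by a bijection -/
def exlowSym {V : Type} (τ : V ≃ V) : Sym2 V ≃ Sym2 V where
  toFun := Sym2.map τ
  invFun := Sym2.map τ.symm
  left_inv a := by rw [Sym2.map_map]; simp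
  right_inv a := by rw [Sym2.map_map]; simp

/-- translation of the cube -/
def exlowTr {m : ℕ} (z : Q m) : Q m ≃ Q m where
  toFun v := fun i => xor (v i) (z i)
  invFun v := fun i => xor (v i) (z i)
  left_inv v := by funext i; simp
  right_inv v := by funext i; simp

theorem exlowTr_adj {m : ℕ} (z x y : Q m) :
    (cube m).Adj (exlowTr z x) (exlowTr z y) ↔ (cube m).Adj x y := by
  show hammingDist (exlowTr z x) (exlowTr z y) = 1 ↔ hammingDist x y = 1
  have : hammingDist (exlowTr z x) (exlowTr z y) = hammingDist x y := by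
    unfold hammingDist
    congr 1
    ext i
    simp [exlowTr]
  rw [this]

theorem exlow_mem {m : ℕ} (z : Q m) (a : Sym2 (Q m)) :
    a ∈ cubeE m ↔ exlowSym (exlowTr z) a ∈ cubeE m := by
  induction a using Sym2.ind with
  | h x y =>
    unfold cubeE exlowSym
    simp only [Equiv.coe_fn_mk, Sym2.map_mk, SimpleGraph.mem_edgeFinset, SimpleGraph.mem_edgeSet]
    rw [exlowTr_adj]

theorem exlow_reach {V : Type} [Fintype V] [DecidableEq V] (τ : V ≃ V) (ω : Finset (Sym2 V)) (x y : V)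
    (h : y ∈ cl ω x) : τ y ∈ cl (ω.image (exlowSym τ)) (τ x) := by
  rw [clb_mem_cl] at h ⊢
  refine clb_closed ω {v | (SimpleGraph.fromEdgeSet
    ((ω.image (exlowSym τ) : Finset (Sym2 V)) : Set (Sym2 V))).Reachable (τ x) (τ v)} ?_ x y
    (SimpleGraph.Reachable.refl _) h
  intro a ha b hab
  exact SimpleGraph.Reachable.trans ha (clb_reach_of_edge _ _ _
    (mem_image.2 ⟨s(a, b), hab, rfl⟩))

theorem exlow_cl {V : Type} [Fintype V] [DecidableEq V] (τ : V ≃ V) (ω : Finset (Sym2 V)) (x : V) :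
    (cl (ω.image (exlowSym τ)) (τ x)).card = (cl ω x).card := by
  have : cl (ω.image (exlowSym τ)) (τ x) = (cl ω x).image τ := by
    ext y
    rw [mem_image]
    constructor
    · intro hy
      refine ⟨τ.symm y, ?_, by simp⟩
      have h1 := exlow_reach τ.symm _ _ _ hy
      have h2 : (ω.image (exlowSym τ)).image (exlowSym τ.symm) = ω := by
        rw [Finset.image_image]
        have : (exlowSym τ.symm : Sym2 V → Sym2 V) ∘ (exlowSym τ) = id := by
          funext a
          exact (exlowSym τ).symm_apply_apply a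
        rw [this, Finset.image_id]
      rw [h2] at h1
      simpa using h1
    · rintro ⟨v, hv, rfl⟩
      exact exlow_reach τ ω x v hv
  rw [this, Finset.card_image_of_injective _ τ.injective]

theorem exlow_trans {m : ℕ} (p : ℝ) (x o : Q m) :
    Ex (cubeE m) p (fun ω => ((cl ω x).card : ℝ)) = Ex (cubeE m) p (fun ω => ((cl ω o).card : ℝ)) := by
  have hz : exlowTr (fun i => xor (x i) (o i)) x = o := by
    funext i
    simp [exlowTr]
  have h := exlow_equiv (cubeE m) (exlowSym (exlowTr (fun i => xor (x i) (o i)))) p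
    (exlow_mem _) (fun ω => ((cl ω o).card : ℝ))
  rw [← h]
  refine Ex_congr _ _ _ _ fun ω _ => ?_
  have h2 := exlow_cl (exlowTr (fun i => xor (x i) (o i))) ω x
  rw [hz] at h2
  exact_mod_cast h2.symm

theorem exlow_four (m : ℕ) : (4 : ℝ) ^ m = 2 ^ m * 2 ^ m := by
  rw [← mul_pow]; norm_num

theorem exlow_ind0 (P : Prop) : 0 ≤ ind P := by
  unfold ind; split_ifs <;> norm_num

theorem exlow_ind1 (P : Prop) : ind P ≤ 1 := by
  unfold ind; split_ifs <;> norm_num

theorem exlow_indt {P : Prop} (h : P) : ind P = 1 := by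
  unfold ind; rw [if_pos h]

theorem exlow_indf {P : Prop} (h : ¬ P) : ind P = 0 := by
  unfold ind; rw [if_neg h]

theorem exlow_count {m : ℕ} (P : Q m → Prop) (S : Finset (Q m)) (h : ∀ x, P x → x ∈ S) :
    ∑ x : Q m, ind (P x) ≤ (S.card : ℝ) := by
  classical
  have : ∀ x : Q m, ind (P x) ≤ if x ∈ S then (1 : ℝ) else 0 := by
    intro x
    by_cases hx : P x
    · rw [exlow_indt hx, if_pos (h x hx)]
    · rw [exlow_indf hx]; split_ifs <;> norm_num
  refine (Finset.sum_le_sum fun x _ => this x).trans ?_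
  rw [Finset.sum_ite_mem, Finset.univ_inter, Finset.sum_const, nsmul_eq_mul, mul_one]

theorem ex_lower (m M : ℕ) (p s u : ℝ) (h0 : 0 ≤ p) (h1 : p ≤ 1) (hs0 : 0 ≤ s)
    (hs : ∀ x : Q m, s ≤ Ex (cubeE m) p (fun ω => ind (M < (cl ω x).card)))
    (hu : Ex (cubeE m) p (fun ω => ind (¬ Uniq M ω)) ≤ u) (o : Q m) :
    2 ^ m * (s ^ 2 - u) ≤ Ex (cubeE m) p (fun ω => ((cl ω o).card : ℝ)) := by
  obtain ⟨μ, hμ⟩ : ∃ μ, Ex (cubeE m) p (fun ω => ((cl ω o).card : ℝ)) = μ := ⟨_, rfl⟩
  rw [hμ]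
  obtain ⟨N, hN⟩ : ∃ N : Finset (Sym2 (Q m)) → ℝ, ∀ ω, N ω = ∑ x : Q m, ind (M < (cl ω x).card) :=
    ⟨_, fun ω => rfl⟩
  have hcard : (Finset.univ : Finset (Q m)).card = 2 ^ m := by simp [Q]
  have h4 := exlow_four m
  have h2pos : (0 : ℝ) < 2 ^ m := pow_pos (by norm_num) m
  have hN0 : ∀ ω, 0 ≤ N ω := fun ω => by
    rw [hN]; exact Finset.sum_nonneg fun x _ => exlow_ind0 _
  have hN1 : ∀ ω, N ω ≤ 2 ^ m := by
    intro ω
    rw [hN]
    have := exlow_count (fun x : Q m => M < (cl ω x).card) Finset.univ (fun x _ => Finset.mem_univ x)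
    rw [hcard] at this
    exact_mod_cast this
  -- sum of the cluster sizes
  have hA : Ex (cubeE m) p (fun ω => ∑ x : Q m, ((cl ω x).card : ℝ)) = 2 ^ m * μ := by
    rw [Ex_sum, Finset.sum_congr rfl (fun x _ => (exlow_trans p x o).trans hμ), Finset.sum_const,
      hcard, nsmul_eq_mul]
    push_cast; rfl
  have hB : ∀ ω, N ω ^ 2 - 4 ^ m * ind (¬ Uniq M ω) ≤ ∑ x : Q m, ((cl ω x).card : ℝ) := by
    intro ω
    by_cases hU : Uniq M ω
    · rw [exlow_indf (not_not.2 hU), mul_zero, sub_zero, sq]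
      have e1 : N ω * N ω = ∑ x : Q m, ind (M < (cl ω x).card) * N ω := by
        rw [← Finset.sum_mul, ← hN]
      rw [e1]
      refine Finset.sum_le_sum fun x _ => ?_
      by_cases hx : M < (cl ω x).card
      · rw [exlow_indt hx, one_mul, hN]
        exact exlow_count (fun y : Q m => M < (cl ω y).card) (cl ω x) (fun y hy => hU x y hx hy)
      · rw [exlow_indf hx, zero_mul]
        exact Nat.cast_nonneg _
    · rw [exlow_indt hU, mul_one]
      have h5 : N ω ^ 2 ≤ 4 ^ m := by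
        rw [h4, sq]
        exact mul_le_mul (hN1 ω) (hN1 ω) (hN0 ω) h2pos.le
      have h6 : (0 : ℝ) ≤ ∑ x : Q m, ((cl ω x).card : ℝ) :=
        Finset.sum_nonneg fun x _ => Nat.cast_nonneg _
      linarith
  have hC := Ex_mono (cubeE m) p h0 h1 _ _ (fun ω _ => hB ω)
  rw [Ex_sub, Ex_mul_left, hA] at hC
  have hD := Ex_sq_le (cubeE m) p h0 h1 N
  have hE : Ex (cubeE m) p (fun ω => |N ω|) = Ex (cubeE m) p N :=
    Ex_congr _ _ _ _ fun ω _ => abs_of_nonneg (hN0 ω)
  rw [hE] at hD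
  have hF : 2 ^ m * s ≤ Ex (cubeE m) p N := by
    have hN' : N = fun ω => ∑ x : Q m, ind (M < (cl ω x).card) := funext hN
    rw [hN', Ex_sum]
    have := Finset.card_nsmul_le_sum (Finset.univ : Finset (Q m))
      (fun x => Ex (cubeE m) p (fun ω => ind (M < (cl ω x).card))) s (fun x _ => hs x)
    rw [hcard, nsmul_eq_mul] at this
    push_cast at this
    exact this
  have hG : (2 ^ m * s) ^ 2 ≤ Ex (cubeE m) p (fun ω => N ω ^ 2) :=
    (pow_le_pow_left₀ (mul_nonneg h2pos.le hs0) hF 2).trans hD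
  have hH : (4 : ℝ) ^ m * Ex (cubeE m) p (fun ω => ind (¬ Uniq M ω)) ≤ 4 ^ m * u :=
    mul_le_mul_of_nonneg_left hu (by rw [h4]; exact mul_nonneg h2pos.le h2pos.le)
  have hI : (2 : ℝ) ^ m * (2 ^ m * (s ^ 2 - u)) ≤ 2 ^ m * μ := by
    have e1 : (2 : ℝ) ^ m * (2 ^ m * (s ^ 2 - u)) = (2 ^ m * s) ^ 2 - 4 ^ m * u := by
      rw [h4]; ring
    rw [e1]; linarith
  exact le_of_mul_le_mul_left hI h2pos

end Pool.Agent.Work.MP_b7dc8a_pr
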