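import Pool.Agent.Work.MP_b7dc8a_pr.Base
import Pool.Agent.Work.MP_b7dc8a_pr.Bin
import Pool.Agent.Work.MP_b7dc8a_pr.Clb

/-! Module SUBC (uses BIN, CLB)
SUBC: f(S,E) := Ex |cls w S| <= |S| + #{e in E leaving S} when every vertex has degree <= m in E and p m <= 1; same induction as TILT:
 p(|S|+1 + (b-1+m-1)) + (1-p)(|S|+b-1) <= |S|+b.  S={0}: 1+m.
-/

namespace Pool.Agent.Work.MP_b7dc8a_pr

open Finset Filter Topology

theorem subc_mem_bd {V : Type} [Fintype V] (E : Finset (Sym2 V)) (A : Finset V) (e : Sym2 V) :
    e ∈ bd E A ↔ e ∈ E ∧ ∃ x ∈ A, ∃ y, y ∉ A ∧ e = s(x, y) := by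
  simp only [bd, Finset.mem_filter]

theorem subc_aux {V : Type} [Fintype V] [DecidableEq V] (m : ℕ) (p : ℝ) (h0 : 0 ≤ p)
    (h1 : p * m ≤ 1) (hp1 : p ≤ 1) (n : ℕ) : ∀ (E : Finset (Sym2 V)) (S : Finset V), E.card = n →
    (∀ v, (E.filter (fun e => v ∈ e)).card ≤ m) →
    Ex E p (fun ω => ((cls ω S).card : ℝ)) ≤ S.card + (bd E S).card := by
  induction n with
  | zero =>
    intro E S hE _
    rw [Finset.card_eq_zero] at hE
    subst hE
    rw [Ex_empty, cls_eq_self ∅ S (fun x _ y h => absurd h (Finset.notMem_empty _))]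
    have : (0 : ℝ) ≤ (bd (∅ : Finset (Sym2 V)) S).card := Nat.cast_nonneg _
    linarith
  | succ n ih =>
    intro E S hE hdeg
    by_cases hb : (bd E S).Nonempty
    · obtain ⟨e, he⟩ := hb
      obtain ⟨heE, x, hx, y, hy, hexy⟩ := (subc_mem_bd E S e).1 he
      set E' := E.erase e with hE'
      have hcard : E'.card = n := by rw [hE', Finset.card_erase_of_mem heE, hE]; rfl
      have hne : e ∉ E' := Finset.notMem_erase e E
      have hins : insert e E' = E := Finset.insert_erase heE
      have hdeg' : ∀ v, (E'.filter (fun e => v ∈ e)).card ≤ m := fun v =>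
        (Finset.card_le_card (Finset.filter_subset_filter _ (Finset.erase_subset e E))).trans
          (hdeg v)
      have hExp : Ex E p (fun ω => ((cls ω S).card : ℝ)) =
          p * Ex E' p (fun ω => ((cls ω (insert y S)).card : ℝ)) +
            (1 - p) * Ex E' p (fun ω => ((cls ω S).card : ℝ)) := by
        conv_lhs => rw [← hins]
        rw [Ex_insert e E' hne]
        congr 2
        refine Ex_congr _ _ _ _ fun ω _ => ?_
        rw [hexy, cls_insert ω S x y hx]
      have i1 := ih E' (insert y S) hcard hdeg'
      have i2 := ih E' S hcard hdeg'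
      -- boundaries
      have hb2 : (bd E' S).card + 1 = (bd E S).card := by
        have : bd E' S = (bd E S).erase e := by
          ext f
          rw [subc_mem_bd, hE', Finset.mem_erase, Finset.mem_erase, subc_mem_bd, and_assoc]
        rw [this, Finset.card_erase_of_mem he]
        have : 0 < (bd E S).card := Finset.card_pos.2 ⟨e, he⟩
        omega
      have hym : (E'.filter (fun e => y ∈ e)).card + 1 ≤ m := by
        have h2 : e ∈ E.filter (fun e => y ∈ e) := by
          rw [Finset.mem_filter]
          exact ⟨heE, by rw [hexy]; exact Sym2.mem_mk_right x y⟩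
        have h3 : E'.filter (fun e => y ∈ e) = (E.filter (fun e => y ∈ e)).erase e := by
          ext f
          simp only [hE', Finset.mem_filter, Finset.mem_erase]
          tauto
        rw [h3, Finset.card_erase_of_mem h2]
        have h4 := hdeg y
        have : 0 < (E.filter (fun e => y ∈ e)).card := Finset.card_pos.2 ⟨e, h2⟩
        omega
      have hb1 : (bd E' (insert y S)).card ≤ (bd E' S).card + (m - 1) := by
        have hsub : bd E' (insert y S) ⊆ bd E' S ∪ E'.filter (fun e => y ∈ e) := by
          intro f hf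
          obtain ⟨hfE, a, ha, b, hb, hfab⟩ := (subc_mem_bd _ _ _).1 hf
          rw [Finset.mem_union]
          rcases Finset.mem_insert.1 ha with h5 | h5
          · right
            rw [Finset.mem_filter]
            exact ⟨hfE, by rw [hfab, h5]; exact Sym2.mem_mk_left y b⟩
          · left
            rw [subc_mem_bd]
            exact ⟨hfE, a, h5, b, fun hc => hb (Finset.mem_insert_of_mem hc), hfab⟩
        refine (Finset.card_le_card hsub).trans ((Finset.card_union_le _ _).trans ?_)
        omega
      have hyS : ((insert y S).card : ℝ) = S.card + 1 := by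
        rw [Finset.card_insert_of_notMem hy]
        push_cast
        ring
      have hm1 : 1 ≤ m := by omega
      have hb1' : ((bd E' (insert y S)).card : ℝ) ≤ (bd E' S).card + (m - 1) := by
        have : ((bd E' (insert y S)).card : ℝ) ≤ ((bd E' S).card + (m - 1) : ℕ) := by
          exact_mod_cast hb1
        rw [Nat.cast_add, Nat.cast_sub hm1, Nat.cast_one] at this
        exact this
      have hb2' : ((bd E' S).card : ℝ) + 1 = (bd E S).card := by exact_mod_cast hb2
      rw [hExp]
      rw [hyS] at i1
      have j1 := mul_le_mul_of_nonneg_left (i1.trans (add_le_add_right hb1' _)) h0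
      have j2 := mul_le_mul_of_nonneg_left i2 (by linarith : 0 ≤ 1 - p)
      nlinarith
    · have hno : ∀ ω ⊆ E, cls ω S = S := by
        intro ω hω
        refine cls_eq_self ω S (fun x hx y hxy => ?_)
        by_contra hy
        exact hb ⟨s(x, y), (subc_mem_bd _ _ _).2 ⟨hω hxy, x, hx, y, hy, rfl⟩⟩
      have : Ex E p (fun ω => ((cls ω S).card : ℝ)) = S.card := by
        rw [← Ex_const E p (S.card : ℝ)]
        exact Ex_congr _ _ _ _ fun ω hω => by rw [hno ω hω]
      rw [this]
      have : (0 : ℝ) ≤ (bd E S).card := Nat.cast_nonneg _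
      linarith

theorem subc_deg (m : ℕ) (v : Q m) : ((cubeE m).filter (fun e => v ∈ e)).card ≤ m := by
  have hsub : (cubeE m).filter (fun e => v ∈ e) ⊆
      (univ : Finset (Fin m)).image (fun i => s(v, Function.update v i (!v i))) := by
    intro e he
    rw [Finset.mem_filter] at he
    obtain ⟨he, hv⟩ := he
    obtain ⟨y, rfl⟩ := Sym2.mem_iff_exists.1 hv
    unfold cubeE at he
    rw [SimpleGraph.mem_edgeFinset, SimpleGraph.mem_edgeSet] at he
    have h1 : hammingDist v y = 1 := he
    unfold hammingDist at h1
    rw [Finset.card_eq_one] at h1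
    obtain ⟨i, hi⟩ := h1
    rw [Finset.mem_image]
    refine ⟨i, Finset.mem_univ _, ?_⟩
    congr 1
    funext j
    by_cases hj : j = i
    · subst hj
      rw [Function.update_self]
      have : j ∈ univ.filter (fun i => v i ≠ y i) := by rw [hi]; exact Finset.mem_singleton_self _
      rw [Finset.mem_filter] at this
      have h2 := this.2
      revert h2
      cases v j <;> cases y j <;> simp
    · rw [Function.update_of_ne hj]
      by_contra hne
      have : j ∈ univ.filter (fun i => v i ≠ y i) := by
        rw [Finset.mem_filter]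
        exact ⟨Finset.mem_univ _, hne⟩
      rw [hi, Finset.mem_singleton] at this
      exact hj this
  refine (Finset.card_le_card hsub).trans (Finset.card_image_le.trans ?_)
  simp

theorem subcrit (m : ℕ) (hm : 1 ≤ m) (p : ℝ) (h0 : 0 ≤ p) (h1 : p * m ≤ 1) (o : Q m) :
    Ex (cubeE m) p (fun ω => ((cl ω o).card : ℝ)) ≤ m + 1 := by
  have hm' : (1 : ℝ) ≤ m := by exact_mod_cast hm
  have hp1 : p ≤ 1 := by nlinarith
  have h2 := subc_aux m p h0 h1 hp1 _ (cubeE m) {o} rfl (subc_deg m)
  have h3 : (bd (cubeE m) {o}).card ≤ m := by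
    refine le_trans (Finset.card_le_card ?_) (subc_deg m o)
    intro e he
    obtain ⟨heE, x, hx, y, -, hexy⟩ := (subc_mem_bd _ _ _).1 he
    rw [Finset.mem_singleton] at hx
    rw [Finset.mem_filter]
    exact ⟨heE, by rw [hexy, hx]; exact Sym2.mem_mk_left o y⟩
  have h4 : ((bd (cubeE m) {o}).card : ℝ) ≤ m := by exact_mod_cast h3
  simp only [cls_singleton, Finset.card_singleton, Nat.cast_one] at h2
  linarith

end Pool.Agent.Work.MP_b7dc8a_pr
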