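import Pool.Agent.Work.MP_b7dc8a_pr.Base

/-! Module ISO
ISO: number of internal (ordered) edges of A is <= |A| log2|A|: induction on the set of directions, A = A0 + A1,
 x log x + y log y + 2 min(x,y) log 2 <= (x+y) log(x+y) [ln(1+s) >= s ln 2 on [0,1]]. Then m|A| = internal + boundary.
-/

namespace Pool.Agent.Work.MP_b7dc8a_pr

open Finset Filter Topology

/-- flip one coordinate -/
def iso_f {m : ℕ} (i : Fin m) (x : Q m) : Q m := Function.update x i (!x i)

theorem iso_f_same {m : ℕ} (i : Fin m) (x : Q m) : iso_f i x i = !x i := by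
  simp [iso_f]

theorem iso_f_ne {m : ℕ} (i j : Fin m) (x : Q m) (h : j ≠ i) : iso_f i x j = x j := by
  simp [iso_f, h]

theorem iso_f_f {m : ℕ} (i : Fin m) (x : Q m) : iso_f i (iso_f i x) = x := by
  funext j
  by_cases h : j = i
  · subst h; simp [iso_f]
  · simp [iso_f, h]

theorem iso_f_inj {m : ℕ} (i j : Fin m) (x : Q m) (h : iso_f i x = iso_f j x) : i = j := by
  by_contra hne
  have h1 := congrFun h i
  rw [iso_f_same, iso_f_ne j i x hne] at h1
  cases hx : x i <;> simp [hx] at h1

theorem iso_hamming {m : ℕ} (i : Fin m) (x : Q m) : hammingDist x (iso_f i x) = 1 := by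
  unfold hammingDist
  have : (univ.filter fun j => x j ≠ iso_f i x j) = {i} := by
    ext j
    simp only [Finset.mem_filter, Finset.mem_univ, true_and, Finset.mem_singleton]
    constructor
    · intro h
      by_contra hne
      exact h (iso_f_ne i j x hne).symm
    · intro h
      subst h
      rw [iso_f_same]
      cases x j <;> simp
  rw [this, Finset.card_singleton]

theorem iso_log (s : ℝ) (h0 : 0 ≤ s) (h1 : s ≤ 1) : s * Real.log 2 ≤ Real.log (1 + s) := by
  have h := strictConcaveOn_log_Ioi.concaveOn.2 (show (1 : ℝ) ∈ Set.Ioi 0 by simp)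
    (show (2 : ℝ) ∈ Set.Ioi 0 by simp) (show 0 ≤ 1 - s by linarith) h0 (by ring)
  simp only [smul_eq_mul, Real.log_one, mul_zero, zero_add] at h
  have e : (1 - s) * 1 + s * 2 = 1 + s := by ring
  rw [e] at h
  exact h

theorem iso_real (x y : ℝ) (hx : 0 < x) (hxy : x ≤ y) :
    x * Real.log x + y * Real.log y + 2 * x * Real.log 2 ≤ (x + y) * Real.log (x + y) := by
  have hy : 0 < y := lt_of_lt_of_le hx hxy
  have h1 : Real.log (x + y) = Real.log y + Real.log (1 + x / y) := by
    rw [← Real.log_mul hy.ne' (by positivity)]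
    congr 1
    field_simp
    ring
  have h2 : x / y * Real.log 2 ≤ Real.log (1 + x / y) :=
    iso_log _ (by positivity) ((div_le_one hy).mpr hxy)
  have h3 : Real.log (2 * x) ≤ Real.log (x + y) := Real.log_le_log (by positivity) (by linarith)
  rw [Real.log_mul (by norm_num) hx.ne'] at h3
  have h4 : x * (Real.log 2 + Real.log x) ≤ x * Real.log (x + y) :=
    mul_le_mul_of_nonneg_left h3 hx.le
  have h5 : y * (x / y * Real.log 2) ≤ y * Real.log (1 + x / y) :=
    mul_le_mul_of_nonneg_left h2 hy.le
  have h6 : y * (x / y * Real.log 2) = x * Real.log 2 := by field_simp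
  have h7 : y * Real.log (x + y) = y * Real.log y + y * Real.log (1 + x / y) := by
    rw [h1]; ring
  nlinarith [h4, h5, h6, h7]

theorem iso_nat (x y : ℕ) :
    (x : ℝ) * Real.log x + y * Real.log y + 2 * (min x y : ℕ) * Real.log 2
      ≤ ((x + y : ℕ) : ℝ) * Real.log ((x + y : ℕ) : ℝ) := by
  rcases Nat.eq_zero_or_pos x with hx | hx
  · subst hx; simp
  rcases Nat.eq_zero_or_pos y with hy | hy
  · subst hy; simp
  have hx' : (0 : ℝ) < x := by exact_mod_cast hx
  have hy' : (0 : ℝ) < y := by exact_mod_cast hy
  push_cast
  rcases le_total x y with h | h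
  · have h' : (x : ℝ) ≤ y := by exact_mod_cast h
    rw [min_eq_left h']
    exact iso_real x y hx' h'
  · have h' : (y : ℝ) ≤ x := by exact_mod_cast h
    rw [min_eq_right h']
    have := iso_real y x hy' h'
    rw [add_comm (y : ℝ) (x : ℝ)] at this
    linarith

/-- number of internal ordered pairs with direction in `T` -/
def iso_in {m : ℕ} (T : Finset (Fin m)) (A : Finset (Q m)) : ℕ :=
  ∑ i ∈ T, (A.filter fun x => iso_f i x ∈ A).card

/-- number of boundary pairs with direction in `T` -/
def iso_out {m : ℕ} (T : Finset (Fin m)) (A : Finset (Q m)) : ℕ :=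
  ∑ i ∈ T, (A.filter fun x => iso_f i x ∉ A).card

theorem iso_in_add_out {m : ℕ} (T : Finset (Fin m)) (A : Finset (Q m)) :
    iso_in T A + iso_out T A = T.card * A.card := by
  unfold iso_in iso_out
  rw [← Finset.sum_add_distrib]
  rw [Finset.sum_congr rfl (fun i _ => Finset.card_filter_add_card_filter_not (s := A)
    (fun x => iso_f i x ∈ A))]
  simp

theorem iso_in_le {m : ℕ} (T : Finset (Fin m)) : ∀ A : Finset (Q m),
    (iso_in T A : ℝ) * Real.log 2 ≤ (A.card : ℝ) * Real.log (A.card : ℝ) := by
  induction T using Finset.induction_on with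
  | empty =>
    intro A
    simp only [iso_in, Finset.sum_empty, Nat.cast_zero, zero_mul]
    exact mul_nonneg (Nat.cast_nonneg _) (Real.log_natCast_nonneg _)
  | insert i T hi ih =>
    intro A
    set A0 := A.filter fun x => x i = false with hA0
    set A1 := A.filter fun x => ¬ x i = false with hA1
    have hcard : A0.card + A1.card = A.card :=
      Finset.card_filter_add_card_filter_not (s := A) (fun x => x i = false)
    -- splitting of the sum over T
    have hsplit : iso_in T A = iso_in T A0 + iso_in T A1 := by
      unfold iso_in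
      rw [← Finset.sum_add_distrib]
      apply Finset.sum_congr rfl
      intro j hj
      have hji : i ≠ j := fun h => hi (h ▸ hj)
      rw [← Finset.card_filter_add_card_filter_not (s := A.filter fun x => iso_f j x ∈ A)
        (fun x => x i = false)]
      congr 2
      · ext x
        simp only [hA0, Finset.mem_filter, iso_f_ne j i x hji]
        tauto
      · ext x
        simp only [hA1, Finset.mem_filter, iso_f_ne j i x hji]
        tauto
    -- the new direction
    have hnew : (A.filter fun x => iso_f i x ∈ A).card ≤ 2 * min A0.card A1.card := by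
      rw [← Finset.card_filter_add_card_filter_not (s := A.filter fun x => iso_f i x ∈ A)
        (fun x => x i = false)]
      have e0 : (((A.filter fun x => iso_f i x ∈ A).filter fun x => x i = false)).card
          ≤ A0.card := by
        apply Finset.card_le_card
        intro x hx
        simp only [Finset.mem_filter] at hx
        simp only [hA0, Finset.mem_filter]
        exact ⟨hx.1.1, hx.2⟩
      have e0' : (((A.filter fun x => iso_f i x ∈ A).filter fun x => x i = false)).card
          ≤ A1.card := by
        apply Finset.card_le_card_of_injOn (fun x => iso_f i x)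
        · intro x hx
          simp only [Finset.coe_filter, Finset.mem_filter, Set.mem_ofPred_eq] at hx
          simp only [hA1, Finset.coe_filter, Set.mem_ofPred_eq]
          refine ⟨hx.1.2, ?_⟩
          rw [iso_f_same, hx.2]; simp
        · intro x _ y _ hxy
          have := congrArg (iso_f i) hxy
          simpa [iso_f_f] using this
      have e1 : (((A.filter fun x => iso_f i x ∈ A).filter fun x => ¬ x i = false)).card
          ≤ A1.card := by
        apply Finset.card_le_card
        intro x hx
        simp only [Finset.mem_filter] at hx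
        simp only [hA1, Finset.mem_filter]
        exact ⟨hx.1.1, hx.2⟩
      have e1' : (((A.filter fun x => iso_f i x ∈ A).filter fun x => ¬ x i = false)).card
          ≤ A0.card := by
        apply Finset.card_le_card_of_injOn (fun x => iso_f i x)
        · intro x hx
          simp only [Finset.coe_filter, Finset.mem_filter, Set.mem_ofPred_eq] at hx
          simp only [hA0, Finset.coe_filter, Set.mem_ofPred_eq]
          refine ⟨hx.1.2, ?_⟩
          rw [iso_f_same]
          cases hxi : x i
          · exact absurd hxi hx.2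
          · rfl
        · intro x _ y _ hxy
          have := congrArg (iso_f i) hxy
          simpa [iso_f_f] using this
      have := le_min e0 e0'
      have := le_min e1' e1
      omega
    have hins : iso_in (insert i T) A = (A.filter fun x => iso_f i x ∈ A).card + iso_in T A := by
      unfold iso_in
      rw [Finset.sum_insert hi]
    rw [hins, hsplit, ← hcard]
    have h0 := ih A0
    have h1 := ih A1
    have h2 := iso_nat A0.card A1.card
    have hlog : 0 ≤ Real.log 2 := Real.log_nonneg (by norm_num)
    have hnew' : ((A.filter fun x => iso_f i x ∈ A).card : ℝ) * Real.log 2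
        ≤ 2 * (min A0.card A1.card : ℕ) * Real.log 2 := by
      apply mul_le_mul_of_nonneg_right _ hlog
      exact_mod_cast hnew
    push_cast at *
    nlinarith

/-- the general isoperimetric inequality for a set of directions -/
theorem iso_out_ge {m : ℕ} (L : ℕ) (T : Finset (Fin m)) (hLT : L ≤ T.card) (A : Finset (Q m))
    (hL : A.card ≤ 2 ^ L) : A.card * (T.card - L) ≤ iso_out T A := by
  have h1 := iso_in_add_out T A
  have h2 := iso_in_le T A
  have hlog : 0 < Real.log 2 := Real.log_pos (by norm_num)
  have h3 : (A.card : ℝ) * Real.log (A.card : ℝ) ≤ A.card * (L * Real.log 2) := by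
    rcases Nat.eq_zero_or_pos A.card with h | h
    · rw [h]; simp
    · apply mul_le_mul_of_nonneg_left _ (Nat.cast_nonneg _)
      rw [← Real.log_pow]
      apply Real.log_le_log (by exact_mod_cast h)
      exact_mod_cast hL
  have h4 : (iso_in T A : ℝ) ≤ A.card * L := by
    have : (iso_in T A : ℝ) * Real.log 2 ≤ (A.card * L) * Real.log 2 := by linarith
    exact le_of_mul_le_mul_right this hlog
  have h5 : iso_in T A ≤ A.card * L := by exact_mod_cast h4
  obtain ⟨d, hd⟩ := Nat.exists_eq_add_of_le hLT
  rw [hd] at h1 ⊢
  rw [Nat.add_sub_cancel_left]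
  nlinarith

theorem iso_mem_bd {V : Type} (E : Finset (Sym2 V)) (A : Finset V) (e : Sym2 V) :
    e ∈ bd E A ↔ e ∈ E ∧ ∃ x ∈ A, ∃ y, y ∉ A ∧ e = s(x, y) := by
  unfold bd
  simp only [Finset.mem_filter]

/-- boundary pairs give boundary edges -/
theorem iso_out_le_bd {m : ℕ} (T : Finset (Fin m)) (A : Finset (Q m)) (E : Finset (Sym2 (Q m)))
    (hE : ∀ x ∈ A, ∀ i ∈ T, s(x, iso_f i x) ∈ E) : iso_out T A ≤ (bd E A).card := by
  have h : iso_out T A = (T.sigma fun i => A.filter fun x => iso_f i x ∉ A).card := by
    rw [Finset.card_sigma]; rfl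
  rw [h]
  apply Finset.card_le_card_of_injOn (fun p => s(p.2, iso_f p.1 p.2))
  · rintro ⟨i, x⟩ hp
    rw [Finset.mem_coe, Finset.mem_sigma, Finset.mem_filter] at hp
    obtain ⟨hi, hx, hxi⟩ := hp
    rw [Finset.mem_coe]
    rw [iso_mem_bd]
    exact ⟨hE x hx i hi, x, hx, iso_f i x, hxi, rfl⟩
  · rintro ⟨i, x⟩ hp ⟨j, y⟩ hq hpq
    rw [Finset.mem_coe, Finset.mem_sigma, Finset.mem_filter] at hp hq
    simp only at hp hq hpq
    rw [Sym2.eq_iff] at hpq
    rcases hpq with ⟨hxy, hf⟩ | ⟨hxy, hf⟩
    · subst hxy
      have := iso_f_inj i j x hf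
      subst this; rfl
    · exact absurd hp.2.1 (hxy ▸ hq.2.2)

theorem iso_mem_cubeE {m : ℕ} (i : Fin m) (x : Q m) : s(x, iso_f i x) ∈ cubeE m := by
  unfold cubeE
  rw [SimpleGraph.mem_edgeFinset, SimpleGraph.mem_edgeSet]
  exact iso_hamming i x

theorem iso (m L : ℕ) (hLm : L ≤ m) (A : Finset (Q m)) (hL : A.card ≤ 2 ^ L) :
    A.card * (m - L) ≤ (bd (cubeE m) A).card := by
  have h1 := iso_out_ge L (Finset.univ : Finset (Fin m)) (by simpa using hLm) A hL
  have h2 := iso_out_le_bd (Finset.univ : Finset (Fin m)) A (cubeE m)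
    (fun x _ i _ => iso_mem_cubeE i x)
  simp only [Finset.card_univ, Fintype.card_fin] at h1
  exact h1.trans h2

end Pool.Agent.Work.MP_b7dc8a_pr
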