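import Pool.Agent.Work.MP_b7dc8a_pr.Base
import Pool.Agent.Work.MP_b7dc8a_pr.Bin
import Pool.Agent.Work.MP_b7dc8a_pr.Clb

/-! Module TILT (uses BIN, CLB)
TILT (tilt): induction on |E| (generalize S). If some e = s(x,y) in E with x in S, y notin S: Ex_insert; open part: cls (insert e w) S
 = cls w (insert y S), e does not count in the boundary: factor a; closed part: boundary of cls in E is <= 1 + boundary in E\e:
 factor b (b>=1). Total <= p a + (1-p) b = 1. If no such edge: cls w S = S for w in E and bd E S empty (edges s(x,y), x in S, y notin S).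
 small_prob: a := p'/p, b := (1-p')/(1-p), p' = 1/m'. P(|cl|=k) a^(k-1) b^(k m') <= 1, so
 P <= (1+a)^k exp(-a k) <= exp(-k a^2/6) (k=0: P=0). surv: p' = (1-a/2)/m': sum_k P(|cl|=k) a^(k-1) b^(k m') <= 1 and
 a b^m' >= 1 [ln(1+a) - ln(1-a/2) <= 3a/2], so P(|cl|<=K) <= p'/p, 1-p'/p = (3a/2)/(1+a) >= 3a/4.  (A = cl w o: A in cl E o.)
-/

namespace Pool.Agent.Work.MP_b7dc8a_pr

open Finset Filter Topology

theorem tilt_mem_bd {V : Type} [Fintype V] (E : Finset (Sym2 V)) (A : Finset V) (e : Sym2 V) :
    e ∈ bd E A ↔ e ∈ E ∧ ∃ x ∈ A, ∃ y, y ∉ A ∧ e = s(x, y) := by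
  simp only [bd, Finset.mem_filter]

theorem tilt_bd_insert_le {V : Type} [Fintype V] [DecidableEq V] (e : Sym2 V)
    (E : Finset (Sym2 V)) (A : Finset V) : (bd (insert e E) A).card ≤ (bd E A).card + 1 := by
  classical
  have h : bd (insert e E) A ⊆ insert e (bd E A) := by
    intro f hf
    rw [tilt_mem_bd] at hf
    rw [Finset.mem_insert, tilt_mem_bd]
    rcases Finset.mem_insert.mp hf.1 with h1 | h1
    · exact Or.inl h1
    · exact Or.inr ⟨h1, hf.2⟩
  exact (Finset.card_le_card h).trans (Finset.card_insert_le _ _)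

theorem tilt_bd_insert_eq {V : Type} [Fintype V] [DecidableEq V] (x y : V)
    (E : Finset (Sym2 V)) (A : Finset V) (hx : x ∈ A) (hy : y ∈ A) :
    bd (insert s(x, y) E) A = bd E A := by
  classical
  ext f
  rw [tilt_mem_bd, tilt_mem_bd, Finset.mem_insert]
  constructor
  · rintro ⟨h1 | h1, h2⟩
    · exfalso
      obtain ⟨u, hu, w, hw, huw⟩ := h2
      rw [h1, Sym2.eq_iff] at huw
      rcases huw with ⟨_, h4⟩ | ⟨h3, _⟩
      · exact hw (h4 ▸ hy)
      · exact hw (h3 ▸ hx)
    · exact ⟨h1, h2⟩
  · rintro ⟨h1, h2⟩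
    exact ⟨Or.inr h1, h2⟩

theorem tilt_aux {V : Type} [Fintype V] [DecidableEq V] (p a b : ℝ) (hp0 : 0 ≤ p) (hp1 : p ≤ 1)
    (ha : 0 ≤ a) (hb : 1 ≤ b) (hab : p * a + (1 - p) * b = 1) (n : ℕ) :
    ∀ (E : Finset (Sym2 V)) (S : Finset V), E.card = n →
    Ex E p (fun ω => a ^ ((cls ω S).card - S.card) * b ^ (bd E (cls ω S)).card) ≤ 1 := by
  induction n with
  | zero =>
    intro E S hE
    rw [Finset.card_eq_zero] at hE
    subst hE
    rw [Ex_empty]
    have h1 : cls (∅ : Finset (Sym2 V)) S = S :=
      cls_eq_self ∅ S (fun x _ y h => absurd h (Finset.notMem_empty _))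
    have h2 : bd (∅ : Finset (Sym2 V)) S = ∅ := by
      rw [Finset.eq_empty_iff_forall_notMem]
      intro e he
      rw [tilt_mem_bd] at he
      exact Finset.notMem_empty _ he.1
    rw [h1, h2]
    simp
  | succ n ih =>
    intro E S hE
    by_cases hex : ∃ x ∈ S, ∃ y, y ∉ S ∧ s(x, y) ∈ E
    · obtain ⟨x, hx, y, hy, he⟩ := hex
      set E' := E.erase s(x, y) with hE'
      have hins : insert s(x, y) E' = E := Finset.insert_erase he
      have hnot : s(x, y) ∉ E' := Finset.notMem_erase _ _
      have hcard : E'.card = n := by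
        rw [hE', Finset.card_erase_of_mem he, hE]
        rfl
      rw [← hins, Ex_insert s(x, y) E' hnot]
      have hopen : Ex E' p (fun ω => a ^ ((cls (insert s(x, y) ω) S).card - S.card) *
          b ^ (bd (insert s(x, y) E') (cls (insert s(x, y) ω) S)).card) ≤ a := by
        have h1 : Ex E' p (fun ω => a ^ ((cls (insert s(x, y) ω) S).card - S.card) *
          b ^ (bd (insert s(x, y) E') (cls (insert s(x, y) ω) S)).card) =
          a * Ex E' p (fun ω => a ^ ((cls ω (insert y S)).card - (insert y S).card) *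
            b ^ (bd E' (cls ω (insert y S))).card) := by
          rw [← Ex_mul_left]
          apply Ex_congr
          intro ω _
          rw [cls_insert ω S x y hx]
          have h2 := subset_cls ω (insert y S)
          rw [tilt_bd_insert_eq x y E' _ (h2 (Finset.mem_insert_of_mem hx))
            (h2 (Finset.mem_insert_self _ _))]
          have h3 := Finset.card_le_card h2
          have h4 : (insert y S).card = S.card + 1 := Finset.card_insert_of_notMem hy
          have h5 : (cls ω (insert y S)).card - S.card =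
              ((cls ω (insert y S)).card - (insert y S).card) + 1 := by omega
          rw [h5, pow_succ]
          ring
        rw [h1]
        have h2 := ih E' (insert y S) hcard
        calc a * _ ≤ a * 1 := mul_le_mul_of_nonneg_left h2 ha
          _ = a := mul_one a
      have hclosed : Ex E' p (fun ω => a ^ ((cls ω S).card - S.card) *
          b ^ (bd (insert s(x, y) E') (cls ω S)).card) ≤ b := by
        have h1 : Ex E' p (fun ω => a ^ ((cls ω S).card - S.card) *
          b ^ (bd (insert s(x, y) E') (cls ω S)).card) ≤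
          Ex E' p (fun ω => b * (a ^ ((cls ω S).card - S.card) *
            b ^ (bd E' (cls ω S)).card)) := by
          apply Ex_mono E' p hp0 hp1
          intro ω _
          have h2 : b ^ (bd (insert s(x, y) E') (cls ω S)).card ≤
              b ^ ((bd E' (cls ω S)).card + 1) :=
            pow_le_pow_right₀ hb (tilt_bd_insert_le _ _ _)
          calc a ^ ((cls ω S).card - S.card) * b ^ (bd (insert s(x, y) E') (cls ω S)).card
              ≤ a ^ ((cls ω S).card - S.card) * b ^ ((bd E' (cls ω S)).card + 1) :=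
                mul_le_mul_of_nonneg_left h2 (by positivity)
            _ = b * (a ^ ((cls ω S).card - S.card) * b ^ (bd E' (cls ω S)).card) := by
                rw [pow_succ]; ring
        refine h1.trans ?_
        rw [Ex_mul_left]
        calc b * _ ≤ b * 1 := mul_le_mul_of_nonneg_left (ih E' S hcard) (by linarith)
          _ = b := mul_one b
      have h1 := mul_le_mul_of_nonneg_left hopen hp0
      have h2 := mul_le_mul_of_nonneg_left hclosed (by linarith : 0 ≤ 1 - p)
      calc p * Ex E' p (fun ω => a ^ ((cls (insert s(x, y) ω) S).card - S.card) *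
          b ^ (bd (insert s(x, y) E') (cls (insert s(x, y) ω) S)).card) +
          (1 - p) * Ex E' p (fun ω => a ^ ((cls ω S).card - S.card) *
          b ^ (bd (insert s(x, y) E') (cls ω S)).card) ≤ p * a + (1 - p) * b := add_le_add h1 h2
        _ = 1 := hab
    · push Not at hex
      have h1 : Ex E p (fun ω => a ^ ((cls ω S).card - S.card) * b ^ (bd E (cls ω S)).card) =
          Ex E p (fun _ => 1) := by
        apply Ex_congr
        intro ω hω
        have h2 : cls ω S = S := by
          apply cls_eq_self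
          intro x hx y hxy
          by_contra hy
          exact hex x hx y hy (hω hxy)
        have h3 : bd E S = ∅ := by
          rw [Finset.eq_empty_iff_forall_notMem]
          intro e he
          rw [tilt_mem_bd] at he
          obtain ⟨he, x, hx, y, hy, rfl⟩ := he
          exact hex x hx y hy he
        rw [h2, h3]
        simp
      rw [h1, Ex_const]

theorem tilt {V : Type} [Fintype V] [DecidableEq V] (E : Finset (Sym2 V)) (S : Finset V)
    (p a b : ℝ) (hp0 : 0 ≤ p) (hp1 : p ≤ 1) (ha : 0 ≤ a) (hb : 1 ≤ b)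
    (hab : p * a + (1 - p) * b = 1) :
    Ex E p (fun ω => a ^ ((cls ω S).card - S.card) * b ^ (bd E (cls ω S)).card) ≤ 1 :=
  tilt_aux p a b hp0 hp1 ha hb hab E.card E S rfl

theorem tilt_one {V : Type} [Fintype V] [DecidableEq V] (E : Finset (Sym2 V)) (o : V)
    (p a b : ℝ) (hp0 : 0 ≤ p) (hp1 : p ≤ 1) (ha : 0 ≤ a) (hb : 1 ≤ b)
    (hab : p * a + (1 - p) * b = 1) :
    Ex E p (fun ω => a ^ ((cl ω o).card - 1) * b ^ (bd E (cl ω o)).card) ≤ 1 := by
  have h := tilt E {o} p a b hp0 hp1 ha hb hab
  simpa only [cls_singleton, Finset.card_singleton] using h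

theorem tilt_exp1 (a : ℝ) (ha : 0 < a) (ha1 : a ≤ 1 / 2) :
    (1 + a) * Real.exp (-a) ≤ Real.exp (-(a ^ 2 / 6)) := by
  have h1 : 1 + a ≤ Real.exp (a - a ^ 2 / 6) := by
    have h2 := Real.quadratic_le_exp_of_nonneg (x := a - a ^ 2 / 6) (by nlinarith)
    refine le_trans ?_ h2
    nlinarith [mul_pos ha ha, mul_pos (mul_pos ha ha) ha, mul_pos (mul_pos (mul_pos ha ha) ha) ha]
  calc (1 + a) * Real.exp (-a) ≤ Real.exp (a - a ^ 2 / 6) * Real.exp (-a) :=
        mul_le_mul_of_nonneg_right h1 (Real.exp_pos _).le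
    _ = Real.exp (-(a ^ 2 / 6)) := by
        rw [← Real.exp_add]
        congr 1
        ring

theorem tilt_exp2 (a : ℝ) (ha : 0 < a) (ha1 : a ≤ 1 / 2) :
    1 + a ≤ (1 - a / 2) * Real.exp (3 * a / 2) := by
  have h2 := Real.quadratic_le_exp_of_nonneg (x := 3 * a / 2) (by positivity)
  have h3 : (1 - a / 2) * (1 + 3 * a / 2 + (3 * a / 2) ^ 2 / 2) ≤
      (1 - a / 2) * Real.exp (3 * a / 2) := mul_le_mul_of_nonneg_left h2 (by linarith)
  refine le_trans ?_ h3
  nlinarith [mul_pos ha ha, mul_pos (mul_pos ha ha) ha]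

/-- common part: the comparison of two parameters -/
theorem tilt_b (p p' : ℝ) (hp' : 0 ≤ p') (hpp : p' ≤ p) (hp1 : p < 1) :
    Real.exp (p - p') ≤ (1 - p') / (1 - p) := by
  have h1 : 0 < 1 - p := by linarith
  have h2 : 0 < 1 - p' := by linarith
  rw [le_div_iff₀ h1]
  have h3 : 1 - p ≤ (1 - p') * Real.exp (-(p - p')) := by
    have h4 := Real.add_one_le_exp (-(p - p'))
    have h5 : (1 - p') * (-(p - p') + 1) ≤ (1 - p') * Real.exp (-(p - p')) :=
      mul_le_mul_of_nonneg_left h4 h2.le
    refine le_trans ?_ h5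
    nlinarith
  calc Real.exp (p - p') * (1 - p) ≤ Real.exp (p - p') * ((1 - p') * Real.exp (-(p - p'))) :=
        mul_le_mul_of_nonneg_left h3 (Real.exp_pos _).le
    _ = (1 - p') * (Real.exp (p - p') * Real.exp (-(p - p'))) := by ring
    _ = 1 - p' := by
        rw [← Real.exp_add]
        simp

theorem tilt_ind_le {P : Prop} {x : ℝ} (hx : 0 ≤ x) (h : P → 1 ≤ x) : ind P ≤ x := by
  classical
  unfold ind
  by_cases hP : P
  · rw [if_pos hP]; exact h hP
  · rw [if_neg hP]; exact hx

theorem small_prob {V : Type} [Fintype V] [DecidableEq V] (E : Finset (Sym2 V)) (o : V)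
    (k m' : ℕ) (hm' : 2 ≤ m') (a p : ℝ) (ha : 0 < a) (ha1 : a ≤ 1 / 2) (hp : p * m' = 1 + a)
    (hbd : ∀ A : Finset V, o ∈ A → A ⊆ cl E o → A.card = k → k * m' ≤ (bd E A).card) :
    Ex E p (fun ω => ind ((cl ω o).card = k)) ≤ Real.exp (-(k * a ^ 2 / 6)) := by
  have hm0 : (0 : ℝ) < m' := by
    have : 0 < m' := by omega
    exact_mod_cast this
  have hm2 : (2 : ℝ) ≤ m' := by exact_mod_cast hm'
  have hpeq : p = (1 + a) / m' := by
    rw [eq_div_iff hm0.ne']; exact hp
  set p' : ℝ := 1 / m' with hp'
  have hp'0 : 0 ≤ p' := by positivity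
  have hpp : p' ≤ p := by
    rw [hpeq, hp']
    apply div_le_div_of_nonneg_right _ hm0.le
    linarith
  have hp0 : 0 < p := by
    rw [hpeq]; positivity
  have hp1 : p < 1 := by
    rw [hpeq, div_lt_one hm0]
    linarith
  set A : ℝ := p' / p with hA
  set B : ℝ := (1 - p') / (1 - p) with hB
  have h1p : 0 < 1 - p := by linarith
  have hA0 : 0 < A := by positivity
  have hAeq : A = 1 / (1 + a) := by
    rw [hA, hp', hpeq]
    field_simp
  have hBexp : Real.exp (a / m') ≤ B := by
    have h := tilt_b p p' hp'0 hpp hp1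
    have e : p - p' = a / m' := by
      rw [hpeq, hp']; ring
    rwa [e] at h
  have hB1 : 1 ≤ B := by
    refine le_trans ?_ hBexp
    exact Real.one_le_exp (by positivity)
  have hAB : p * A + (1 - p) * B = 1 := by
    rw [hA, hB, mul_div_cancel₀ _ hp0.ne', mul_div_cancel₀ _ h1p.ne']
    ring
  have ht := tilt_one E o p A B hp0.le hp1.le hA0.le hB1 hAB
  rcases Nat.eq_zero_or_pos k with hk | hk
  · subst hk
    simp only [Nat.cast_zero, zero_mul, zero_div, neg_zero, Real.exp_zero]
    have h1 := Ex_mono E p hp0.le hp1.le (fun ω => ind ((cl ω o).card = 0)) (fun _ => 1)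
      (fun ω _ => tilt_ind_le zero_le_one (fun _ => le_refl _))
    rwa [Ex_const] at h1
  · -- main case
    set w : ℝ := A ^ (k - 1) * B ^ (k * m') with hw
    have hw0 : 0 < w := by positivity
    have h1 : w * Ex E p (fun ω => ind ((cl ω o).card = k)) ≤ 1 := by
      rw [← Ex_mul_left]
      refine le_trans ?_ ht
      apply Ex_mono E p hp0.le hp1.le
      intro ω hω
      have hpos : 0 ≤ A ^ ((cl ω o).card - 1) * B ^ (bd E (cl ω o)).card := by positivity
      classical
      unfold ind
      split_ifs with hc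
      · rw [mul_one, hc]
        have h2 := hbd (cl ω o) (mem_cl_self ω o) (cl_mono ω E hω o) hc
        exact mul_le_mul_of_nonneg_left (pow_le_pow_right₀ hB1 h2) (by positivity)
      · rw [mul_zero]; exact hpos
    have h2 : Real.exp (k * a ^ 2 / 6) ≤ w := by
      have h3 : Real.exp (a * k) ≤ B ^ (k * m') := by
        have h4 : Real.exp (a * k) = (Real.exp (a / m')) ^ (k * m') := by
          rw [← Real.exp_nat_mul]
          congr 1
          push_cast
          field_simp
        rw [h4]
        exact pow_le_pow_left₀ (Real.exp_pos _).le hBexp _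
      have h5 : ((1 + a) ^ k)⁻¹ ≤ A ^ (k - 1) := by
        rw [hAeq, one_div, inv_pow]
        apply inv_anti₀ (by positivity)
        exact pow_le_pow_right₀ (by linarith) (by omega)
      have h6 : Real.exp (k * a ^ 2 / 6) ≤ ((1 + a) ^ k)⁻¹ * Real.exp (a * k) := by
        have h7 := pow_le_pow_left₀ (by positivity) (tilt_exp1 a ha ha1) k
        rw [mul_pow, ← Real.exp_nat_mul, ← Real.exp_nat_mul] at h7
        have h8 : (0:ℝ) < (1 + a) ^ k := by positivity
        rw [inv_mul_eq_div, le_div_iff₀ h8]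
        have h9 : Real.exp (k * a ^ 2 / 6) * (1 + a) ^ k =
            ((1 + a) ^ k * Real.exp (k * -a)) * (Real.exp (k * a ^ 2 / 6) * Real.exp (k * a)) := by
          have : Real.exp (k * -a) * Real.exp (k * a) = 1 := by
            rw [← Real.exp_add]; simp
          calc Real.exp (k * a ^ 2 / 6) * (1 + a) ^ k
              = (1 + a) ^ k * Real.exp (k * a ^ 2 / 6) * (Real.exp (k * -a) * Real.exp (k * a)) := by
                rw [this]; ring
            _ = _ := by ring
        rw [h9]
        calc ((1 + a) ^ k * Real.exp (k * -a)) * (Real.exp (k * a ^ 2 / 6) * Real.exp (k * a))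
            ≤ Real.exp (k * -(a ^ 2 / 6)) * (Real.exp (k * a ^ 2 / 6) * Real.exp (k * a)) :=
              mul_le_mul_of_nonneg_right h7 (by positivity)
          _ = Real.exp (a * k) := by
              rw [← Real.exp_add, ← Real.exp_add]
              congr 1
              ring
      refine h6.trans ?_
      exact mul_le_mul h5 h3 (Real.exp_pos _).le (by positivity)
    have hEnn : 0 ≤ Ex E p (fun ω => ind ((cl ω o).card = k)) := by
      have h3 := Ex_mono E p hp0.le hp1.le (fun _ => 0) (fun ω => ind ((cl ω o).card = k))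
        (fun ω _ => by
          classical
          unfold ind
          split_ifs <;> norm_num)
      rwa [Ex_const] at h3
    have h4 : Real.exp (k * a ^ 2 / 6) * Ex E p (fun ω => ind ((cl ω o).card = k)) ≤ 1 :=
      (mul_le_mul_of_nonneg_right h2 hEnn).trans h1
    rw [Real.exp_neg]
    rw [← one_div, le_div_iff₀ (Real.exp_pos _), mul_comm]
    exact h4

theorem surv {V : Type} [Fintype V] [DecidableEq V] (E : Finset (Sym2 V)) (o : V)
    (K m' : ℕ) (hm' : 2 ≤ m') (a p : ℝ) (ha : 0 < a) (ha1 : a ≤ 1 / 2) (hp : p * m' = 1 + a)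
    (hbd : ∀ A : Finset V, o ∈ A → A ⊆ cl E o → A.card ≤ K → A.card * m' ≤ (bd E A).card) :
    3 * a / 4 ≤ Ex E p (fun ω => ind (K < (cl ω o).card)) := by
  have hm0 : (0 : ℝ) < m' := by
    have : 0 < m' := by omega
    exact_mod_cast this
  have hm2 : (2 : ℝ) ≤ m' := by exact_mod_cast hm'
  have hpeq : p = (1 + a) / m' := by
    rw [eq_div_iff hm0.ne']; exact hp
  set p' : ℝ := (1 - a / 2) / m' with hp'
  have h1a : 0 < 1 - a / 2 := by linarith
  have hp'0 : 0 ≤ p' := by positivity
  have hpp : p' ≤ p := by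
    rw [hpeq, hp']
    apply div_le_div_of_nonneg_right _ hm0.le
    linarith
  have hp0 : 0 < p := by
    rw [hpeq]; positivity
  have hp1 : p < 1 := by
    rw [hpeq, div_lt_one hm0]
    linarith
  set A : ℝ := p' / p with hA
  set B : ℝ := (1 - p') / (1 - p) with hB
  have h1p : 0 < 1 - p := by linarith
  have hA0 : 0 < A := by positivity
  have hAeq : A = (1 - a / 2) / (1 + a) := by
    rw [hA, hp', hpeq]
    field_simp
  have hBexp : Real.exp (3 * a / 2 / m') ≤ B := by
    have h := tilt_b p p' hp'0 hpp hp1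
    have e : p - p' = 3 * a / 2 / m' := by
      rw [hpeq, hp']; ring
    rwa [e] at h
  have hB1 : 1 ≤ B := by
    refine le_trans ?_ hBexp
    exact Real.one_le_exp (by positivity)
  have hAB : p * A + (1 - p) * B = 1 := by
    rw [hA, hB, mul_div_cancel₀ _ hp0.ne', mul_div_cancel₀ _ h1p.ne']
    ring
  have ht := tilt_one E o p A B hp0.le hp1.le hA0.le hB1 hAB
  have hABm : 1 ≤ A * B ^ m' := by
    have h3 : Real.exp (3 * a / 2) ≤ B ^ m' := by
      have h4 : Real.exp (3 * a / 2) = (Real.exp (3 * a / 2 / m')) ^ m' := by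
        rw [← Real.exp_nat_mul]
        congr 1
        field_simp
      rw [h4]
      exact pow_le_pow_left₀ (Real.exp_pos _).le hBexp _
    have h5 : 1 ≤ A * Real.exp (3 * a / 2) := by
      rw [hAeq, div_mul_eq_mul_div, le_div_iff₀ (by linarith), one_mul]
      exact tilt_exp2 a ha ha1
    exact h5.trans (mul_le_mul_of_nonneg_left h3 hA0.le)
  -- the probability of a small cluster
  have hsmall : Ex E p (fun ω => ind ((cl ω o).card ≤ K)) ≤ A := by
    have h1 : A⁻¹ * Ex E p (fun ω => ind ((cl ω o).card ≤ K)) ≤ 1 := by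
      rw [← Ex_mul_left]
      refine le_trans ?_ ht
      apply Ex_mono E p hp0.le hp1.le
      intro ω hω
      have hpos : 0 ≤ A ^ ((cl ω o).card - 1) * B ^ (bd E (cl ω o)).card := by positivity
      classical
      unfold ind
      split_ifs with hc
      · rw [mul_one]
        have h2 := hbd (cl ω o) (mem_cl_self ω o) (cl_mono ω E hω o) hc
        have h3 : 1 ≤ (cl ω o).card := Finset.card_pos.mpr ⟨o, mem_cl_self ω o⟩
        have h4 : A ^ ((cl ω o).card - 1) = A⁻¹ * A ^ (cl ω o).card := by
          obtain ⟨j, hj⟩ : ∃ j, (cl ω o).card = j + 1 := ⟨_, (Nat.sub_add_cancel h3).symm⟩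
          rw [hj, Nat.add_sub_cancel, pow_succ]
          field_simp
        rw [h4, mul_assoc]
        have h5 : 1 ≤ A ^ (cl ω o).card * B ^ (bd E (cl ω o)).card := by
          calc (1:ℝ) ≤ (A * B ^ m') ^ (cl ω o).card := one_le_pow₀ hABm
            _ = A ^ (cl ω o).card * B ^ ((cl ω o).card * m') := by
                rw [mul_pow, ← pow_mul, mul_comm m']
            _ ≤ _ := mul_le_mul_of_nonneg_left (pow_le_pow_right₀ hB1 h2) (by positivity)
        calc A⁻¹ = A⁻¹ * 1 := (mul_one _).symm
          _ ≤ _ := mul_le_mul_of_nonneg_left h5 (by positivity)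
      · rw [mul_zero]; exact hpos
    rw [inv_mul_le_iff₀ hA0, mul_one] at h1
    exact h1
  have hcompl : Ex E p (fun ω => ind (K < (cl ω o).card)) =
      1 - Ex E p (fun ω => ind ((cl ω o).card ≤ K)) := by
    rw [← Ex_const E p 1, ← Ex_sub]
    apply Ex_congr
    intro ω _
    classical
    unfold ind
    by_cases hc : (cl ω o).card ≤ K
    · rw [if_pos hc, if_neg (not_lt.mpr hc)]; norm_num
    · rw [if_neg hc, if_pos (not_le.mp hc)]; norm_num
  rw [hcompl]
  have h6 : A ≤ 1 - 3 * a / 4 := by
    rw [hAeq, div_le_iff₀ (by linarith)]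
    nlinarith
  linarith

end Pool.Agent.Work.MP_b7dc8a_pr
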