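import Pool.Agent.Work.MP_b7dc8a_pr.Base
import Pool.Agent.Work.MP_b7dc8a_pr.Tilt
import Pool.Agent.Work.MP_b7dc8a_pr.Iso

/-! Module VAR (uses BIN, CLB, TILT, ISO)
VAR: first_chaos: 0 <= Ex (F - Ex F - sum_e c_e(1_e - p))^2, c_e = Ex D_e F, Cov(F,1_e) = p(1-p) c_e.  var_lb: for e=s(v,w) (2^(m-1) m
 edges): D_e X_K <= 0 and <= -1 if all other edges at v are closed and |cl_H w| > K, H = cubeE minus the edges at v;
 probability (1-p)^(m-1) * surv(H) (bd_H A >= |A|(m-L) - |A|, v notin A).
-/

namespace Pool.Agent.Work.MP_b7dc8a_pr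

open Finset Filter Topology

/-- the centred indicator of `e` -/
noncomputable def var_X {α : Type} [DecidableEq α] (p : ℝ) (e : α) (ω : Finset α) : ℝ :=
  (if e ∈ ω then 1 else 0) - p

theorem var_cov {α : Type} [DecidableEq α] (E : Finset α) (p : ℝ) (F : Finset α → ℝ) (e : α)
    (he : e ∈ E) :
    Ex E p (fun ω => F ω * var_X p e ω) =
      p * (1 - p) * Ex E p (fun ω => F (insert e ω) - F (ω.erase e)) := by
  set E' := E.erase e with hE'
  have hins : insert e E' = E := Finset.insert_erase he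
  have hnot : e ∉ E' := Finset.notMem_erase _ _
  have hsub : ∀ ω ⊆ E', e ∉ ω := fun ω hω h => hnot (hω h)
  rw [← hins, Ex_insert e E' hnot, Ex_insert e E' hnot]
  have a1 : Ex E' p (fun ω => F (insert e ω) * var_X p e (insert e ω)) =
      (1 - p) * Ex E' p (fun ω => F (insert e ω)) := by
    rw [← Ex_mul_left]
    apply Ex_congr
    intro ω _
    unfold var_X
    rw [if_pos (Finset.mem_insert_self _ _)]
    ring
  have a2 : Ex E' p (fun ω => F ω * var_X p e ω) = -p * Ex E' p F := by
    rw [← Ex_mul_left]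
    apply Ex_congr
    intro ω hω
    unfold var_X
    rw [if_neg (hsub ω hω)]
    ring
  have a3 : Ex E' p (fun ω => F (insert e (insert e ω)) - F ((insert e ω).erase e)) =
      Ex E' p (fun ω => F (insert e ω)) - Ex E' p F := by
    rw [← Ex_sub]
    apply Ex_congr
    intro ω hω
    rw [Finset.insert_idem, Finset.erase_insert (hsub ω hω)]
  have a4 : Ex E' p (fun ω => F (insert e ω) - F (ω.erase e)) =
      Ex E' p (fun ω => F (insert e ω)) - Ex E' p F := by
    rw [← Ex_sub]
    apply Ex_congr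
    intro ω hω
    rw [Finset.erase_eq_of_notMem (hsub ω hω)]
  rw [a1, a2, a3, a4]
  ring

theorem first_chaos {α : Type} [DecidableEq α] (E : Finset α) (p : ℝ) (h0 : 0 ≤ p) (h1 : p ≤ 1)
    (F : Finset α → ℝ) :
    p * (1 - p) * ∑ e ∈ E, (Ex E p (fun ω => F (insert e ω) - F (ω.erase e))) ^ 2 ≤
      Ex E p (fun ω => F ω ^ 2) - (Ex E p F) ^ 2 := by
  set c : α → ℝ := fun e => Ex E p (fun ω => F (insert e ω) - F (ω.erase e)) with hc
  set μ := Ex E p F with hμ
  set G : Finset α → ℝ := fun ω => ∑ e ∈ E, c e * var_X p e ω with hG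
  have hFG : ∀ (F' : Finset α → ℝ), Ex E p (fun ω => F' ω * G ω) =
      ∑ e ∈ E, c e * (p * (1 - p) * Ex E p (fun ω => F' (insert e ω) - F' (ω.erase e))) := by
    intro F'
    have h2 : Ex E p (fun ω => F' ω * G ω) =
        Ex E p (fun ω => ∑ e ∈ E, c e * (F' ω * var_X p e ω)) := by
      apply Ex_congr
      intro ω _
      simp only [hG]
      rw [Finset.mul_sum]
      apply Finset.sum_congr rfl
      intro e _
      ring
    rw [h2, Ex_sum]
    apply Finset.sum_congr rfl
    intro e he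
    rw [Ex_mul_left, var_cov E p F' e he]
  have e1 : Ex E p (fun ω => F ω * G ω) = p * (1 - p) * ∑ e ∈ E, (c e) ^ 2 := by
    rw [hFG F, Finset.mul_sum]
    apply Finset.sum_congr rfl
    intro e _
    simp only [hc]
    ring
  have hD : ∀ e ∈ E, ∀ ω, G (insert e ω) - G (ω.erase e) = c e := by
    intro e he ω
    simp only [hG]
    rw [← Finset.sum_sub_distrib, Finset.sum_eq_single e]
    · unfold var_X
      rw [if_pos (Finset.mem_insert_self _ _), if_neg (Finset.notMem_erase _ _)]
      ring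
    · intro f _ hfe
      unfold var_X
      have h3 : (f ∈ insert e ω) ↔ f ∈ ω := by
        rw [Finset.mem_insert]
        exact ⟨fun h => h.resolve_left hfe, Or.inr⟩
      have h4 : (f ∈ ω.erase e) ↔ f ∈ ω := by
        rw [Finset.mem_erase]
        exact ⟨fun h => h.2, fun h => ⟨hfe, h⟩⟩
      simp only [h3, h4]
      ring
    · intro h
      exact absurd he h
  have e2 : Ex E p (fun ω => G ω * G ω) = p * (1 - p) * ∑ e ∈ E, (c e) ^ 2 := by
    rw [hFG G, Finset.mul_sum]
    apply Finset.sum_congr rfl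
    intro e he
    have h3 : Ex E p (fun ω => G (insert e ω) - G (ω.erase e)) = c e := by
      rw [Ex_congr E p _ (fun _ => c e) (fun ω _ => hD e he ω), Ex_const]
    rw [h3]
    ring
  have e3 : Ex E p G = 0 := by
    have h3 := hFG (fun _ => 1)
    simp only [one_mul, sub_self] at h3
    have h4 : Ex E p (fun _ : Finset α => (0:ℝ)) = 0 := Ex_const E p 0
    rw [h4] at h3
    simpa using h3
  have e4 : Ex E p (fun ω => (F ω - μ - G ω) ^ 2) =
      Ex E p (fun ω => F ω ^ 2) - μ ^ 2 - p * (1 - p) * ∑ e ∈ E, (c e) ^ 2 := by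
    have h3 : Ex E p (fun ω => (F ω - μ - G ω) ^ 2) =
        Ex E p (fun ω => ((F ω ^ 2 + μ ^ 2) + (G ω * G ω)) +
          (((-2 * μ) * F ω + (-2) * (F ω * G ω)) + (2 * μ) * G ω)) := by
      apply Ex_congr
      intro ω _
      ring
    rw [h3, Ex_add, Ex_add, Ex_add, Ex_add, Ex_add, Ex_const, Ex_mul_left, Ex_mul_left,
      Ex_mul_left, e1, e2, e3, ← hμ]
    ring
  have e5 : 0 ≤ Ex E p (fun ω => (F ω - μ - G ω) ^ 2) := by
    have h3 := Ex_mono E p h0 h1 (fun _ => 0) (fun ω => (F ω - μ - G ω) ^ 2)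
      (fun ω _ => sq_nonneg _)
    rwa [Ex_const] at h3
  rw [e4] at e5
  linarith

theorem var_degree (m : ℕ) (v : Q m) : (cube m).degree v = m := by
  classical
  rw [← SimpleGraph.card_neighborFinset_eq_degree]
  have h : (cube m).neighborFinset v = univ.image (fun i : Fin m => Function.update v i (!v i)) := by
    ext z
    rw [SimpleGraph.mem_neighborFinset, Finset.mem_image]
    constructor
    · intro h
      have h' : hammingDist v z = 1 := h
      unfold hammingDist at h'
      rw [Finset.card_eq_one] at h'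
      obtain ⟨i, hi⟩ := h'
      refine ⟨i, Finset.mem_univ _, ?_⟩
      funext j
      by_cases hj : j = i
      · subst hj
        have h1 : j ∈ univ.filter (fun i => v i ≠ z i) := by
          rw [hi]; exact Finset.mem_singleton_self _
        rw [Finset.mem_filter] at h1
        rw [Function.update_self]
        have h2 := h1.2
        cases hx : v j <;> cases hz : z j <;> simp_all
      · have h1 : j ∉ univ.filter (fun i => v i ≠ z i) := by
          rw [hi, Finset.mem_singleton]; exact hj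
        rw [Finset.mem_filter] at h1
        rw [Function.update_of_ne hj]
        by_contra h2
        exact h1 ⟨Finset.mem_univ _, h2⟩
    · rintro ⟨i, _, rfl⟩
      show hammingDist v (Function.update v i (!v i)) = 1
      unfold hammingDist
      rw [Finset.card_eq_one]
      refine ⟨i, ?_⟩
      ext j
      rw [Finset.mem_filter, Finset.mem_singleton]
      constructor
      · rintro ⟨_, h2⟩
        by_contra hj
        rw [Function.update_of_ne hj] at h2
        exact h2 rfl
      · intro hj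
        subst hj
        refine ⟨Finset.mem_univ _, ?_⟩
        rw [Function.update_self]
        cases v j <;> simp
  rw [h, Finset.card_image_of_injective]
  · simp
  · intro i j hij
    by_contra hne
    have h1 := congrFun hij i
    simp only at h1
    rw [Function.update_self, Function.update_of_ne hne] at h1
    cases hv : v i <;> simp [hv] at h1

theorem var_edges (m : ℕ) (hm : 1 ≤ m) : (cubeE m).card = m * 2 ^ (m - 1) := by
  classical
  have h := SimpleGraph.sum_degrees_eq_twice_card_edges (cube m)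
  simp only [var_degree] at h
  rw [Finset.sum_const, Finset.card_univ, smul_eq_mul] at h
  have h2 : Fintype.card (Fin m → Bool) = 2 ^ m := by simp
  rw [h2] at h
  have h3 : (2:ℕ) ^ m = 2 * 2 ^ (m - 1) := by
    rw [← pow_succ']
    congr 1
    omega
  rw [h3] at h
  have h4 : (cube m).edgeFinset.card = (cubeE m).card := by
    unfold cubeE
    congr 1
  rw [h4] at h
  have h5 : 2 * (m * 2 ^ (m - 1)) = 2 * (cubeE m).card := by rw [← h]; ring
  omega

open Classical in
/-- the edges at `v` -/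
noncomputable def var_Ev {m : ℕ} (v : Q m) : Finset (Sym2 (Q m)) :=
  (cubeE m).filter fun e => v ∈ e

open Classical in
/-- the edges which are not at `v` -/
noncomputable def var_H {m : ℕ} (v : Q m) : Finset (Sym2 (Q m)) :=
  (cubeE m).filter fun e => v ∉ e

theorem var_mem_Ev {m : ℕ} (v : Q m) (e : Sym2 (Q m)) : e ∈ var_Ev v ↔ e ∈ cubeE m ∧ v ∈ e := by
  simp only [var_Ev, Finset.mem_filter]

theorem var_mem_H {m : ℕ} (v : Q m) (e : Sym2 (Q m)) : e ∈ var_H v ↔ e ∈ cubeE m ∧ v ∉ e := by
  simp only [var_H, Finset.mem_filter]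

theorem var_Ev_card {m : ℕ} (v : Q m) : (var_Ev v).card = m := by
  classical
  have h := SimpleGraph.card_incidenceFinset_eq_degree (cube m) v
  rw [var_degree] at h
  refine Eq.trans ?_ h
  congr 1
  ext e
  rw [var_mem_Ev, SimpleGraph.mem_incidenceFinset]
  unfold SimpleGraph.incidenceSet cubeE
  rw [SimpleGraph.mem_edgeFinset]
  rfl

theorem var_iso {m : ℕ} (v : Q m) (ω : Finset (Sym2 (Q m))) (h : ∀ y, s(v, y) ∉ ω) :
    cl ω v = {v} := by
  rw [← cls_singleton]
  apply cls_eq_self
  intro x hx y hxy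
  rw [Finset.mem_singleton] at hx
  subst hx
  exact absurd hxy (h y)

theorem var_ind_nonneg (P : Prop) : 0 ≤ ind P := by
  classical
  unfold ind
  split_ifs <;> norm_num

theorem var_XK_anti {V : Type} [Fintype V] (K : ℕ) (ω ω' : Finset (Sym2 V)) (h : ω ⊆ ω') :
    XK K ω' ≤ XK K ω := by
  classical
  unfold XK
  apply Finset.card_le_card
  intro x hx
  rw [Finset.mem_filter] at hx ⊢
  exact ⟨hx.1, (Finset.card_le_card (cl_mono ω ω' h x)).trans hx.2⟩

theorem var_XK_strict {V : Type} [Fintype V] (K : ℕ) (ω ω' : Finset (Sym2 V)) (h : ω ⊆ ω') (v : V)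
    (h1 : (cl ω v).card ≤ K) (h2 : K < (cl ω' v).card) :
    XK K ω' + 1 ≤ XK K ω := by
  classical
  unfold XK
  apply Nat.succ_le_of_lt
  apply Finset.card_lt_card
  rw [Finset.ssubset_iff_of_subset]
  · refine ⟨v, ?_, ?_⟩
    · rw [Finset.mem_filter]
      exact ⟨Finset.mem_univ _, h1⟩
    · rw [Finset.mem_filter]
      rintro ⟨_, h3⟩
      omega
  · intro x hx
    rw [Finset.mem_filter] at hx ⊢
    exact ⟨hx.1, (Finset.card_le_card (cl_mono ω ω' h x)).trans hx.2⟩

theorem var_bd {m : ℕ} (v : Q m) (A : Finset (Q m)) (hv : v ∉ A) :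
    (bd (cubeE m) A).card ≤ (bd (var_H v) A).card + A.card := by
  classical
  have h : bd (cubeE m) A ⊆ bd (var_H v) A ∪ A.image (fun x => s(x, v)) := by
    intro e he
    rw [tilt_mem_bd] at he
    obtain ⟨hE, x, hx, y, hy, rfl⟩ := he
    rw [Finset.mem_union]
    by_cases hvy : v = y
    · right
      rw [Finset.mem_image]
      exact ⟨x, hx, by rw [hvy]⟩
    · left
      rw [tilt_mem_bd, var_mem_H]
      refine ⟨⟨hE, ?_⟩, x, hx, y, hy, rfl⟩
      rw [Sym2.mem_iff]
      rintro (h1 | h1)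
      · rw [h1] at hv; exact hv hx
      · exact hvy h1
  refine (Finset.card_le_card h).trans ((Finset.card_union_le _ _).trans ?_)
  exact Nat.add_le_add_left Finset.card_image_le _

theorem var_empty {α : Type} [DecidableEq α] (A : Finset α) (p : ℝ) :
    Ex A p (fun ω => ind (ω = ∅)) = (1 - p) ^ A.card := by
  classical
  unfold Ex
  rw [Finset.sum_eq_single ∅]
  · unfold ind
    simp
  · intro ω _ hω
    unfold ind
    simp only [if_neg hω, mul_zero]
  · intro h
    exact absurd (Finset.empty_mem_powerset A) h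

theorem var_edge (m K L m' : ℕ) (hm' : 2 ≤ m') (h : m' + L + 1 ≤ m) (hK1 : 1 ≤ K)
    (hKL : K ≤ 2 ^ L) (a p : ℝ) (ha : 0 < a) (ha1 : a ≤ 1 / 2) (hp : p * m' = 1 + a)
    (h0 : 0 ≤ p) (h1 : p ≤ 1) (v w : Q m) (hvw : s(v, w) ∈ cubeE m) :
    Ex (cubeE m) p (fun ω => (XK K (insert s(v, w) ω) : ℝ) - (XK K (ω.erase s(v, w)) : ℝ)) ≤
      -((1 - p) ^ (m - 1) * (3 * a / 4)) := by
  classical
  have hne : v ≠ w := by
    intro hh
    subst hh
    unfold cubeE at hvw
    rw [SimpleGraph.mem_edgeFinset, SimpleGraph.mem_edgeSet] at hvw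
    exact (cube m).irrefl hvw
  have hsE : s(v, w) ∈ var_Ev v := by
    rw [var_mem_Ev]
    exact ⟨hvw, Sym2.mem_mk_left v w⟩
  set A1 := (var_Ev v).erase s(v, w) with hA1
  have hA1card : A1.card = m - 1 := by
    rw [hA1, Finset.card_erase_of_mem hsE, var_Ev_card]
  have hdisj : Disjoint A1 (var_H v) := by
    rw [Finset.disjoint_left]
    intro e he1 he2
    rw [hA1, Finset.mem_erase, var_mem_Ev] at he1
    rw [var_mem_H] at he2
    exact he2.2 he1.2.2
  have hA1E : A1 ⊆ cubeE m := by
    intro e he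
    rw [hA1, Finset.mem_erase, var_mem_Ev] at he
    exact he.2.1
  have hHE : var_H v ⊆ cubeE m := by
    intro e he
    rw [var_mem_H] at he
    exact he.1
  -- the probability of the good event
  have hprob : Ex (cubeE m) p (fun ω => ind (ω ∩ A1 = ∅) * ind (K < (cl (ω ∩ var_H v) w).card)) =
      (1 - p) ^ (m - 1) * Ex (var_H v) p (fun ω => ind (K < (cl ω w).card)) := by
    rw [Ex_mul_indep (cubeE m) A1 (var_H v) hdisj p (fun ω => ind (ω ∩ A1 = ∅))
      (fun ω => ind (K < (cl (ω ∩ var_H v) w).card))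
      (fun ω _ => by rw [Finset.inter_assoc, Finset.inter_self])
      (fun ω _ => by rw [Finset.inter_assoc, Finset.inter_self]),
      Ex_restrict (cubeE m) A1 hA1E p (fun ω => ind (ω = ∅)),
      Ex_restrict (cubeE m) (var_H v) hHE p (fun ω => ind (K < (cl ω w).card)), var_empty, hA1card]
  have hHv : cl (var_H v) v = {v} := by
    apply var_iso
    intro y hy
    rw [var_mem_H] at hy
    exact hy.2 (Sym2.mem_mk_left v y)
  have hsurv := surv (var_H v) w K m' hm' a p ha ha1 hp (by
    intro A hwA hA hAK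
    have hvA : v ∉ A := by
      intro hv
      have h2 := hA hv
      rw [cl_symm, hHv, Finset.mem_singleton] at h2
      exact hne h2.symm
    have h3 := var_bd v A hvA
    have h4 := iso m L (by omega) A (hAK.trans hKL)
    have h5 : A.card * (m - L) = A.card * (m - L - 1) + A.card := by
      obtain ⟨j, hj⟩ : ∃ j, m - L = j + 1 := ⟨m - L - 1, by omega⟩
      rw [hj, Nat.add_sub_cancel]
      ring
    have h6 : A.card * m' ≤ A.card * (m - L - 1) := Nat.mul_le_mul_left _ (by omega)
    omega)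
  have hpoint : ∀ ω ⊆ cubeE m,
      (XK K (insert s(v, w) ω) : ℝ) - (XK K (ω.erase s(v, w)) : ℝ) ≤
      -1 * (ind (ω ∩ A1 = ∅) * ind (K < (cl (ω ∩ var_H v) w).card)) := by
    intro ω hω
    have hsub : ω.erase s(v, w) ⊆ insert s(v, w) ω :=
      (Finset.erase_subset _ _).trans (Finset.subset_insert _ _)
    by_cases hgood : ω ∩ A1 = ∅ ∧ K < (cl (ω ∩ var_H v) w).card
    · have h2 : XK K (insert s(v, w) ω) + 1 ≤ XK K (ω.erase s(v, w)) := by
        apply var_XK_strict K _ _ hsub v
        · rw [var_iso v]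
          · rw [Finset.card_singleton]; exact hK1
          · intro y hy
            rw [Finset.mem_erase] at hy
            have h3 : s(v, y) ∈ ω ∩ A1 := by
              rw [Finset.mem_inter, hA1, Finset.mem_erase, var_mem_Ev]
              exact ⟨hy.2, hy.1, hω hy.2, Sym2.mem_mk_left v y⟩
            rw [hgood.1] at h3
            exact Finset.notMem_empty _ h3
        · have h3 : w ∈ cl (insert s(v, w) ω) v :=
            cl_closed _ v v w (mem_cl_self _ _) (Finset.mem_insert_self _ _)
          rw [← cl_eq_of_mem _ v w h3]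
          refine lt_of_lt_of_le hgood.2 (Finset.card_le_card (cl_mono _ _ ?_ w))
          exact Finset.inter_subset_left.trans (Finset.subset_insert _ _)
      unfold ind
      rw [if_pos hgood.1, if_pos hgood.2]
      have h3 : (XK K (insert s(v, w) ω) : ℝ) + 1 ≤ (XK K (ω.erase s(v, w)) : ℝ) := by
        exact_mod_cast h2
      linarith
    · have h2 : ind (ω ∩ A1 = ∅) * ind (K < (cl (ω ∩ var_H v) w).card) = 0 := by
        unfold ind
        by_cases h3 : ω ∩ A1 = ∅
        · have h4 : ¬ K < (cl (ω ∩ var_H v) w).card := fun h4 => hgood ⟨h3, h4⟩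
          rw [if_neg h4, mul_zero]
        · rw [if_neg h3, zero_mul]
      rw [h2, mul_zero]
      have h3 : (XK K (insert s(v, w) ω) : ℝ) ≤ (XK K (ω.erase s(v, w)) : ℝ) := by
        exact_mod_cast var_XK_anti K _ _ hsub
      linarith
  refine (Ex_mono (cubeE m) p h0 h1 _ _ hpoint).trans ?_
  rw [Ex_mul_left, hprob]
  have h7 : (1 - p) ^ (m - 1) * (3 * a / 4) ≤
      (1 - p) ^ (m - 1) * Ex (var_H v) p (fun ω => ind (K < (cl ω w).card)) :=
    mul_le_mul_of_nonneg_left hsurv (pow_nonneg (by linarith) _)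
  linarith

theorem var_lb (m K L m' : ℕ) (hm : 1 ≤ m) (hm' : 2 ≤ m') (h : m' + L + 1 ≤ m) (hK1 : 1 ≤ K)
    (hKL : K ≤ 2 ^ L) (a p : ℝ) (ha : 0 < a) (ha1 : a ≤ 1 / 2) (hp : p * m' = 1 + a) :
    p * (1 - p) * (m * 2 ^ (m - 1)) * ((1 - p) ^ (m - 1) * (3 * a / 4)) ^ 2 ≤
      Ex (cubeE m) p (fun ω => (XK K ω : ℝ) ^ 2) - (Ex (cubeE m) p (fun ω => (XK K ω : ℝ))) ^ 2 := by
  have hm0 : (0 : ℝ) < m' := by
    have : 0 < m' := by omega
    exact_mod_cast this
  have hm2 : (2 : ℝ) ≤ m' := by exact_mod_cast hm'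
  have hpeq : p = (1 + a) / m' := by
    rw [eq_div_iff hm0.ne']; exact hp
  have h0 : 0 ≤ p := by
    rw [hpeq]; positivity
  have h1 : p ≤ 1 := by
    rw [hpeq, div_le_one hm0]
    linarith
  refine le_trans ?_ (first_chaos (cubeE m) p h0 h1 (fun ω => (XK K ω : ℝ)))
  have hq : 0 ≤ (1 - p) ^ (m - 1) * (3 * a / 4) := by
    have : 0 ≤ (1 - p) ^ (m - 1) := pow_nonneg (by linarith) _
    positivity
  have hsum : (m * 2 ^ (m - 1)) * ((1 - p) ^ (m - 1) * (3 * a / 4)) ^ 2 ≤
      ∑ e ∈ cubeE m, (Ex (cubeE m) p (fun ω => (XK K (insert e ω) : ℝ) -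
        (XK K (ω.erase e) : ℝ))) ^ 2 := by
    have hcard : ((cubeE m).card : ℝ) = m * 2 ^ (m - 1) := by
      rw [var_edges m hm]
      push_cast
      ring
    rw [← hcard, ← nsmul_eq_mul]
    apply Finset.card_nsmul_le_sum
    intro e he
    induction e using Sym2.ind with
    | _ v w =>
      have h2 := var_edge m K L m' hm' h hK1 hKL a p ha ha1 hp h0 h1 v w he
      rw [← neg_sq (Ex (cubeE m) p _)]
      apply pow_le_pow_left₀ hq
      linarith
  calc p * (1 - p) * (m * 2 ^ (m - 1)) * ((1 - p) ^ (m - 1) * (3 * a / 4)) ^ 2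
      = p * (1 - p) * ((m * 2 ^ (m - 1)) * ((1 - p) ^ (m - 1) * (3 * a / 4)) ^ 2) := by ring
    _ ≤ _ := mul_le_mul_of_nonneg_left hsum (mul_nonneg h0 (by linarith))

end Pool.Agent.Work.MP_b7dc8a_pr
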