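import Pool.Agent.Work.MP_b7dc8a_pr.Base
import Pool.Agent.Work.MP_b7dc8a_pr.Bin

/-! Module JOINT (uses BIN)
JOINT: induction on E: LHS(insert e) = p(th F(w+e,z+e) + (1-th) F(w+e,z)) + (1-p) F(w,z); RHS: p th [F(z+e u n, z+e)] +
 (1-p th)[p2 F(z u n+e, z) + (1-p2) F(z u n, z)], (1-p th)p2 = p - p th, (1-p th)(1-p2) = 1-p. Ex_mono_p: th = p/q, joint with
 F w z = F z (RHS inner expectation of a constant), or a direct induction.
-/

namespace Pool.Agent.Work.MP_b7dc8a_pr

open Finset Filter Topology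

theorem joint {α : Type} [DecidableEq α] (E : Finset α) (p θ : ℝ) (h : p * θ ≠ 1)
    (F : Finset α → Finset α → ℝ) :
    Ex E p (fun ω => Ex ω θ (fun ζ => F ω ζ)) =
      Ex E (p * θ) (fun ζ => Ex (E \ ζ) ((p - p * θ) / (1 - p * θ)) (fun η => F (ζ ∪ η) ζ)) := by
  have hne : 1 - p * θ ≠ 0 := fun hc => h (by linarith)
  set q := (p - p * θ) / (1 - p * θ) with hq
  have hq1 : (1 - p * θ) * q = p - p * θ := by
    rw [hq]
    field_simp
  induction E using Finset.induction_on generalizing F with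
  | empty => simp only [Ex_empty, empty_sdiff, union_empty]
  | insert e E he ih =>
    have hL : Ex (insert e E) p (fun ω => Ex ω θ (fun ζ => F ω ζ)) =
        p * (θ * Ex E p (fun ω => Ex ω θ (fun ζ => F (insert e ω) (insert e ζ))) +
          (1 - θ) * Ex E p (fun ω => Ex ω θ (fun ζ => F (insert e ω) ζ))) +
        (1 - p) * Ex E p (fun ω => Ex ω θ (fun ζ => F ω ζ)) := by
      rw [Ex_insert e E he]
      have h1 : Ex E p (fun ω => Ex (insert e ω) θ (fun ζ => F (insert e ω) ζ)) =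
          Ex E p (fun ω => θ * Ex ω θ (fun ζ => F (insert e ω) (insert e ζ)) +
            (1 - θ) * Ex ω θ (fun ζ => F (insert e ω) ζ)) :=
        Ex_congr _ _ _ _ fun ω hω => by rw [Ex_insert e ω (fun hc => he (hω hc))]
      rw [h1, Ex_add, Ex_mul_left, Ex_mul_left]
    have hR : Ex (insert e E) (p * θ) (fun ζ => Ex (insert e E \ ζ) q (fun η => F (ζ ∪ η) ζ)) =
        p * θ * Ex E (p * θ) (fun ζ => Ex (E \ ζ) q (fun η => F (insert e (ζ ∪ η)) (insert e ζ))) +
        (1 - p * θ) * (q * Ex E (p * θ) (fun ζ => Ex (E \ ζ) q (fun η => F (insert e (ζ ∪ η)) ζ)) +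
          (1 - q) * Ex E (p * θ) (fun ζ => Ex (E \ ζ) q (fun η => F (ζ ∪ η) ζ))) := by
      rw [Ex_insert e E he]
      have h1 : Ex E (p * θ) (fun ζ => Ex (insert e E \ insert e ζ) q
            (fun η => F (insert e ζ ∪ η) (insert e ζ))) =
          Ex E (p * θ) (fun ζ => Ex (E \ ζ) q (fun η => F (insert e (ζ ∪ η)) (insert e ζ))) := by
        refine Ex_congr _ _ _ _ fun ζ hζ => ?_
        have e1 : insert e E \ insert e ζ = E \ ζ := by
          ext x
          simp only [Finset.mem_sdiff, Finset.mem_insert]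
          constructor
          · rintro ⟨h1, h2⟩
            push Not at h2
            exact ⟨h1.resolve_left h2.1, h2.2⟩
          · rintro ⟨h1, h2⟩
            exact ⟨Or.inr h1, fun hc => hc.elim (fun h3 => he (h3 ▸ h1)) h2⟩
        rw [e1]
        refine Ex_congr _ _ _ _ fun η _ => ?_
        rw [insert_union]
      have h2 : Ex E (p * θ) (fun ζ => Ex (insert e E \ ζ) q (fun η => F (ζ ∪ η) ζ)) =
          Ex E (p * θ) (fun ζ => q * Ex (E \ ζ) q (fun η => F (insert e (ζ ∪ η)) ζ) +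
            (1 - q) * Ex (E \ ζ) q (fun η => F (ζ ∪ η) ζ)) := by
        refine Ex_congr _ _ _ _ fun ζ hζ => ?_
        have heζ : e ∉ ζ := fun hc => he (hζ hc)
        have e1 : insert e E \ ζ = insert e (E \ ζ) := insert_sdiff_of_notMem _ heζ
        have e2 : e ∉ E \ ζ := fun hc => he (Finset.mem_sdiff.1 hc).1
        rw [e1, Ex_insert e _ e2]
        have h3 : Ex (E \ ζ) q (fun η => F (ζ ∪ insert e η) ζ) =
            Ex (E \ ζ) q (fun η => F (insert e (ζ ∪ η)) ζ) :=
          Ex_congr _ _ _ _ fun η _ => by rw [union_insert]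
        rw [h3]
      rw [h1, h2, Ex_add, Ex_mul_left, Ex_mul_left]
    rw [hL, hR, ih (fun ω ζ => F (insert e ω) (insert e ζ)), ih (fun ω ζ => F (insert e ω) ζ),
      ih F]
    set A1 := Ex E (p * θ) (fun ζ => Ex (E \ ζ) q (fun η => F (insert e (ζ ∪ η)) (insert e ζ)))
    set A2 := Ex E (p * θ) (fun ζ => Ex (E \ ζ) q (fun η => F (insert e (ζ ∪ η)) ζ))
    set A3 := Ex E (p * θ) (fun ζ => Ex (E \ ζ) q (fun η => F (ζ ∪ η) ζ))
    linear_combination (A3 - A2) * hq1

theorem Ex_mono_p {α : Type} [DecidableEq α] (E : Finset α) (p q : ℝ) (h0 : 0 ≤ p) (hpq : p ≤ q)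
    (h1 : q ≤ 1) (F : Finset α → ℝ) (hF : ∀ ω ω', ω ⊆ ω' → ω' ⊆ E → F ω ≤ F ω') :
    Ex E p F ≤ Ex E q F := by
  induction E using Finset.induction_on generalizing F with
  | empty => simp only [Ex_empty, le_refl]
  | insert e E he ih =>
    rw [Ex_insert e E he, Ex_insert e E he]
    have i1 := ih (fun ω => F (insert e ω)) (fun ω ω' h2 h3 =>
      hF _ _ (insert_subset_insert e h2) (insert_subset_insert e h3))
    have i0 := ih F (fun ω ω' h2 h3 => hF _ _ h2 (h3.trans (subset_insert e E)))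
    have hm : Ex E q F ≤ Ex E q (fun ω => F (insert e ω)) := by
      refine Ex_mono E q (h0.trans hpq) h1 _ _ fun ω hω => ?_
      exact hF _ _ (subset_insert e ω) (insert_subset_insert e hω)
    have hp1 : 0 ≤ 1 - p := by linarith
    have a1 := mul_le_mul_of_nonneg_left i1 h0
    have a2 := mul_le_mul_of_nonneg_left i0 hp1
    have a3 := mul_nonneg (sub_nonneg.2 hpq) (sub_nonneg.2 hm)
    nlinarith

end Pool.Agent.Work.MP_b7dc8a_pr
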