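import Pool.Agent.Work.MP_b7dc8a_pr.Base
import Pool.Agent.Work.MP_b7dc8a_pr.Bin

/-! Module LEVY (uses BIN)
LEVY: measure mu_n = sum of weights * dirac(Z_n w); ProbabilityMeasure.tendsto_iff_tendsto_charFun; portmanteau at Iic x (no atom);
 |Ex ind(Z'<=x) - Ex ind(Z<=x)| <= Ex ind(Z'<>Z).
-/

namespace Pool.Agent.Work.MP_b7dc8a_pr

open Finset Filter Topology

/-- the law of `Z` -/
noncomputable def levy_mu {α : Type} (E : Finset α) (p : ℝ) (Z : Finset α → ℝ) :
    MeasureTheory.Measure ℝ :=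
  ∑ ω ∈ E.powerset, ENNReal.ofReal (p ^ ω.card * (1 - p) ^ (E.card - ω.card)) •
    MeasureTheory.Measure.dirac (Z ω)

theorem levy_w_nonneg {α : Type} (E : Finset α) (p : ℝ) (h0 : 0 ≤ p) (h1 : p ≤ 1)
    (ω : Finset α) : 0 ≤ p ^ ω.card * (1 - p) ^ (E.card - ω.card) :=
  mul_nonneg (pow_nonneg h0 _) (pow_nonneg (by linarith) _)

theorem levy_mu_apply {α : Type} (E : Finset α) (p : ℝ) (h0 : 0 ≤ p) (h1 : p ≤ 1)
    (Z : Finset α → ℝ) (s : Set ℝ) (hs : MeasurableSet s) :
    levy_mu E p Z s = ENNReal.ofReal (Ex E p (fun ω => ind (Z ω ∈ s))) := by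
  classical
  unfold levy_mu Ex
  rw [MeasureTheory.Measure.finsetSum_apply, ENNReal.ofReal_sum_of_nonneg]
  · apply Finset.sum_congr rfl
    intro ω _
    rw [MeasureTheory.Measure.smul_apply, MeasureTheory.Measure.dirac_apply' _ hs, smul_eq_mul,
      ENNReal.ofReal_mul (levy_w_nonneg E p h0 h1 ω)]
    congr 1
    unfold ind
    by_cases h : Z ω ∈ s <;> simp [h]
  · intro ω _
    refine mul_nonneg (levy_w_nonneg E p h0 h1 ω) ?_
    simp only [ind]
    split_ifs <;> norm_num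

theorem levy_mu_prob {α : Type} (E : Finset α) (p : ℝ) (h0 : 0 ≤ p) (h1 : p ≤ 1)
    (Z : Finset α → ℝ) : MeasureTheory.IsProbabilityMeasure (levy_mu E p Z) := by
  refine ⟨?_⟩
  rw [levy_mu_apply E p h0 h1 Z _ MeasurableSet.univ]
  have : (fun ω : Finset α => ind (Z ω ∈ Set.univ)) = fun _ => (1 : ℝ) := by
    funext ω
    simp [ind]
  rw [this, Ex_const]
  simp

theorem levy_charFun {α : Type} (E : Finset α) (p : ℝ) (h0 : 0 ≤ p) (h1 : p ≤ 1)
    (Z : Finset α → ℝ) (t : ℝ) : MeasureTheory.charFun (levy_mu E p Z) t =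
      ExC E p (fun ω => Complex.exp (Complex.I * ((t * Z ω : ℝ) : ℂ))) := by
  rw [MeasureTheory.charFun_apply_real]
  unfold levy_mu ExC
  rw [MeasureTheory.integral_finsetSum_measure]
  · apply Finset.sum_congr rfl
    intro ω _
    rw [MeasureTheory.integral_smul_measure, MeasureTheory.integral_dirac,
      ENNReal.toReal_ofReal (levy_w_nonneg E p h0 h1 ω), Complex.real_smul]
    congr 2
    push_cast
    ring
  · intro ω _
    apply MeasureTheory.Integrable.smul_measure _ ENNReal.ofReal_ne_top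
    apply MeasureTheory.integrable_dirac
    simp

theorem levy (α : ℕ → Type) (E : ∀ n, Finset (α n)) (p : ℕ → ℝ)
    (hp : ∀ᶠ n in atTop, 0 ≤ p n ∧ p n ≤ 1) (Z Z' : ∀ n, Finset (α n) → ℝ)
    (hφ : ∀ t : ℝ, Tendsto (fun n => ExC (E n) (p n)
      (fun ω => Complex.exp (Complex.I * ((t * Z n ω : ℝ) : ℂ)))) atTop
      (𝓝 (Complex.exp ((-(t ^ 2 / 2) : ℝ) : ℂ))))
    (hZ : Tendsto (fun n => Ex (E n) (p n) (fun ω => ind (Z' n ω ≠ Z n ω))) atTop (𝓝 0))
    (x : ℝ) :
    Tendsto (fun n => Ex (E n) (p n) (fun ω => ind (Z' n ω ≤ x))) atTop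
      (𝓝 ((ProbabilityTheory.gaussianReal 0 1).real (Set.Iic x))) := by
  classical
  -- the laws
  let μ : ℕ → MeasureTheory.ProbabilityMeasure ℝ := fun n =>
    if h : 0 ≤ p n ∧ p n ≤ 1 then ⟨levy_mu (E n) (p n) (Z n), levy_mu_prob _ _ h.1 h.2 _⟩
    else ⟨MeasureTheory.Measure.dirac 0, inferInstance⟩
  have hμ : ∀ᶠ n in atTop, ((μ n : MeasureTheory.Measure ℝ) = levy_mu (E n) (p n) (Z n)) := by
    filter_upwards [hp] with n hn
    simp only [μ, dif_pos hn]
    rfl
  let μ₀ : MeasureTheory.ProbabilityMeasure ℝ := ⟨ProbabilityTheory.gaussianReal 0 1, inferInstance⟩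
  have hconv : Tendsto μ atTop (𝓝 μ₀) := by
    rw [MeasureTheory.ProbabilityMeasure.tendsto_iff_tendsto_charFun]
    intro t
    have h1 : MeasureTheory.charFun (μ₀ : MeasureTheory.Measure ℝ) t =
        Complex.exp ((-(t ^ 2 / 2) : ℝ) : ℂ) := by
      change MeasureTheory.charFun (ProbabilityTheory.gaussianReal 0 1) t = _
      rw [ProbabilityTheory.charFun_gaussianReal]
      congr 1
      push_cast
      ring
    rw [h1]
    refine (hφ t).congr' ?_
    filter_upwards [hμ, hp] with n hn hpn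
    rw [hn, levy_charFun _ _ hpn.1 hpn.2]
  have hfr : (μ₀ : MeasureTheory.Measure ℝ) (frontier (Set.Iic x)) = 0 := by
    rw [frontier_Iic]
    change ProbabilityTheory.gaussianReal 0 1 {x} = 0
    have := ProbabilityTheory.nullSingletonClass_gaussianReal (μ := 0) (v := 1) one_ne_zero
    exact MeasureTheory.measure_singleton x
  have hlim := MeasureTheory.ProbabilityMeasure.tendsto_measure_of_null_frontier_of_tendsto' hconv hfr
  have hlim2 : Tendsto (fun n => Ex (E n) (p n) (fun ω => ind (Z n ω ≤ x))) atTop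
      (𝓝 ((ProbabilityTheory.gaussianReal 0 1).real (Set.Iic x))) := by
    have h2 := (ENNReal.tendsto_toReal (MeasureTheory.measure_ne_top _ _)).comp hlim
    refine Tendsto.congr' ?_ h2
    filter_upwards [hμ, hp] with n hn hpn
    simp only [Function.comp]
    rw [hn, levy_mu_apply _ _ hpn.1 hpn.2 _ _ measurableSet_Iic, ENNReal.toReal_ofReal]
    · rfl
    · have h3 := Ex_mono (E n) (p n) hpn.1 hpn.2 (fun _ => 0) (fun ω => ind (Z n ω ∈ Set.Iic x))
        (fun ω _ => by unfold ind; split_ifs <;> norm_num)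
      rwa [Ex_const] at h3
  have hdiff : Tendsto (fun n => Ex (E n) (p n) (fun ω => ind (Z' n ω ≤ x)) -
      Ex (E n) (p n) (fun ω => ind (Z n ω ≤ x))) atTop (𝓝 0) := by
    apply squeeze_zero_norm' _ hZ
    filter_upwards [hp] with n hn
    rw [Real.norm_eq_abs, abs_le]
    have hpt : ∀ ω, ind (Z' n ω ≤ x) - ind (Z n ω ≤ x) ≤ ind (Z' n ω ≠ Z n ω) ∧
        ind (Z n ω ≤ x) - ind (Z' n ω ≤ x) ≤ ind (Z' n ω ≠ Z n ω) := by
      intro ω
      by_cases h : Z' n ω = Z n ω
      · simp [ind, h]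
      · unfold ind
        rw [if_pos (show Z' n ω ≠ Z n ω from h)]
        constructor <;> split_ifs <;> norm_num
    constructor
    · have h3 := Ex_mono (E n) (p n) hn.1 hn.2 _ _ (fun ω _ => (hpt ω).2)
      rw [Ex_sub] at h3
      linarith
    · have h3 := Ex_mono (E n) (p n) hn.1 hn.2 _ _ (fun ω _ => (hpt ω).1)
      rw [Ex_sub] at h3
      exact h3
  have := hdiff.add hlim2
  simpa using this

end Pool.Agent.Work.MP_b7dc8a_pr
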