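import Pool.Agent.Work.MP_b7dc8a_pr.Base
import Pool.Agent.Work.MP_b7dc8a_pr.Tilt
import Pool.Agent.Work.MP_b7dc8a_pr.Iso

/-! Module NUMS (numerical corollary, K = m^4)
NUMS: surv with L = 4(Nat.log 2 m+1), m'=m-L, iso.  
-/

namespace Pool.Agent.Work.MP_b7dc8a_pr

open Finset Filter Topology

/-- elementary numerical facts with `L = 4 (log2 m + 1)` -/
theorem nums_basic (m : ℕ) (hm : 3 ≤ m) (δ p : ℝ) (hδ : 2000 * Real.log m / m ≤ δ)
    (h1 : 1 + δ ≤ p * m) (h2 : p * m ≤ 5 / 4) :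
    1 ≤ Real.log m ∧ 8000 * Real.log m ≤ m ∧
      ((4 * (Nat.log 2 m + 1) : ℕ) : ℝ) + 1 ≤ 11 * Real.log m ∧
      m ^ 4 ≤ 2 ^ (4 * (Nat.log 2 m + 1)) ∧ 0 < p ∧
      p * (((4 * (Nat.log 2 m + 1) : ℕ) : ℝ) + 1) ≤ 2 / 3 * δ ∧ 2000 / (m : ℝ) ≤ δ := by
  have hm0 : (0 : ℝ) < m := by
    have : 0 < m := by omega
    exact_mod_cast this
  have hm3 : (3 : ℝ) ≤ m := by exact_mod_cast hm
  have hlog : 1 ≤ Real.log m := by
    rw [Real.le_log_iff_exp_le hm0]
    have := Real.exp_one_lt_d9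
    linarith
  have hδ1 : 2000 * Real.log m / m ≤ 1 / 4 := by linarith
  have hbig : 8000 * Real.log m ≤ m := by
    rw [div_le_iff₀ hm0] at hδ1
    nlinarith
  have hL : (Nat.log 2 m : ℝ) * Real.log 2 ≤ Real.log m := by
    have h3 : 2 ^ Nat.log 2 m ≤ m := Nat.pow_log_le_self 2 (by omega)
    have h4 : ((2 : ℝ) ^ Nat.log 2 m) ≤ m := by exact_mod_cast h3
    have h5 := Real.log_le_log (by positivity) h4
    rwa [Real.log_pow] at h5
  have hlog2 := Real.log_two_gt_d9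
  have hLb : (Nat.log 2 m : ℝ) ≤ 3 / 2 * Real.log m := by
    have h0 : (0 : ℝ) ≤ Nat.log 2 m := Nat.cast_nonneg _
    nlinarith
  have hL11 : ((4 * (Nat.log 2 m + 1) : ℕ) : ℝ) + 1 ≤ 11 * Real.log m := by
    push_cast
    linarith
  have hpow : m ^ 4 ≤ 2 ^ (4 * (Nat.log 2 m + 1)) := by
    have h3 : m < 2 ^ (Nat.log 2 m + 1) := Nat.lt_pow_succ_log_self (by norm_num) m
    rw [mul_comm 4, pow_mul]
    exact Nat.pow_le_pow_left h3.le 4
  have hδpos : 0 < δ := by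
    refine lt_of_lt_of_le ?_ hδ
    positivity
  have hp : 0 < p := by
    by_contra hc
    push Not at hc
    nlinarith
  have hδm : 2000 * Real.log m ≤ δ * m := by
    rwa [div_le_iff₀ hm0] at hδ
  have hpL : p * (((4 * (Nat.log 2 m + 1) : ℕ) : ℝ) + 1) ≤ 2 / 3 * δ := by
    have a1 : p * (((4 * (Nat.log 2 m + 1) : ℕ) : ℝ) + 1) ≤ p * (11 * Real.log m) :=
      mul_le_mul_of_nonneg_left hL11 hp.le
    have a2 : p * (11 * Real.log m) * m ≤ 2 / 3 * δ * m := by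
      have a3 : p * (11 * Real.log m) * m ≤ 5 / 4 * (11 * Real.log m) := by
        have := mul_le_mul_of_nonneg_right h2 (by positivity : 0 ≤ 11 * Real.log m)
        linarith
      nlinarith
    exact a1.trans (le_of_mul_le_mul_right a2 hm0)
  have hδ2 : 2000 / (m : ℝ) ≤ δ := by
    rw [div_le_iff₀ hm0]
    nlinarith
  exact ⟨hlog, hbig, hL11, hpow, hp, hpL, hδ2⟩

theorem num_surv : ∃ m0 : ℕ, ∀ m ≥ m0, ∀ δ p : ℝ, 2000 * Real.log m / m ≤ δ →
    1 + δ ≤ p * m → p * m ≤ 5 / 4 → ∀ x : Q m,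
    δ / 4 ≤ Ex (cubeE m) p (fun ω => ind (m ^ 4 < (cl ω x).card)) := by
  refine ⟨3, fun m hm δ p hδ h1 h2 x => ?_⟩
  obtain ⟨hlog, hbig, hL11, hpow, hp, hpL, hδ2⟩ := nums_basic m hm δ p hδ h1 h2
  set L := 4 * (Nat.log 2 m + 1) with hL
  have hm0 : (0 : ℝ) < m := by
    have : 0 < m := by omega
    exact_mod_cast this
  have hδpos : 0 < δ := lt_of_lt_of_le (by positivity) hδ2
  have hLm : L + 3 ≤ m := by
    have : (L : ℝ) + 3 ≤ m := by linarith
    exact_mod_cast this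
  have hcast : ((m - L : ℕ) : ℝ) = m - L := by rw [Nat.cast_sub (by omega)]
  have hpL' : p * L ≤ 2 / 3 * δ := by nlinarith
  have ha : p * (m - L : ℕ) = 1 + (p * (m - L : ℕ) - 1) := by ring
  have hval : p * ((m - L : ℕ) : ℝ) - 1 = p * m - p * L - 1 := by rw [hcast]; ring
  have hpL0 : 0 ≤ p * L := by positivity
  have hs := surv (cubeE m) x (m ^ 4) (m - L) (by omega) (p * (m - L : ℕ) - 1) p
    (by rw [hval]; linarith) (by rw [hval]; linarith) ha (by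
      intro A _ _ hA
      exact iso m L (by omega) A (hA.trans hpow))
  refine le_trans ?_ hs
  rw [hval]
  linarith

end Pool.Agent.Work.MP_b7dc8a_pr
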