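import Pool.Agent.Work.MP_b7dc8a_pr.Base
import Pool.Agent.Work.MP_b7dc8a_pr.Iso

/-! Module PATH (uses ISO) -/

namespace Pool.Agent.Work.MP_b7dc8a_pr

open Finset Filter Topology

private lemma path_step (m : ℕ) (x y : Q m) (k : ℕ) (h : hammingDist x y = k + 1) :
    ∃ z : Q m, hammingDist x z = k ∧ hammingDist z y = 1 ∧ ∃ i, y = Function.update z i (!z i) := by
  classical
  have hne : (univ.filter fun i => x i ≠ y i).Nonempty := by
    rw [← Finset.card_pos]
    have : (univ.filter fun i => x i ≠ y i).card = k + 1 := h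
    omega
  obtain ⟨i, hi⟩ := hne
  have hi' : x i ≠ y i := (Finset.mem_filter.mp hi).2
  refine ⟨Function.update y i (x i), ?_, ?_, i, ?_⟩
  · have h1 : (univ.filter fun j => x j ≠ Function.update y i (x i) j) =
        (univ.filter fun j => x j ≠ y j).erase i := by
      ext j
      by_cases hj : j = i
      · subst hj; simp
      · simp [hj]
    have h2 : (univ.filter fun j => x j ≠ Function.update y i (x i) j).card = k := by
      rw [h1, Finset.card_erase_of_mem hi]
      have : (univ.filter fun i => x i ≠ y i).card = k + 1 := h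
      omega
    exact h2
  · have h1 : (univ.filter fun j => Function.update y i (x i) j ≠ y j) = {i} := by
      ext j
      by_cases hj : j = i
      · subst hj; simp [hi']
      · simp [hj]
    have h2 : (univ.filter fun j => Function.update y i (x i) j ≠ y j).card = 1 := by
      rw [h1]; simp
    exact h2
  · funext j
    by_cases hj : j = i
    · subst hj
      simp
      revert hi'
      cases x j <;> cases y j <;> simp
    · simp [Function.update_of_ne hj]

theorem ball_card (m r : ℕ) (x : Q m) :
    (univ.filter fun y => hammingDist x y ≤ r).card ≤ (m + 1) ^ r := by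
  classical
  induction r with
  | zero =>
    have : (univ.filter fun y => hammingDist x y ≤ 0) ⊆ {x} := by
      intro y hy
      have h0 : hammingDist x y ≤ 0 := (Finset.mem_filter.mp hy).2
      have h1 : hammingDist x y = 0 := Nat.le_zero.mp h0
      rw [Finset.mem_singleton]
      exact (hammingDist_eq_zero.mp h1).symm
    calc _ ≤ ({x} : Finset (Q m)).card := Finset.card_le_card this
      _ = (m + 1) ^ 0 := by simp
  | succ r ih =>
    have hsub : (univ.filter fun y => hammingDist x y ≤ r + 1) ⊆
        ((univ.filter fun y => hammingDist x y ≤ r) ×ˢ (univ : Finset (Option (Fin m)))).image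
          (fun q => match q.2 with
            | none => q.1
            | some i => Function.update q.1 i (!q.1 i)) := by
      intro y hy
      have h0 : hammingDist x y ≤ r + 1 := (Finset.mem_filter.mp hy).2
      rw [Finset.mem_image]
      rcases Nat.lt_or_ge (hammingDist x y) (r + 1) with h1 | h1
      · refine ⟨(y, none), ?_, rfl⟩
        simp only [Finset.mem_product, Finset.mem_filter, Finset.mem_univ, true_and, and_true]
        omega
      · obtain ⟨z, hz, _, i, hi⟩ := path_step m x y r (le_antisymm h0 h1)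
        refine ⟨(z, some i), ?_, hi.symm⟩
        simp only [Finset.mem_product, Finset.mem_filter, Finset.mem_univ, true_and, and_true]
        omega
    calc _ ≤ _ := Finset.card_le_card hsub
      _ ≤ _ := Finset.card_image_le
      _ = (univ.filter fun y => hammingDist x y ≤ r).card * (m + 1) := by
          rw [Finset.card_product]; simp
      _ ≤ (m + 1) ^ r * (m + 1) := Nat.mul_le_mul_right _ ih
      _ = (m + 1) ^ (r + 1) := by rw [pow_succ]

private lemma path_mem_cubeE (m : ℕ) (x y : Q m) (h : hammingDist x y = 1) :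
    s(x, y) ∈ cubeE m := by
  unfold cubeE
  rw [SimpleGraph.mem_edgeFinset, SimpleGraph.mem_edgeSet]
  exact h

private lemma path_of_mem_cubeE (m : ℕ) (x y : Q m) (h : s(x, y) ∈ cubeE m) :
    hammingDist x y = 1 := by
  unfold cubeE at h
  rw [SimpleGraph.mem_edgeFinset, SimpleGraph.mem_edgeSet] at h
  exact h

private lemma path_reach_mono {V : Type} (P P' : Finset (Sym2 V)) (h : P ⊆ P') (a b : V)
    (hr : (SimpleGraph.fromEdgeSet (P : Set (Sym2 V))).Reachable a b) :
    (SimpleGraph.fromEdgeSet (P' : Set (Sym2 V))).Reachable a b :=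
  hr.mono (SimpleGraph.fromEdgeSet_mono (by exact_mod_cast h))

private lemma path_geod (m : ℕ) (k : ℕ) : ∀ x y : Q m, hammingDist x y = k →
    ∃ P : Finset (Sym2 (Q m)), P ⊆ cubeE m ∧ P.card ≤ k ∧
      (SimpleGraph.fromEdgeSet (P : Set (Sym2 (Q m)))).Reachable x y ∧
      ∀ e ∈ P, ∀ z ∈ e, hammingDist x z ≤ k := by
  classical
  induction k with
  | zero =>
    intro x y h
    have : x = y := hammingDist_eq_zero.mp h
    subst this
    exact ⟨∅, by simp, by simp, SimpleGraph.Reachable.refl _, by simp⟩
  | succ k ih =>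
    intro x y h
    obtain ⟨z, hz, hzy, _⟩ := path_step m x y k h
    obtain ⟨P, hP1, hP2, hP3, hP4⟩ := ih x z hz
    refine ⟨insert s(z, y) P, ?_, ?_, ?_, ?_⟩
    · intro e he
      rcases Finset.mem_insert.mp he with rfl | he
      · exact path_mem_cubeE m z y hzy
      · exact hP1 he
    · exact (Finset.card_insert_le _ _).trans (by omega)
    · refine (path_reach_mono P _ (Finset.subset_insert _ _) x z hP3).trans ?_
      apply SimpleGraph.Adj.reachable
      rw [SimpleGraph.fromEdgeSet_adj]
      refine ⟨by simp, ?_⟩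
      rintro rfl
      rw [hammingDist_self] at hzy
      omega
    · intro e he w hw
      rcases Finset.mem_insert.mp he with rfl | he
      · rcases Sym2.mem_iff.mp hw with rfl | rfl
        · omega
        · omega
      · exact (hP4 e he w hw).trans (Nat.le_succ _)

private lemma path_deg (m : ℕ) (u : Q m) :
    (univ.filter fun v => hammingDist u v = 1).card ≤ m + 1 := by
  classical
  have h := ball_card m 1 u
  calc _ ≤ (univ.filter fun y => hammingDist u y ≤ 1).card := by
        apply Finset.card_le_card
        intro v hv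
        rw [Finset.mem_filter] at hv ⊢
        exact ⟨hv.1, hv.2.le⟩
    _ ≤ (m + 1) ^ 1 := h
    _ = m + 1 := by simp

private lemma path_mem_bd {V : Type} (E : Finset (Sym2 V)) (A : Finset V) (e : Sym2 V) :
    e ∈ bd E A ↔ e ∈ E ∧ ∃ x ∈ A, ∃ y, y ∉ A ∧ e = s(x, y) := by
  simp only [bd, Finset.mem_filter]

private lemma path_maximal {α β : Type} [DecidableEq α] (B : Finset α)
    (P : α → Finset β) : ∃ S ⊆ B, (∀ e ∈ S, ∀ e' ∈ S, e ≠ e' → Disjoint (P e) (P e')) ∧
      ∀ e' ∈ B, e' ∉ S → ∃ e ∈ S, ¬ Disjoint (P e) (P e') := by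
  obtain ⟨good, hgood⟩ : ∃ good : Finset α → Prop, ∀ S, good S ↔
      ∀ e ∈ S, ∀ e' ∈ S, e ≠ e' → Disjoint (P e) (P e') := ⟨_, fun _ => Iff.rfl⟩
  have : DecidablePred good := Classical.decPred _
  have hfin : ((B.powerset).filter good).Nonempty :=
    ⟨∅, by rw [Finset.mem_filter, hgood]; simp⟩
  obtain ⟨S, hS, hmax⟩ := Finset.exists_max_image _ Finset.card hfin
  rw [Finset.mem_filter, Finset.mem_powerset, hgood] at hS
  refine ⟨S, hS.1, hS.2, ?_⟩
  intro e' he' hn
  by_contra hcon
  push Not at hcon
  have h1 : insert e' S ∈ ((B.powerset).filter good) := by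
    rw [Finset.mem_filter, Finset.mem_powerset, hgood]
    refine ⟨Finset.insert_subset he' hS.1, ?_⟩
    intro a ha b hb hab
    rcases Finset.mem_insert.mp ha with ha1 | ha1
    · rcases Finset.mem_insert.mp hb with hb1 | hb1
      · exact absurd (ha1.trans hb1.symm) hab
      · rw [ha1]
        exact (hcon b hb1).symm
    · rcases Finset.mem_insert.mp hb with hb1 | hb1
      · rw [hb1]
        exact hcon a ha1
      · exact hS.2 a ha1 b hb1 hab
  have h2 := hmax _ h1
  rw [Finset.card_insert_of_notMem hn] at h2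
  omega

private lemma path_bd_compl (m : ℕ) (A : Finset (Q m)) :
    bd (cubeE m) Aᶜ = bd (cubeE m) A := by
  ext e
  rw [path_mem_bd, path_mem_bd]
  simp only [Finset.mem_compl, not_not]
  constructor
  · rintro ⟨h, x, hx, y, hy, rfl⟩
    exact ⟨h, y, hy, x, hx, Sym2.eq_swap⟩
  · rintro ⟨h, x, hx, y, hy, rfl⟩
    exact ⟨h, y, hy, x, hx, Sym2.eq_swap⟩

theorem paths (m l : ℕ) (hm : 1 ≤ m) (W A : Finset (Q m)) (hAW : A ⊆ W)
    (hA : A.card ≤ (W \ A).card) (hW : ∀ v, ∃ w ∈ W, hammingDist v w ≤ l) :
    ∃ PP : Finset (Finset (Sym2 (Q m))),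
      (∀ P ∈ PP, P ⊆ cubeE m ∧ P.card ≤ 2 * l + 1 ∧ ∃ a ∈ A, ∃ b ∈ W \ A,
        (SimpleGraph.fromEdgeSet (P : Set (Sym2 (Q m)))).Reachable a b) ∧
      (∀ P ∈ PP, ∀ P' ∈ PP, P ≠ P' → Disjoint P P') ∧
      A.card ≤ PP.card * (m + 1) ^ (2 * l + 4) := by
  classical
  -- the projection
  have hν : ∃ ν : Q m → Q m, (∀ w ∈ W, ν w = w) ∧ ∀ v, ν v ∈ W ∧ hammingDist v (ν v) ≤ l := by
    choose f hf using hW
    refine ⟨fun v => if v ∈ W then v else f v, fun w hw => by simp [hw], fun v => ?_⟩
    by_cases hv : v ∈ W
    · simp [hv]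
    · simp only [hv, if_false]
      exact ⟨(hf v).1, (hf v).2⟩
  obtain ⟨ν, hν1, hν2⟩ := hν
  set AA : Finset (Q m) := univ.filter fun v => ν v ∈ A with hAA
  have hAAA : A ⊆ AA := by
    intro a ha
    rw [hAA, Finset.mem_filter]
    exact ⟨Finset.mem_univ _, by rw [hν1 a (hAW ha)]; exact ha⟩
  have hWA : W \ A ⊆ AAᶜ := by
    intro w hw
    rw [Finset.mem_sdiff] at hw
    rw [Finset.mem_compl, hAA, Finset.mem_filter]
    rintro ⟨_, h⟩
    rw [hν1 w hw.1] at h
    exact hw.2 h
  have hcard : AA.card + AAᶜ.card = 2 ^ m := by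
    rw [Finset.card_add_card_compl]
    simp
  have h2m : 2 ^ m = 2 * 2 ^ (m - 1) := by
    conv_lhs => rw [show m = (m - 1) + 1 by omega]
    rw [pow_succ]; ring
  have hbd : A.card ≤ (bd (cubeE m) AA).card := by
    rcases Nat.lt_or_ge (2 ^ (m - 1)) AA.card with h | h
    · have h1 : AAᶜ.card ≤ 2 ^ (m - 1) := by omega
      have h2 := iso m (m - 1) (by omega) AAᶜ h1
      rw [path_bd_compl, show m - (m - 1) = 1 by omega, mul_one] at h2
      exact hA.trans ((Finset.card_le_card hWA).trans h2)
    · have h2 := iso m (m - 1) (by omega) AA h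
      rw [show m - (m - 1) = 1 by omega, mul_one] at h2
      exact (Finset.card_le_card hAAA).trans h2
  -- the path attached to a boundary edge
  have hP : ∀ e : Sym2 (Q m), ∃ (P : Finset (Sym2 (Q m))) (u v : Q m), e ∈ bd (cubeE m) AA →
      e = s(u, v) ∧ hammingDist u v = 1 ∧ e ∈ P ∧ P ⊆ cubeE m ∧ P.card ≤ 2 * l + 1 ∧
      (∃ a ∈ A, ∃ b ∈ W \ A, (SimpleGraph.fromEdgeSet (P : Set (Sym2 (Q m)))).Reachable a b) ∧
      ∀ f ∈ P, ∀ z ∈ f, hammingDist u z ≤ l + 1 := by
    intro e
    by_cases he : e ∈ bd (cubeE m) AA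
    · rw [path_mem_bd] at he
      obtain ⟨he1, u, hu, v, hv, rfl⟩ := he
      have huv : hammingDist u v = 1 := path_of_mem_cubeE m u v he1
      obtain ⟨P1, hP11, hP12, hP13, hP14⟩ := path_geod m _ u (ν u) rfl
      obtain ⟨P2, hP21, hP22, hP23, hP24⟩ := path_geod m _ v (ν v) rfl
      refine ⟨insert s(u, v) (P1 ∪ P2), u, v, fun _ => ⟨rfl, huv, by simp, ?_, ?_, ?_, ?_⟩⟩
      · intro f hf
        rcases Finset.mem_insert.mp hf with rfl | hf
        · exact he1
        · rcases Finset.mem_union.mp hf with hf | hf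
          · exact hP11 hf
          · exact hP21 hf
      · have h1 := (hν2 u).2
        have h2 := (hν2 v).2
        calc _ ≤ (P1 ∪ P2).card + 1 := Finset.card_insert_le _ _
          _ ≤ P1.card + P2.card + 1 := by
              have := Finset.card_union_le P1 P2
              omega
          _ ≤ 2 * l + 1 := by omega
      · refine ⟨ν u, ?_, ν v, ?_, ?_⟩
        · rw [hAA, Finset.mem_filter] at hu
          exact hu.2
        · rw [hAA, Finset.mem_filter] at hv
          rw [Finset.mem_sdiff]
          refine ⟨(hν2 v).1, fun h => hv ⟨Finset.mem_univ _, h⟩⟩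
        · have h1 := path_reach_mono P1 (insert s(u, v) (P1 ∪ P2))
            ((Finset.subset_union_left).trans (Finset.subset_insert _ _)) _ _ hP13
          have h2 := path_reach_mono P2 (insert s(u, v) (P1 ∪ P2))
            ((Finset.subset_union_right).trans (Finset.subset_insert _ _)) _ _ hP23
          refine h1.symm.trans (SimpleGraph.Reachable.trans ?_ h2)
          apply SimpleGraph.Adj.reachable
          rw [SimpleGraph.fromEdgeSet_adj]
          refine ⟨by simp, ?_⟩
          rintro rfl
          rw [hammingDist_self] at huv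
          omega
      · intro f hf z hz
        have h1 := (hν2 u).2
        have h2 := (hν2 v).2
        rcases Finset.mem_insert.mp hf with rfl | hf
        · rcases Sym2.mem_iff.mp hz with rfl | rfl
          · rw [hammingDist_self]; omega
          · omega
        · rcases Finset.mem_union.mp hf with hf | hf
          · have := hP14 f hf z hz
            omega
          · have h3 := hP24 f hf z hz
            have h4 := hammingDist_triangle u v z
            omega
    · exact ⟨∅, fun _ => false, fun _ => false, fun h => absurd h he⟩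
  choose P u v hPe using hP
  obtain ⟨S, hS1, hS2, hS3⟩ := path_maximal (bd (cubeE m) AA) P
  refine ⟨S.image P, ?_, ?_, ?_⟩
  · intro R hR
    obtain ⟨e, he, rfl⟩ := Finset.mem_image.mp hR
    obtain ⟨_, _, _, h4, h5, h6, _⟩ := hPe e (hS1 he)
    exact ⟨h4, h5, h6⟩
  · intro R hR R' hR' hne
    obtain ⟨e, he, rfl⟩ := Finset.mem_image.mp hR
    obtain ⟨e', he', rfl⟩ := Finset.mem_image.mp hR'
    exact hS2 e he e' he' (fun h => hne (by rw [h]))
  · have hinj : Set.InjOn P (S : Set (Sym2 (Q m))) := by
      intro e he e' he' heq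
      by_contra hne
      have h1 := hS2 e he e' he' hne
      have h2 : e ∈ P e := (hPe e (hS1 he)).2.2.1
      rw [← heq] at h1
      exact (Finset.disjoint_left.mp h1 h2) h2
    rw [Finset.card_image_of_injOn hinj]
    -- every boundary edge conflicts with an element of S
    have hcov : bd (cubeE m) AA ⊆ S.biUnion fun e =>
        (((univ.filter fun y => hammingDist (u e) y ≤ 2 * l + 2).biUnion fun y =>
          (univ.filter fun z => hammingDist y z = 1).image fun z => s(y, z))) := by
      intro e' he'
      rw [Finset.mem_biUnion]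
      have hex : ∃ e ∈ S, ¬ Disjoint (P e) (P e') := by
        by_cases h : e' ∈ S
        · refine ⟨e', h, ?_⟩
          intro hd
          have h2 : e' ∈ P e' := (hPe e' he').2.2.1
          exact (Finset.disjoint_left.mp hd h2) h2
        · exact hS3 e' he' h
      obtain ⟨e, he, hd⟩ := hex
      refine ⟨e, he, ?_⟩
      rw [Finset.not_disjoint_iff] at hd
      obtain ⟨f, hf1, hf2⟩ := hd
      obtain ⟨a, b, rfl⟩ : ∃ a b, f = s(a, b) := by
        induction f using Sym2.ind with
        | _ a b => exact ⟨a, b, rfl⟩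
      have h1 := (hPe e (hS1 he)).2.2.2.2.2.2 _ hf1 a (by simp)
      have h2 := (hPe e' he').2.2.2.2.2.2 _ hf2 a (by simp)
      rw [Finset.mem_biUnion]
      refine ⟨u e', ?_, ?_⟩
      · rw [Finset.mem_filter]
        refine ⟨Finset.mem_univ _, ?_⟩
        have h3 := hammingDist_triangle (u e) a (u e')
        rw [hammingDist_comm a (u e')] at h3
        omega
      · rw [Finset.mem_image]
        refine ⟨v e', ?_, (hPe e' he').1.symm⟩
        rw [Finset.mem_filter]
        exact ⟨Finset.mem_univ _, (hPe e' he').2.1⟩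
    calc A.card ≤ (bd (cubeE m) AA).card := hbd
      _ ≤ _ := Finset.card_le_card hcov
      _ ≤ ∑ e ∈ S, ((univ.filter fun y => hammingDist (u e) y ≤ 2 * l + 2).biUnion fun y =>
          (univ.filter fun z => hammingDist y z = 1).image fun z => s(y, z)).card :=
            Finset.card_biUnion_le
      _ ≤ ∑ e ∈ S, (m + 1) ^ (2 * l + 4) := by
          apply Finset.sum_le_sum
          intro e _
          calc _ ≤ ∑ y ∈ univ.filter (fun y => hammingDist (u e) y ≤ 2 * l + 2),
                ((univ.filter fun z => hammingDist y z = 1).image fun z => s(y, z)).card :=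
                  Finset.card_biUnion_le
            _ ≤ ∑ y ∈ univ.filter (fun y => hammingDist (u e) y ≤ 2 * l + 2), (m + 1) := by
                apply Finset.sum_le_sum
                intro y _
                exact Finset.card_image_le.trans (path_deg m y)
            _ = (univ.filter (fun y => hammingDist (u e) y ≤ 2 * l + 2)).card * (m + 1) := by
                rw [Finset.sum_const, smul_eq_mul]
            _ ≤ (m + 1) ^ (2 * l + 2) * (m + 1) := Nat.mul_le_mul_right _ (ball_card m _ _)
            _ = (m + 1) ^ (2 * l + 3) := by rw [← pow_succ]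
            _ ≤ (m + 1) ^ (2 * l + 4) := Nat.pow_le_pow_right (by omega) (by omega)
      _ = S.card * (m + 1) ^ (2 * l + 4) := by rw [Finset.sum_const, smul_eq_mul]

end Pool.Agent.Work.MP_b7dc8a_pr
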