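import Pool.Agent.Work.MP_b7dc8a_pr.Base
import Pool.Agent.Work.MP_b7dc8a_pr.Bin
import Pool.Agent.Work.MP_b7dc8a_pr.Clb
import Pool.Agent.Work.MP_b7dc8a_pr.Tilt
import Pool.Agent.Work.MP_b7dc8a_pr.Iso
import Pool.Agent.Work.MP_b7dc8a_pr.Path

/-! Module DENS (uses BIN, CLB, TILT (tilt), ISO, PATH (ball_card)), NEW STATEMENT (idea: helper27)
ball_lower: the vertices `flip v I`, I in powersetCard r univ, are distinct and at distance r from v.
dens: X := ball of radius r round v, N = |X| >= m choose r, N <= (m+1)^r (ball_card). On the event, the cluster set A = cls w X has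
 k := |A| <= N 2^L <= 2^L' (union over x in X of cl w x), so |bd (cubeE m) A| >= k (m - L') >= k m' (iso).
 tilt with a := 1/(1+a), b := (1 - 1/m')/(1 - p) (b >= 1 since p >= 1/m'; p a + (1-p) b = 1): Ex [ (1+a)^-(k-N) b^|bd| ] <= 1.
 b^m' >= exp a: -ln(1-y) has derivative >= 1, so ln b = -ln(1-p) + ln(1-1/m') >= p - 1/m' = a/m'. Hence on the event
 (1+a)^-(k-N) b^|bd| >= exp(-a(k-N)) exp(a k) = exp(a N), and the probability is <= exp(-a N).
-/

namespace Pool.Agent.Work.MP_b7dc8a_pr

open Finset Filter Topology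

theorem dens_ind_nonneg (P : Prop) : 0 ≤ ind P := by
  classical
  unfold ind
  split_ifs <;> norm_num

theorem dens_ind_true {P : Prop} (h : P) : ind P = 1 := by
  classical
  unfold ind
  rw [if_pos h]

theorem dens_ind_false {P : Prop} (h : ¬ P) : ind P = 0 := by
  classical
  unfold ind
  rw [if_neg h]

theorem dens_p_bd {m' : ℕ} (hm' : 2 ≤ m') {a p : ℝ} (ha : 0 < a)
    (ha1 : a ≤ 1 / 2) (hp : p * m' = 1 + a) : 0 < p ∧ p < 1 := by
  have hm2 : (2 : ℝ) ≤ m' := by exact_mod_cast hm'
  have hm0 : (0 : ℝ) < m' := by linarith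
  have hpeq : p = (1 + a) / m' := by
    rw [eq_div_iff hm0.ne']; exact hp
  constructor
  · rw [hpeq]; positivity
  · rw [hpeq, div_lt_one hm0]; linarith

theorem dens_flip_ne {m : ℕ} (v : Q m) (I : Finset (Fin m)) (i : Fin m) :
    v i ≠ flip v I i ↔ i ∈ I := by
  unfold flip
  by_cases h : i ∈ I
  · simp only [h, decide_true, iff_true]
    cases v i <;> simp
  · simp only [h, decide_false, iff_false]
    cases v i <;> simp

theorem dens_hamming_flip {m : ℕ} (v : Q m) (I : Finset (Fin m)) :
    hammingDist v (flip v I) = I.card := by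
  unfold hammingDist
  congr 1
  ext i
  rw [Finset.mem_filter]
  constructor
  · exact fun h => (dens_flip_ne v I i).mp h.2
  · exact fun h => ⟨Finset.mem_univ _, (dens_flip_ne v I i).mpr h⟩

theorem dens_flip_inj {m : ℕ} (v : Q m) : Function.Injective (fun I : Finset (Fin m) => flip v I) := by
  intro I J h
  ext i
  rw [← dens_flip_ne v I i, ← dens_flip_ne v J i]
  have h2 : flip v I i = flip v J i := congrFun h i
  rw [h2]

theorem ball_lower (m r : ℕ) (v : Q m) :
    m.choose r ≤ (univ.filter fun w : Q m => hammingDist v w ≤ r).card := by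
  have h1 : ((univ : Finset (Fin m)).powersetCard r).card = m.choose r := by
    rw [Finset.card_powersetCard, Finset.card_univ, Fintype.card_fin]
  rw [← h1, ← Finset.card_image_of_injective _ (dens_flip_inj v)]
  apply Finset.card_le_card
  intro w hw
  rw [Finset.mem_image] at hw
  obtain ⟨I, hI, rfl⟩ := hw
  rw [Finset.mem_filter]
  refine ⟨Finset.mem_univ _, ?_⟩
  rw [dens_hamming_flip, (Finset.mem_powersetCard.mp hI).2]

theorem dens_cls_card {V : Type} [Fintype V] (ω : Finset (Sym2 V)) (X : Finset V) (s : ℕ)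
    (h : ∀ x ∈ X, (cl ω x).card ≤ s) : (cls ω X).card ≤ X.card * s := by
  classical
  have h1 : cls ω X ⊆ X.biUnion (fun x => cl ω x) := by
    intro y hy
    unfold cls at hy
    rw [Finset.mem_filter] at hy
    obtain ⟨_, x, hx, hr⟩ := hy
    rw [Finset.mem_biUnion]
    refine ⟨x, hx, ?_⟩
    unfold cl
    rw [Finset.mem_filter]
    exact ⟨Finset.mem_univ _, hr⟩
  exact (Finset.card_le_card h1).trans (Finset.card_biUnion_le_card_mul _ _ _ h)

theorem dens (m r L L' m' : ℕ) (hm' : 2 ≤ m') (h : m' + L' ≤ m) (hL : (m + 1) ^ r * 2 ^ L ≤ 2 ^ L')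
    (a p : ℝ) (ha : 0 < a) (ha1 : a ≤ 1 / 2) (hp : p * m' = 1 + a) (v : Q m) :
    Ex (cubeE m) p (fun ω => ind (∀ w, hammingDist v w ≤ r → (cl ω w).card ≤ 2 ^ L)) ≤
      Real.exp (-(a * (m.choose r))) := by
  classical
  obtain ⟨hp0, hp1⟩ := dens_p_bd hm' ha ha1 hp
  have hm2 : (2 : ℝ) ≤ m' := by exact_mod_cast hm'
  have hm0 : (0 : ℝ) < m' := by linarith
  have hpeq : p = (1 + a) / m' := by
    rw [eq_div_iff hm0.ne']; exact hp
  set X : Finset (Q m) := univ.filter fun w : Q m => hammingDist v w ≤ r with hX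
  set p' : ℝ := 1 / m' with hp'
  have hp'0 : 0 ≤ p' := by positivity
  have hpp : p' ≤ p := by
    rw [hpeq, hp']
    apply div_le_div_of_nonneg_right _ hm0.le
    linarith
  set A : ℝ := p' / p with hA
  set B : ℝ := (1 - p') / (1 - p) with hB
  have h1p : 0 < 1 - p := by linarith
  have hA0 : 0 < A := by
    rw [hA, hp']; positivity
  have hAeq : A = (1 + a)⁻¹ := by
    rw [hA, hp', hpeq]
    field_simp
  have hBexp : Real.exp (a / m') ≤ B := by
    have h := tilt_b p p' hp'0 hpp hp1
    have e : p - p' = a / m' := by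
      rw [hpeq, hp']; ring
    rwa [e] at h
  have hB1 : 1 ≤ B := by
    refine le_trans ?_ hBexp
    exact Real.one_le_exp (by positivity)
  have hAB : p * A + (1 - p) * B = 1 := by
    rw [hA, hB, mul_div_cancel₀ _ hp0.ne', mul_div_cancel₀ _ h1p.ne']
    ring
  have hexp : ∀ k : ℕ, Real.exp (a * k) = (Real.exp (a / m')) ^ (k * m') := by
    intro k
    rw [← Real.exp_nat_mul]
    congr 1
    push_cast
    field_simp
  have ht := tilt (cubeE m) X p A B hp0.le hp1.le hA0.le hB1 hAB
  -- on the event the weight is at least exp (a N)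
  have hw : Real.exp (a * X.card) * Ex (cubeE m) p
      (fun ω => ind (∀ w, hammingDist v w ≤ r → (cl ω w).card ≤ 2 ^ L)) ≤ 1 := by
    rw [← Ex_mul_left]
    refine le_trans ?_ ht
    apply Ex_mono (cubeE m) p hp0.le hp1.le
    intro ω _
    by_cases hev : ∀ w, hammingDist v w ≤ r → (cl ω w).card ≤ 2 ^ L
    · rw [dens_ind_true hev, mul_one]
      have hXk : X.card ≤ (cls ω X).card := Finset.card_le_card (subset_cls ω X)
      have hcard : (cls ω X).card ≤ 2 ^ L' := by
        refine (dens_cls_card ω X (2 ^ L) ?_).trans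
          ((Nat.mul_le_mul_right _ (ball_card m r v)).trans hL)
        intro x hx
        exact hev x (Finset.mem_filter.mp hx).2
      have hiso := iso m L' (by omega) (cls ω X) hcard
      have hbd : (cls ω X).card * m' ≤ (bd (cubeE m) (cls ω X)).card :=
        (Nat.mul_le_mul_left _ (by omega)).trans hiso
      obtain ⟨n, hn⟩ := Nat.exists_eq_add_of_le hXk
      have e1 : (cls ω X).card - X.card = n := by omega
      have h3 : Real.exp (a * (cls ω X).card) ≤ B ^ (bd (cubeE m) (cls ω X)).card := by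
        rw [hexp (cls ω X).card]
        exact (pow_le_pow_left₀ (Real.exp_pos _).le hBexp _).trans
          (pow_le_pow_right₀ hB1 hbd)
      have h5 : (Real.exp (a * n))⁻¹ ≤ A ^ n := by
        rw [hAeq, inv_pow]
        apply inv_anti₀ (by positivity)
        have h6 : Real.exp (a * n) = (Real.exp a) ^ n := by
          rw [← Real.exp_nat_mul]
          congr 1
          ring
        rw [h6]
        apply pow_le_pow_left₀ (by positivity)
        have := Real.add_one_le_exp a
        linarith
      have h7 : Real.exp (a * X.card) =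
          (Real.exp (a * n))⁻¹ * Real.exp (a * (cls ω X).card) := by
        rw [← Real.exp_neg, ← Real.exp_add]
        congr 1
        rw [hn]
        push_cast
        ring
      rw [h7, e1]
      exact mul_le_mul h5 h3 (Real.exp_pos _).le (by positivity)
    · rw [dens_ind_false hev, mul_zero]
      positivity
  have h8 : Ex (cubeE m) p
      (fun ω => ind (∀ w, hammingDist v w ≤ r → (cl ω w).card ≤ 2 ^ L)) ≤
      Real.exp (-(a * X.card)) := by
    rw [Real.exp_neg, ← one_div, le_div_iff₀ (Real.exp_pos _), mul_comm]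
    exact hw
  refine h8.trans ?_
  apply Real.exp_le_exp.mpr
  have h9 : ((m.choose r : ℕ) : ℝ) ≤ (X.card : ℝ) := by exact_mod_cast ball_lower m r v
  have := mul_le_mul_of_nonneg_left h9 ha.le
  linarith

end Pool.Agent.Work.MP_b7dc8a_pr
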