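import Pool.Agent.Work.MP_b7dc8a_pr.Base
import Pool.Agent.Work.MP_b7dc8a_pr.Tilt
import Pool.Agent.Work.MP_b7dc8a_pr.Iso

/-! Module GAP (uses BIN, TILT, ISO)
GAP: union over x and k in (M, 2^L], small_prob with ISO.
-/

namespace Pool.Agent.Work.MP_b7dc8a_pr

open Finset Filter Topology

theorem gap (m L m' M : ℕ) (hm' : 2 ≤ m') (h : m' + L ≤ m) (a p : ℝ) (ha : 0 < a)
    (ha1 : a ≤ 1 / 2) (hp : p * m' = 1 + a) :
    Ex (cubeE m) p (fun ω => ind (∃ x, M < (cl ω x).card ∧ (cl ω x).card ≤ 2 ^ L)) ≤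
      2 ^ m * 2 ^ L * Real.exp (-(M * a ^ 2 / 6)) := by
  classical
  have hm2 : (2 : ℝ) ≤ m' := by exact_mod_cast hm'
  have hm0 : (0 : ℝ) < m' := by linarith
  have hpeq : p = (1 + a) / m' := by
    rw [eq_div_iff hm0.ne']
    exact hp
  have hp0 : 0 ≤ p := by
    rw [hpeq]
    positivity
  have hp1 : p ≤ 1 := by
    rw [hpeq, div_le_one hm0]
    linarith
  have hpt : ∀ ω ⊆ cubeE m, ind (∃ x, M < (cl ω x).card ∧ (cl ω x).card ≤ 2 ^ L) ≤
      ∑ x : Q m, ∑ k ∈ Finset.Ioc M (2 ^ L), ind ((cl ω x).card = k) := by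
    intro ω _
    have h0 : ∀ (P : Prop), 0 ≤ ind P := by
      intro P
      unfold ind
      split_ifs <;> norm_num
    refine tilt_ind_le (Finset.sum_nonneg fun x _ => Finset.sum_nonneg fun k _ => h0 _) ?_
    rintro ⟨x, hx1, hx2⟩
    have h1 : (1 : ℝ) = ind ((cl ω x).card = (cl ω x).card) := by
      unfold ind
      rw [if_pos rfl]
    rw [h1]
    refine le_trans ?_ (Finset.single_le_sum (f := fun x : Q m =>
      ∑ k ∈ Finset.Ioc M (2 ^ L), ind ((cl ω x).card = k))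
      (fun x _ => Finset.sum_nonneg fun k _ => h0 _) (Finset.mem_univ x))
    exact Finset.single_le_sum (f := fun k => ind ((cl ω x).card = k)) (fun k _ => h0 _)
      (Finset.mem_Ioc.2 ⟨hx1, hx2⟩)
  refine (Ex_mono _ p hp0 hp1 _ _ hpt).trans ?_
  rw [Ex_sum]
  have hx : ∀ x : Q m, Ex (cubeE m) p (fun ω => ∑ k ∈ Finset.Ioc M (2 ^ L), ind ((cl ω x).card = k)) ≤
      2 ^ L * Real.exp (-(M * a ^ 2 / 6)) := by
    intro x
    rw [Ex_sum]
    have hk : ∀ k ∈ Finset.Ioc M (2 ^ L), Ex (cubeE m) p (fun ω => ind ((cl ω x).card = k)) ≤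
        Real.exp (-(M * a ^ 2 / 6)) := by
      intro k hk
      rw [Finset.mem_Ioc] at hk
      refine (small_prob (cubeE m) x k m' hm' a p ha ha1 hp ?_).trans ?_
      · intro A _ _ hAk
        have h1 := iso m L (by omega) A (by omega)
        rw [hAk] at h1
        exact (Nat.mul_le_mul_left k (by omega : m' ≤ m - L)).trans h1
      · rw [Real.exp_le_exp]
        have h1 : (M : ℝ) ≤ k := by exact_mod_cast hk.1.le
        have h2 : 0 ≤ a ^ 2 := sq_nonneg a
        nlinarith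
    refine (Finset.sum_le_card_nsmul _ _ _ hk).trans ?_
    rw [nsmul_eq_mul]
    refine mul_le_mul_of_nonneg_right ?_ (Real.exp_pos _).le
    rw [Nat.card_Ioc]
    have : 2 ^ L - M ≤ 2 ^ L := Nat.sub_le _ _
    exact_mod_cast this
  refine (Finset.sum_le_card_nsmul _ _ _ fun x _ => hx x).trans ?_
  rw [nsmul_eq_mul, Finset.card_univ]
  have hc : Fintype.card (Q m) = 2 ^ m := by
    simp [Q]
  rw [hc]
  push_cast
  rw [mul_assoc]

end Pool.Agent.Work.MP_b7dc8a_pr
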