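import Pool.Agent.Work.MP_b7dc8a_pr.Base
import Pool.Agent.Work.MP_b7dc8a_pr.Bin
import Pool.Agent.Work.MP_b7dc8a_pr.Clb
import Pool.Agent.Work.MP_b7dc8a_pr.Path

/-! Module SPR (uses BIN, CLB, PATH) -/

namespace Pool.Agent.Work.MP_b7dc8a_pr

open Finset Filter Topology

private lemma spr_ind_true {P : Prop} (h : P) : ind P = 1 := by simp [ind, h]

private lemma spr_ind_false {P : Prop} (h : ¬ P) : ind P = 0 := by simp [ind, h]

private lemma spr_ind_nonneg (P : Prop) : 0 ≤ ind P := by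
  by_cases h : P
  · rw [spr_ind_true h]; norm_num
  · rw [spr_ind_false h]

private lemma spr_ind_congr {P R : Prop} (h : P ↔ R) : ind P = ind R := by
  rw [propext h]

private lemma spr_ind_not (P : Prop) : ind (¬ P) = 1 - ind P := by
  by_cases h : P
  · rw [spr_ind_true h, spr_ind_false (not_not.mpr h)]; norm_num
  · rw [spr_ind_true h, spr_ind_false h]; norm_num

private lemma spr_ind_forall {ι : Type*} (I : Finset ι) (R : ι → Prop) :
    ind (∀ i ∈ I, R i) = ∏ i ∈ I, ind (R i) := by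
  by_cases h : ∀ i ∈ I, R i
  · rw [spr_ind_true h]
    symm
    exact Finset.prod_eq_one fun i hi => spr_ind_true (h i hi)
  · rw [spr_ind_false h]
    push Not at h
    obtain ⟨i, hi, hR⟩ := h
    exact (Finset.prod_eq_zero hi (spr_ind_false hR)).symm

private lemma spr_all_open {α : Type} [DecidableEq α] (E A : Finset α) (hA : A ⊆ E) (p : ℝ) :
    Ex E p (fun ω => ind (A ⊆ ω)) = p ^ A.card := by
  have h1 : Ex E p (fun ω => ind (A ⊆ ω)) = Ex A p (fun ω => ind (A ⊆ ω)) := by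
    rw [← Ex_restrict E A hA p (fun ω => ind (A ⊆ ω))]
    apply Ex_congr
    intro ω _
    apply spr_ind_congr
    constructor
    · intro h
      exact Finset.subset_inter h (Finset.Subset.refl _)
    · intro h
      exact h.trans Finset.inter_subset_left
  rw [h1]
  unfold Ex
  rw [Finset.sum_eq_single A]
  · show p ^ A.card * (1 - p) ^ (A.card - A.card) * ind (A ⊆ A) = p ^ A.card
    rw [spr_ind_true (Finset.Subset.refl A)]; simp
  · intro ω hω hne
    rw [Finset.mem_powerset] at hω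
    show p ^ ω.card * (1 - p) ^ (A.card - ω.card) * ind (A ⊆ ω) = 0
    rw [spr_ind_false (fun h => hne (Finset.Subset.antisymm hω h))]
    ring
  · intro h
    exact absurd (Finset.mem_powerset.mpr (Finset.Subset.refl A)) h

theorem none_open {α : Type} [DecidableEq α] (E : Finset α) (p : ℝ) (h0 : 0 ≤ p) (h1 : p ≤ 1)
    (PP : Finset (Finset α)) (s : ℕ) (hPP : ∀ P ∈ PP, P ⊆ E ∧ P.card ≤ s)
    (hdis : ∀ P ∈ PP, ∀ P' ∈ PP, P ≠ P' → Disjoint P P') (Z : Finset α) :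
    Ex (E \ Z) p (fun η => ind (∀ P ∈ PP, ¬ P ⊆ Z ∪ η)) ≤ (1 - p ^ s) ^ PP.card := by
  have hstep : Ex (E \ Z) p (fun η => ind (∀ P ∈ PP, ¬ P ⊆ Z ∪ η)) =
      Ex (E \ Z) p (fun η => ∏ P ∈ PP, ind (¬ P ⊆ Z ∪ η)) := by
    apply Ex_congr
    intro ω _
    exact spr_ind_forall PP _
  rw [hstep, Ex_prod_indep PP (E \ Z) (fun P => P \ Z) ?_ p (fun P η => ind (¬ P ⊆ Z ∪ η)) ?_]
  · have hone : ∀ P ∈ PP, Ex (E \ Z) p (fun η => ind (¬ P ⊆ Z ∪ η)) = 1 - p ^ (P \ Z).card := by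
      intro P hP
      have h2 : Ex (E \ Z) p (fun η => ind (¬ P ⊆ Z ∪ η)) =
          Ex (E \ Z) p (fun η => (1 : ℝ) - ind (P \ Z ⊆ η)) := by
        apply Ex_congr
        intro ω _
        rw [spr_ind_not, spr_ind_congr]
        constructor
        · intro h x hx
          rw [Finset.mem_sdiff] at hx
          rcases Finset.mem_union.mp (h hx.1) with h | h
          · exact absurd h hx.2
          · exact h
        · intro h x hx
          by_cases hz : x ∈ Z
          · exact Finset.mem_union_left _ hz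
          · exact Finset.mem_union_right _ (h (Finset.mem_sdiff.mpr ⟨hx, hz⟩))
      rw [h2, Ex_sub, Ex_const, spr_all_open _ _ (Finset.sdiff_subset_sdiff (hPP P hP).1
        (Finset.Subset.refl _))]
    rw [Finset.prod_congr rfl hone]
    have hle : ∀ P ∈ PP, 1 - p ^ (P \ Z).card ≤ 1 - p ^ s := by
      intro P hP
      have h3 : (P \ Z).card ≤ s := (Finset.card_le_card Finset.sdiff_subset).trans (hPP P hP).2
      have := pow_le_pow_of_le_one h0 h1 h3
      linarith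
    have hnn : ∀ P ∈ PP, 0 ≤ 1 - p ^ (P \ Z).card := by
      intro P _
      have := pow_le_one₀ (n := (P \ Z).card) h0 h1
      linarith
    calc _ ≤ ∏ P ∈ PP, (1 - p ^ s) := Finset.prod_le_prod hnn hle
      _ = (1 - p ^ s) ^ PP.card := by rw [Finset.prod_const]
  · intro P hP P' hP' hne
    exact (hdis P hP P' hP' hne).mono Finset.sdiff_subset Finset.sdiff_subset
  · intro P _ ω _
    apply spr_ind_congr
    apply not_congr
    constructor
    · intro h x hx
      by_cases hz : x ∈ Z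
      · exact Finset.mem_union_left _ hz
      · rcases Finset.mem_union.mp (h hx) with h | h
        · exact absurd h hz
        · exact Finset.mem_union_right _ (Finset.mem_inter.mpr ⟨h, Finset.mem_sdiff.mpr ⟨hx, hz⟩⟩)
    · intro h x hx
      rcases Finset.mem_union.mp (h hx) with h | h
      · exact Finset.mem_union_left _ h
      · exact Finset.mem_union_right _ (Finset.mem_inter.mp h).1

private lemma spr_mem_cl {V : Type} [Fintype V] (ω : Finset (Sym2 V)) (x y : V) :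
    y ∈ cl ω x ↔ (SimpleGraph.fromEdgeSet (ω : Set (Sym2 V))).Reachable x y := by
  simp only [cl, Finset.mem_filter, Finset.mem_univ, true_and]

/-- representatives of a union of clusters -/
private lemma spr_reps {V : Type} [Fintype V] [DecidableEq V] (ζ : Finset (Sym2 V)) (N : ℕ)
    (A : Finset V) (hcl : ∀ a ∈ A, cl ζ a ⊆ A) (hbig : ∀ a ∈ A, N ≤ (cl ζ a).card)
    (hne : A.Nonempty) :
    ∃ R : Finset V, R.Nonempty ∧ R.biUnion (cl ζ) = A ∧ R.card * N ≤ A.card := by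
  classical
  obtain ⟨f, hf⟩ : ∃ f : Finset V → V, ∀ C : Finset V, C.Nonempty → f C ∈ C := by
    obtain ⟨a0, _⟩ := hne
    refine ⟨fun C => if h : C.Nonempty then h.choose else a0, fun C h => ?_⟩
    simp only [h, dif_pos]
    exact h.choose_spec
  have hrep : ∀ a, f (cl ζ a) ∈ cl ζ a := fun a => hf _ ⟨a, mem_cl_self ζ a⟩
  have hrep2 : ∀ a, cl ζ (f (cl ζ a)) = cl ζ a := fun a => cl_eq_of_mem ζ a _ (hrep a)
  have hU : (A.image fun a => f (cl ζ a)).biUnion (cl ζ) = A := by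
    ext x
    rw [Finset.mem_biUnion]
    constructor
    · rintro ⟨r, hr, hx⟩
      obtain ⟨a, ha, rfl⟩ := Finset.mem_image.mp hr
      rw [hrep2] at hx
      exact hcl a ha hx
    · intro hx
      refine ⟨f (cl ζ x), Finset.mem_image.mpr ⟨x, hx, rfl⟩, ?_⟩
      rw [hrep2]
      exact mem_cl_self ζ x
  refine ⟨A.image fun a => f (cl ζ a), hne.image _, hU, ?_⟩
  have hdisj : ∀ r ∈ (A.image fun a => f (cl ζ a)), ∀ r' ∈ (A.image fun a => f (cl ζ a)),
      r ≠ r' → Disjoint (cl ζ r) (cl ζ r') := by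
    intro r hr r' hr' hne'
    obtain ⟨a, ha, rfl⟩ := Finset.mem_image.mp hr
    obtain ⟨b, hb, rfl⟩ := Finset.mem_image.mp hr'
    rw [Finset.disjoint_left]
    intro x hx hx'
    apply hne'
    rw [hrep2] at hx hx'
    rw [← cl_eq_of_mem ζ a x hx, ← cl_eq_of_mem ζ b x hx']
  have hcard : A.card = ∑ r ∈ (A.image fun a => f (cl ζ a)), (cl ζ r).card := by
    conv_lhs => rw [← hU]
    exact Finset.card_biUnion hdisj
  rw [hcard]
  calc (A.image fun a => f (cl ζ a)).card * N = ∑ r ∈ (A.image fun a => f (cl ζ a)), N := by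
        rw [Finset.sum_const, smul_eq_mul]
    _ ≤ _ := by
        apply Finset.sum_le_sum
        intro r hr
        obtain ⟨a, ha, rfl⟩ := Finset.mem_image.mp hr
        rw [hrep2]
        exact hbig a ha

private lemma spr_sum_powerset (n : ℕ) (x : ℝ) (hx : 0 ≤ x) (hnx : n * x ≤ 1 / 2) :
    (1 + x) ^ n - 1 ≤ 2 * (n * x) := by
  have h1 : (1 + x) ^ n ≤ Real.exp (n * x) := by
    have h2 : 1 + x ≤ Real.exp x := by linarith [Real.add_one_le_exp x]
    calc (1 + x) ^ n ≤ (Real.exp x) ^ n := pow_le_pow_left₀ (by linarith) h2 n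
      _ = Real.exp (n * x) := by rw [← Real.exp_nat_mul]
  have h3 : 0 ≤ n * x := by positivity
  have h4 := Real.abs_exp_sub_one_le (x := n * x) (by rw [abs_of_nonneg h3]; linarith)
  rw [abs_of_nonneg h3] at h4
  have h5 := le_abs_self (Real.exp (n * x) - 1)
  linarith

theorem sprinkle (m l L : ℕ) (hm : 1 ≤ m) (p2 : ℝ) (h0 : 0 ≤ p2) (h1 : p2 ≤ 1)
    (ζ : Finset (Sym2 (Q m))) (hζ : ζ ⊆ cubeE m)
    (hd : ∀ v : Q m, ∃ w, hammingDist v w ≤ l ∧ 2 ^ L < (cl ζ w).card)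
    (hρ : 2 ^ m * (1 - p2 ^ (2 * l + 1)) ^ (2 ^ L / (m + 1) ^ (2 * l + 4)) ≤ 1 / 2) :
    Ex (cubeE m \ ζ) p2 (fun η => ind (¬ ∀ x y, 2 ^ L < (cl ζ x).card → 2 ^ L < (cl ζ y).card →
      y ∈ cl (ζ ∪ η) x)) ≤
      2 * (2 ^ m * (1 - p2 ^ (2 * l + 1)) ^ (2 ^ L / (m + 1) ^ (2 * l + 4))) := by
  classical
  set q : ℝ := 1 - p2 ^ (2 * l + 1) with hq
  set N0 : ℕ := 2 ^ L / (m + 1) ^ (2 * l + 4) with hN0
  have hq0 : 0 ≤ q := by
    have := pow_le_one₀ (n := 2 * l + 1) h0 h1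
    linarith
  have hq1 : q ≤ 1 := by
    have := pow_nonneg h0 (2 * l + 1)
    linarith
  set W : Finset (Q m) := univ.filter fun w => 2 ^ L < (cl ζ w).card with hW
  have hmW : ∀ w, w ∈ W ↔ 2 ^ L < (cl ζ w).card := by
    intro w
    rw [hW, Finset.mem_filter]
    simp
  have hWl : ∀ v, ∃ w ∈ W, hammingDist v w ≤ l := by
    intro v
    obtain ⟨w, hw1, hw2⟩ := hd v
    exact ⟨w, (hmW w).mpr hw2, hw1⟩
  have hpaths : ∀ A : Finset (Q m), ∃ PP : Finset (Finset (Sym2 (Q m))), A ⊆ W →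
      A.card ≤ (W \ A).card →
      (∀ P ∈ PP, P ⊆ cubeE m ∧ P.card ≤ 2 * l + 1 ∧ ∃ a ∈ A, ∃ b ∈ W \ A,
        (SimpleGraph.fromEdgeSet (P : Set (Sym2 (Q m)))).Reachable a b) ∧
      (∀ P ∈ PP, ∀ P' ∈ PP, P ≠ P' → Disjoint P P') ∧
      A.card ≤ PP.card * (m + 1) ^ (2 * l + 4) := by
    intro A
    by_cases h : A ⊆ W ∧ A.card ≤ (W \ A).card
    · obtain ⟨PP, hPP⟩ := paths m l hm W A h.1 h.2 hWl
      exact ⟨PP, fun _ _ => hPP⟩
    · exact ⟨∅, fun ha hb => absurd ⟨ha, hb⟩ h⟩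
  choose PP hPP using hpaths
  -- valid sets of representatives
  obtain ⟨valid, hvalid⟩ : ∃ valid : Finset (Q m) → Prop, ∀ R, valid R ↔
      (R.Nonempty ∧ R.biUnion (cl ζ) ⊆ W ∧ (R.biUnion (cl ζ)).card ≤ (W \ R.biUnion (cl ζ)).card ∧
        R.card * 2 ^ L ≤ (R.biUnion (cl ζ)).card) := ⟨_, fun _ => Iff.rfl⟩
  have hdec : DecidablePred valid := Classical.decPred _
  set T : Finset (Finset (Q m)) := (univ : Finset (Q m)).powerset.filter valid with hT
  -- the bad event is contained in the union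
  have hbad : ∀ η : Finset (Sym2 (Q m)), (¬ ∀ x y, 2 ^ L < (cl ζ x).card → 2 ^ L < (cl ζ y).card →
      y ∈ cl (ζ ∪ η) x) → ∃ R ∈ T, ∀ P ∈ PP (R.biUnion (cl ζ)), ¬ P ⊆ ζ ∪ η := by
    intro η hη
    push Not at hη
    obtain ⟨x, y, hx, hy, hxy⟩ := hη
    set C : Finset (Q m) := W ∩ cl (ζ ∪ η) x with hC
    have hxC : x ∈ C := Finset.mem_inter.mpr ⟨(hmW x).mpr hx, mem_cl_self _ x⟩
    have hyC : y ∈ W \ C := Finset.mem_sdiff.mpr ⟨(hmW y).mpr hy,
      fun h => hxy (Finset.mem_inter.mp h).2⟩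
    have hCW : C ⊆ W := Finset.inter_subset_left
    -- closure properties
    have hWcl : ∀ a ∈ W, ∀ b ∈ cl ζ a, b ∈ W := by
      intro a ha b hb
      rw [hmW] at ha ⊢
      rw [cl_eq_of_mem ζ a b hb]
      exact ha
    have hiff : ∀ a b, b ∈ cl (ζ ∪ η) a → (a ∈ cl (ζ ∪ η) x ↔ b ∈ cl (ζ ∪ η) x) := by
      intro a b hab
      have h3 := cl_eq_of_mem (ζ ∪ η) a b hab
      constructor
      · intro h
        rw [cl_symm, h3, ← cl_symm]
        exact h
      · intro h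
        rw [cl_symm, ← h3, ← cl_symm]
        exact h
    have hζη : ∀ a b, b ∈ cl ζ a → b ∈ cl (ζ ∪ η) a := fun a b h =>
      cl_mono ζ (ζ ∪ η) Finset.subset_union_left a h
    -- the smaller side
    obtain ⟨A, hAW, hAne, hAc, hAcard, hAsep⟩ : ∃ A : Finset (Q m), A ⊆ W ∧ A.Nonempty ∧
        (∀ a ∈ A, cl ζ a ⊆ A) ∧ A.card ≤ (W \ A).card ∧
        ∀ a ∈ A, ∀ b ∈ W \ A, b ∉ cl (ζ ∪ η) a := by
      rcases le_total C.card (W \ C).card with hle | hle
      · refine ⟨C, hCW, ⟨x, hxC⟩, ?_, hle, ?_⟩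
        · intro a ha b hb
          rw [hC, Finset.mem_inter] at ha ⊢
          exact ⟨hWcl a ha.1 b hb, (hiff a b (hζη a b hb)).mp ha.2⟩
        · intro a ha b hb hab
          rw [hC, Finset.mem_inter] at ha
          rw [hC, Finset.mem_sdiff, Finset.mem_inter] at hb
          exact hb.2 ⟨hb.1, (hiff a b hab).mp ha.2⟩
      · refine ⟨W \ C, Finset.sdiff_subset, ⟨y, hyC⟩, ?_, ?_, ?_⟩
        · intro a ha b hb
          rw [hC, Finset.mem_sdiff, Finset.mem_inter] at ha ⊢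
          refine ⟨hWcl a ha.1 b hb, ?_⟩
          rintro ⟨_, h⟩
          exact ha.2 ⟨ha.1, (hiff a b (hζη a b hb)).mpr h⟩
        · rw [Finset.sdiff_sdiff_eq_self hCW]
          exact hle
        · intro a ha b hb hab
          rw [Finset.sdiff_sdiff_eq_self hCW, hC, Finset.mem_inter] at hb
          rw [hC, Finset.mem_sdiff, Finset.mem_inter] at ha
          exact ha.2 ⟨ha.1, (hiff a b hab).mpr hb.2⟩
    obtain ⟨R, hR1, hR2, hR3⟩ := spr_reps ζ (2 ^ L) A hAc
      (fun a ha => ((hmW a).mp (hAW ha)).le) hAne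
    refine ⟨R, ?_, ?_⟩
    · rw [hT, Finset.mem_filter, hvalid, hR2]
      exact ⟨by simp, hR1, hAW, hAcard, hR3⟩
    · rw [hR2]
      intro P hP hsub
      obtain ⟨_, _, a, ha, b, hb, hreach⟩ := (hPP A hAW hAcard).1 P hP
      apply hAsep a ha b hb
      rw [spr_mem_cl]
      exact hreach.mono (SimpleGraph.fromEdgeSet_mono (by exact_mod_cast hsub))
  -- union bound
  have hle : Ex (cubeE m \ ζ) p2 (fun η => ind (¬ ∀ x y, 2 ^ L < (cl ζ x).card →
      2 ^ L < (cl ζ y).card → y ∈ cl (ζ ∪ η) x)) ≤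
      Ex (cubeE m \ ζ) p2 (fun η => ∑ R ∈ T, ind (∀ P ∈ PP (R.biUnion (cl ζ)), ¬ P ⊆ ζ ∪ η)) := by
    apply Ex_mono _ _ h0 h1
    intro η _
    by_cases hη : ¬ ∀ x y, 2 ^ L < (cl ζ x).card → 2 ^ L < (cl ζ y).card → y ∈ cl (ζ ∪ η) x
    · rw [spr_ind_true hη]
      obtain ⟨R, hR, hR'⟩ := hbad η hη
      calc (1 : ℝ) = ind (∀ P ∈ PP (R.biUnion (cl ζ)), ¬ P ⊆ ζ ∪ η) := (spr_ind_true hR').symm
        _ ≤ _ := Finset.single_le_sum
          (f := fun R => ind (∀ P ∈ PP (R.biUnion (cl ζ)), ¬ P ⊆ ζ ∪ η))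
          (fun _ _ => spr_ind_nonneg _) hR
    · rw [spr_ind_false hη]
      exact Finset.sum_nonneg fun _ _ => spr_ind_nonneg _
  refine hle.trans ?_
  rw [Ex_sum]
  have hterm : ∀ R ∈ T, Ex (cubeE m \ ζ) p2
      (fun η => ind (∀ P ∈ PP (R.biUnion (cl ζ)), ¬ P ⊆ ζ ∪ η)) ≤ (q ^ N0) ^ R.card := by
    intro R hR
    rw [hT, Finset.mem_filter, hvalid] at hR
    obtain ⟨_, hR1, hR2, hR3, hR4⟩ := hR
    obtain ⟨hP1, hP2, hP3⟩ := hPP _ hR2 hR3
    have h3 := none_open (cubeE m) p2 h0 h1 (PP (R.biUnion (cl ζ))) (2 * l + 1)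
      (fun P hP => ⟨(hP1 P hP).1, (hP1 P hP).2.1⟩) hP2 ζ
    refine h3.trans ?_
    rw [← hq, ← pow_mul]
    apply pow_le_pow_of_le_one hq0 hq1
    have hD : 0 < (m + 1) ^ (2 * l + 4) := by positivity
    have h4 : N0 * R.card * (m + 1) ^ (2 * l + 4) ≤
        (PP (R.biUnion (cl ζ))).card * (m + 1) ^ (2 * l + 4) := by
      calc N0 * R.card * (m + 1) ^ (2 * l + 4) = R.card * (N0 * (m + 1) ^ (2 * l + 4)) := by ring
        _ ≤ R.card * 2 ^ L := Nat.mul_le_mul_left _ (Nat.div_mul_le_self _ _)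
        _ ≤ _ := hR4.trans hP3
    exact Nat.le_of_mul_le_mul_right h4 hD
  have hx0 : 0 ≤ q ^ N0 := pow_nonneg hq0 _
  calc _ ≤ ∑ R ∈ T, (q ^ N0) ^ R.card := Finset.sum_le_sum hterm
    _ ≤ ∑ R ∈ (univ : Finset (Q m)).powerset.erase ∅, (q ^ N0) ^ R.card := by
        apply Finset.sum_le_sum_of_subset_of_nonneg
        · intro R hR
          rw [hT, Finset.mem_filter, hvalid] at hR
          rw [Finset.mem_erase]
          exact ⟨hR.2.1.ne_empty, hR.1⟩
        · intro _ _ _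
          positivity
    _ = (1 + q ^ N0) ^ (2 ^ m) - 1 := by
        have h5 : ∑ R ∈ (univ : Finset (Q m)).powerset, (q ^ N0) ^ R.card =
            (1 + q ^ N0) ^ (2 ^ m) := by
          have h6 := Finset.sum_pow_mul_eq_add_pow (q ^ N0) (1 : ℝ) (univ : Finset (Q m))
          simp only [one_pow, mul_one] at h6
          rw [h6]
          simp [add_comm]
        have h7 := Finset.sum_erase_eq_sub (f := fun R : Finset (Q m) => (q ^ N0) ^ R.card)
          (s := (univ : Finset (Q m)).powerset) (a := ∅) (by simp)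
        rw [h7, h5]
        simp
    _ ≤ 2 * (((2 ^ m : ℕ) : ℝ) * q ^ N0) := by
        apply spr_sum_powerset _ _ hx0
        push_cast
        exact hρ
    _ = 2 * (2 ^ m * q ^ N0) := by push_cast; ring

end Pool.Agent.Work.MP_b7dc8a_pr
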