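import Pool.Agent.Work.MP_b7dc8a_pr.Base
import Pool.Agent.Work.MP_b7dc8a_pr.Bin
import Pool.Agent.Work.MP_b7dc8a_pr.Clb

/-! Module THIN (uses BIN, CLB)
THIN: T = edges of a spanning tree (inside omega) of C = cl omega x, |T| = |C|-1. If all zeta-clusters inside C have <= M vertices then
 |C| <= M (number of zeta-clusters in C) <= M (N+1), N = |T \ zeta|. So 8^N >= 8^(|C|/M) / 8 and E 8^N = (1+7(1-th))^(|C|-1).
-/

namespace Pool.Agent.Work.MP_b7dc8a_pr

open Finset Filter Topology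

private theorem thin_tree {V : Type} [Fintype V] [DecidableEq V] (ω : Finset (Sym2 V)) (x : V)
    (n : ℕ) (hn : n + 1 ≤ (cl ω x).card) :
    ∃ (S : Finset V) (T : Finset (Sym2 V)), x ∈ S ∧ S ⊆ cl ω x ∧ S.card = n + 1 ∧ T ⊆ ω ∧
      T.card = n ∧ (∀ e ∈ T, ∀ v ∈ e, v ∈ S) ∧
      ∀ ζ : Finset (Sym2 V), (S.image (cl ζ)).card ≤ (T \ ζ).card + 1 := by
  induction n with
  | zero =>
    refine ⟨{x}, ∅, by simp, ?_, by simp, by simp, by simp, by simp, ?_⟩
    · intro y hy
      rw [Finset.mem_singleton] at hy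
      subst hy
      exact mem_cl_self ω y
    · intro ζ
      simp
  | succ n ih =>
    obtain ⟨S, T, hxS, hSC, hScard, hTω, hTcard, hTS, hcount⟩ := ih (by omega)
    have hne : ∃ a ∈ S, ∃ b, s(a, b) ∈ ω ∧ b ∉ S := by
      by_contra hcon
      push Not at hcon
      have h1 : cls ω S = S := cls_eq_self ω S (fun a ha b hab => hcon a ha b hab)
      have h2 : cl ω x ⊆ S := by
        intro y hy
        rw [← h1]
        simp only [cls, cl, Finset.mem_filter, Finset.mem_univ, true_and] at hy ⊢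
        exact ⟨x, hxS, hy⟩
      have h3 := Finset.card_le_card h2
      omega
    obtain ⟨a, haS, b, hab, hbS⟩ := hne
    have haC := hSC haS
    have hbC : b ∈ cl ω x := cl_closed ω x a b haC hab
    have heT : s(a, b) ∉ T := fun h => hbS (hTS _ h b (Sym2.mem_mk_right a b))
    refine ⟨insert b S, insert s(a, b) T, Finset.mem_insert_of_mem hxS, ?_, ?_, ?_, ?_, ?_, ?_⟩
    · intro y hy
      rcases Finset.mem_insert.1 hy with rfl | hy
      · exact hbC
      · exact hSC hy
    · rw [Finset.card_insert_of_notMem hbS, hScard]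
    · intro e he
      rcases Finset.mem_insert.1 he with rfl | he
      · exact hab
      · exact hTω he
    · rw [Finset.card_insert_of_notMem heT, hTcard]
    · intro e he v hv
      rcases Finset.mem_insert.1 he with rfl | he
      · rcases Sym2.mem_iff.1 hv with rfl | rfl
        · exact Finset.mem_insert_of_mem haS
        · exact Finset.mem_insert_self _ _
      · exact Finset.mem_insert_of_mem (hTS e he v hv)
    · intro ζ
      have hc := hcount ζ
      rw [Finset.image_insert]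
      by_cases hζ : s(a, b) ∈ ζ
      · have h1 : cl ζ b = cl ζ a := by
          apply cl_eq_of_mem
          exact cl_closed ζ a a b (mem_cl_self ζ a) hζ
        rw [h1, Finset.insert_eq_of_mem (Finset.mem_image_of_mem _ haS),
          Finset.insert_sdiff_of_mem _ hζ]
        exact hc
      · rw [Finset.insert_sdiff_of_notMem _ hζ,
          Finset.card_insert_of_notMem (fun h => heT (Finset.mem_sdiff.1 h).1)]
        have := Finset.card_insert_le (cl ζ b) (S.image (cl ζ))
        omega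

theorem thin_bad {V : Type} [Fintype V] [DecidableEq V] (ω : Finset (Sym2 V)) (θ : ℝ)
    (h0 : 0 ≤ θ) (h1 : θ ≤ 1) (x : V) (M : ℕ) (hM : 1 ≤ M) :
    Ex ω θ (fun ζ => ind (∀ y ∈ cl ω x, (cl ζ y).card ≤ M)) ≤
      (1 + 7 * (1 - θ)) ^ ((cl ω x).card) * 8 / 8 ^ ((cl ω x).card / M) := by
  have hCpos : 1 ≤ (cl ω x).card := Finset.card_pos.2 ⟨x, mem_cl_self ω x⟩
  obtain ⟨S, T, hxS, hSC, hScard, hTω, hTcard, hTS, hcount⟩ :=
    thin_tree ω x ((cl ω x).card - 1) (by omega)
  have hSeq : S = cl ω x := Finset.eq_of_subset_of_card_le hSC (by omega)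
  set c := (cl ω x).card with hc
  have hpt : ∀ ζ ⊆ ω, ind (∀ y ∈ cl ω x, (cl ζ y).card ≤ M) ≤
      (8 / 8 ^ (c / M) : ℝ) * (8 : ℝ) ^ (T \ ζ).card := by
    intro ζ _
    unfold ind
    split_ifs with h
    · have h2 : c ≤ M * ((T \ ζ).card + 1) := by
        have h3 : cl ω x ⊆ ((cl ω x).image (cl ζ)).biUnion id := by
          intro y hy
          rw [Finset.mem_biUnion]
          exact ⟨cl ζ y, Finset.mem_image_of_mem _ hy, mem_cl_self ζ y⟩
        have h4 : (((cl ω x).image (cl ζ)).biUnion id).card ≤ ((cl ω x).image (cl ζ)).card * M := by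
          apply Finset.card_biUnion_le_card_mul
          intro K hK
          obtain ⟨y, hy, rfl⟩ := Finset.mem_image.1 hK
          exact h y hy
        have h5 := hcount ζ
        rw [hSeq] at h5
        calc c ≤ _ := Finset.card_le_card h3
          _ ≤ _ := h4
          _ ≤ ((T \ ζ).card + 1) * M := Nat.mul_le_mul_right _ h5
          _ = _ := by ring
      have h6 : c / M ≤ (T \ ζ).card + 1 := by
        apply Nat.div_le_of_le_mul
        exact h2
      rw [div_mul_eq_mul_div, le_div_iff₀ (by positivity), one_mul]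
      calc (8 : ℝ) ^ (c / M) ≤ 8 ^ ((T \ ζ).card + 1) := pow_le_pow_right₀ (by norm_num) h6
        _ = 8 * 8 ^ (T \ ζ).card := by ring
    · positivity
  have hEx1 : Ex ω θ (fun ζ => (8 : ℝ) ^ (T \ ζ).card) = (1 + 7 * (1 - θ)) ^ T.card := by
    have e1 : Ex ω θ (fun ζ => (8 : ℝ) ^ (T \ ζ).card)
        = Ex ω θ (fun ζ => (fun ξ : Finset (Sym2 V) => (8 : ℝ) ^ (T \ ξ).card) (ζ ∩ T)) := by
      apply Ex_congr
      intro ζ _
      have : T \ (ζ ∩ T) = T \ ζ := by
        ext e; simp only [Finset.mem_sdiff, Finset.mem_inter]; tauto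
      simp only [this]
    refine e1.trans ((Ex_restrict ω T hTω θ
      (fun ξ : Finset (Sym2 V) => (8 : ℝ) ^ (T \ ξ).card)).trans ?_)
    unfold Ex
    have e2 : ∀ ξ ∈ T.powerset, θ ^ ξ.card * (1 - θ) ^ (T.card - ξ.card) * (8 : ℝ) ^ (T \ ξ).card
        = θ ^ ξ.card * (8 * (1 - θ)) ^ (T.card - ξ.card) := by
      intro ξ hξ
      rw [Finset.card_sdiff_of_subset (Finset.mem_powerset.1 hξ), mul_pow]
      ring
    rw [Finset.sum_congr rfl e2, Finset.sum_pow_mul_eq_add_pow]
    congr 1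
    ring
  calc Ex ω θ (fun ζ => ind (∀ y ∈ cl ω x, (cl ζ y).card ≤ M))
      ≤ Ex ω θ (fun ζ => (8 / 8 ^ (c / M) : ℝ) * (8 : ℝ) ^ (T \ ζ).card) :=
        Ex_mono ω θ h0 h1 _ _ hpt
    _ = (8 / 8 ^ (c / M) : ℝ) * (1 + 7 * (1 - θ)) ^ T.card := by rw [Ex_mul_left, hEx1]
    _ ≤ (8 / 8 ^ (c / M) : ℝ) * (1 + 7 * (1 - θ)) ^ c := by
        apply mul_le_mul_of_nonneg_left _ (by positivity)
        apply pow_le_pow_right₀ (by linarith)
        omega
    _ = (1 + 7 * (1 - θ)) ^ c * 8 / 8 ^ (c / M) := by ring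

end Pool.Agent.Work.MP_b7dc8a_pr
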