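import Pool.Agent.Work.MP_b7dc8a_pr.Base
import Pool.Agent.Work.MP_b7dc8a_pr.Joint
import Pool.Agent.Work.MP_b7dc8a_pr.Gap
import Pool.Agent.Work.MP_b7dc8a_pr.Dens
import Pool.Agent.Work.MP_b7dc8a_pr.Spr
import Pool.Agent.Work.MP_b7dc8a_pr.Thin

/-! Module UNIQ (uses BIN, JOINT, CLB, GAP, DENS, SPR, THIN), NEW STATEMENT
UNIQ: joint. Good event: (G1),(G2) no cluster size in (M,2^L] for omega, zeta (gap at p and p*theta); (G3) every omega-cluster > 2^L
 contains a y with M < |cl zeta y| (thin_bad); (G4) every v has w within r with 2^L < |cl zeta w| (dens at p*theta); (G5) all such w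
 are connected in omega (sprinkle with l := r; p2 = (p - p theta)/(1 - p theta) >= p(1-theta)).
 G1-G5 => Uniq M omega and existence. Thin term: (1+7/(16M))^c 8/8^(c/M) <= 64 exp(-c/M), c > 2^L.
-/

namespace Pool.Agent.Work.MP_b7dc8a_pr

open Finset Filter Topology

theorem uniq_ind_le {P R : Prop} (h : P → R) : ind P ≤ ind R := by
  by_cases hP : P
  · rw [dens_ind_true hP, dens_ind_true (h hP)]
  · rw [dens_ind_false hP]
    exact dens_ind_nonneg R

theorem uniq_ind_exists {ι : Type} [Fintype ι] (P : ι → Prop) :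
    ind (∃ x, P x) ≤ ∑ x, ind (P x) := by
  by_cases h : ∃ x, P x
  · obtain ⟨x, hx⟩ := h
    rw [dens_ind_true ⟨x, hx⟩, ← dens_ind_true hx]
    exact Finset.single_le_sum (f := fun x => ind (P x)) (fun y _ => dens_ind_nonneg _)
      (Finset.mem_univ x)
  · rw [dens_ind_false h]
    exact Finset.sum_nonneg (fun y _ => dens_ind_nonneg _)

theorem uniq_union {α : Type} {m : ℕ} (E : Finset α) (q : ℝ) (h0 : 0 ≤ q) (h1 : q ≤ 1)
    (P : Q m → Finset α → Prop) (c : ℝ) (hc : ∀ x, Ex E q (fun ω => ind (P x ω)) ≤ c) :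
    Ex E q (fun ω => ind (∃ x, P x ω)) ≤ 2 ^ m * c := by
  have h2 : Ex E q (fun ω => ind (∃ x, P x ω)) ≤ Ex E q (fun ω => ∑ x, ind (P x ω)) :=
    Ex_mono E q h0 h1 _ _ (fun ω _ => uniq_ind_exists (fun x => P x ω))
  refine h2.trans ?_
  rw [Ex_sum]
  refine (Finset.sum_le_sum (fun x _ => hc x)).trans ?_
  rw [Finset.sum_const, nsmul_eq_mul, Finset.card_univ]
  have h3 : (Fintype.card (Q m) : ℝ) = 2 ^ m := by
    rw [Fintype.card_fun, Fintype.card_bool, Fintype.card_fin]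
    push_cast
    ring
  rw [h3]

/-- the numerical bound for the term of `thin_bad` -/
theorem uniq_thin_num (c s M : ℕ) (hM : 1 ≤ M) (θ : ℝ) (hθ1 : θ ≤ 1)
    (hθ : 1 - θ ≤ 1 / (16 * M)) (hc : s ≤ c) :
    (1 + 7 * (1 - θ)) ^ c * 8 / 8 ^ (c / M) ≤ 64 * Real.exp (-((s : ℝ) / M)) := by
  have hM0 : (0 : ℝ) < M := by exact_mod_cast hM
  have h1 : (1 + 7 * (1 - θ)) ^ c ≤ Real.exp (7 * c / (16 * M)) := by
    have h2 : 1 + 7 * (1 - θ) ≤ Real.exp (7 / (16 * M)) := by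
      have h3 := Real.add_one_le_exp (7 / (16 * (M : ℝ)))
      have h4 : 7 * (1 - θ) ≤ 7 / (16 * M) := by
        have := mul_le_mul_of_nonneg_left hθ (show (0 : ℝ) ≤ 7 by norm_num)
        calc 7 * (1 - θ) ≤ 7 * (1 / (16 * M)) := this
          _ = 7 / (16 * M) := by ring
      linarith
    have h5 : Real.exp (7 * c / (16 * M)) = (Real.exp (7 / (16 * M))) ^ c := by
      rw [← Real.exp_nat_mul]
      congr 1
      ring
    rw [h5]
    exact pow_le_pow_left₀ (by linarith) h2 c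
  have h6 : Real.exp (2 * c / M) ≤ 8 * 8 ^ (c / M) := by
    have h7 : (c : ℝ) / M ≤ (c / M : ℕ) + 1 := by
      rw [div_le_iff₀ hM0]
      have h8 : c < M * (c / M + 1) := by
        have := Nat.div_add_mod c M
        have h9 := Nat.mod_lt c (show 0 < M by omega)
        rw [Nat.mul_add, Nat.mul_one]
        omega
      have h10 : (c : ℝ) < ((M * (c / M + 1) : ℕ) : ℝ) := by exact_mod_cast h8
      push_cast at h10
      linarith
    have h11 : Real.exp 2 ≤ 8 := by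
      have h12 := Real.exp_one_lt_d9
      have h13 : Real.exp 2 = Real.exp 1 * Real.exp 1 := by
        rw [← Real.exp_add]; norm_num
      rw [h13]
      have h14 := Real.exp_pos 1
      nlinarith
    calc Real.exp (2 * c / M) ≤ Real.exp (((c / M + 1 : ℕ) : ℝ) * 2) := by
          apply Real.exp_le_exp.mpr
          push_cast
          have : 2 * (c : ℝ) / M = 2 * (c / M) := by ring
          rw [this]
          linarith
      _ = (Real.exp 2) ^ (c / M + 1) := by rw [Real.exp_nat_mul]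
      _ ≤ 8 ^ (c / M + 1) := pow_le_pow_left₀ (Real.exp_pos _).le h11 _
      _ = 8 * 8 ^ (c / M) := by rw [pow_succ]; ring
  have h15 : (0 : ℝ) < 8 ^ (c / M) := by positivity
  rw [div_le_iff₀ h15]
  have hcs : (s : ℝ) ≤ c := by exact_mod_cast hc
  have h16 : Real.exp (7 * c / (16 * M)) ≤ Real.exp (-((s : ℝ) / M)) * Real.exp (2 * c / M) := by
    rw [← Real.exp_add]
    apply Real.exp_le_exp.mpr
    have e1 : -((s : ℝ) / M) + 2 * c / M = (2 * c - s) / M := by ring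
    have e2 : 7 * (c : ℝ) / (16 * M) = (7 / 16 * c) / M := by
      field_simp
    rw [e1, e2]
    apply div_le_div_of_nonneg_right _ hM0.le
    have : (0 : ℝ) ≤ c := by positivity
    linarith
  calc (1 + 7 * (1 - θ)) ^ c * 8 ≤ Real.exp (7 * c / (16 * M)) * 8 :=
        mul_le_mul_of_nonneg_right h1 (by norm_num)
    _ ≤ (Real.exp (-((s : ℝ) / M)) * Real.exp (2 * c / M)) * 8 :=
        mul_le_mul_of_nonneg_right h16 (by norm_num)
    _ ≤ (Real.exp (-((s : ℝ) / M)) * (8 * 8 ^ (c / M))) * 8 := by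
        apply mul_le_mul_of_nonneg_right _ (by norm_num)
        exact mul_le_mul_of_nonneg_left h6 (Real.exp_pos _).le
    _ = 64 * Real.exp (-((s : ℝ) / M)) * 8 ^ (c / M) := by ring

/-- the deterministic part -/
theorem uniq_det {V : Type} [Fintype V] (M K : ℕ) (hMK : M ≤ K) (ω ζ : Finset (Sym2 V))
    (hζ : ζ ⊆ ω) (h1 : ¬ ∃ x, M < (cl ω x).card ∧ (cl ω x).card ≤ K)
    (h2 : ¬ ∃ x, M < (cl ζ x).card ∧ (cl ζ x).card ≤ K)
    (h3 : ¬ ∃ x, K < (cl ω x).card ∧ ∀ y ∈ cl ω x, (cl ζ y).card ≤ M)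
    (h4 : ∃ w, K < (cl ζ w).card)
    (h5 : ∀ x y, K < (cl ζ x).card → K < (cl ζ y).card → y ∈ cl ω x) :
    Uniq M ω ∧ ∃ x, M < (cl ω x).card := by
  have key : ∀ x, M < (cl ω x).card → ∃ x', x' ∈ cl ω x ∧ K < (cl ζ x').card := by
    intro x hx
    have hx2 : K < (cl ω x).card := by
      by_contra hc
      exact h1 ⟨x, hx, not_lt.mp hc⟩
    have hx3 : ∃ y ∈ cl ω x, M < (cl ζ y).card := by
      by_contra hc
      push Not at hc
      exact h3 ⟨x, hx2, hc⟩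
    obtain ⟨y, hy, hyM⟩ := hx3
    refine ⟨y, hy, ?_⟩
    by_contra hc
    exact h2 ⟨y, hyM, not_lt.mp hc⟩
  constructor
  · intro x y hx hy
    obtain ⟨x', hx', hx2⟩ := key x hx
    obtain ⟨y', hy', hy2⟩ := key y hy
    have e1 := cl_eq_of_mem ω x x' hx'
    have e2 := cl_eq_of_mem ω y y' hy'
    have e3 := cl_eq_of_mem ω x' y' (h5 x' y' hx2 hy2)
    rw [← e1, ← e3, e2]
    exact mem_cl_self ω y
  · obtain ⟨w, hw⟩ := h4
    refine ⟨w, ?_⟩
    have := Finset.card_le_card (cl_mono ζ ω hζ w)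
    omega

theorem uniq (m r L L' m' M : ℕ) (hm : 1 ≤ m) (hm' : 2 ≤ m') (h : m' + L' ≤ m)
    (hL : (m + 1) ^ r * 2 ^ L ≤ 2 ^ L')
    (hM : 1 ≤ M) (hML : M ≤ 2 ^ L) (p θ a a1 : ℝ) (ha1 : 0 < a1) (haa : a1 ≤ a)
    (ha2 : a ≤ 1 / 2) (hp : p * m' = 1 + a) (hp1 : p * θ * m' = 1 + a1) (hθ0 : 0 ≤ θ)
    (hθ1 : θ ≤ 1) (hθ : 1 - θ ≤ 1 / (16 * M)) (ρ : ℝ)
    (hρ : 2 ^ m * (1 - (p * (1 - θ)) ^ (2 * r + 1)) ^ (2 ^ L / (m + 1) ^ (2 * r + 4)) ≤ ρ)
    (hρ1 : ρ ≤ 1 / 2) :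
    Ex (cubeE m) p (fun ω => ind (¬ (Uniq M ω ∧ ∃ x, M < (cl ω x).card))) ≤
      2 * (2 ^ m * 2 ^ L * Real.exp (-(M * a1 ^ 2 / 6))) +
      2 ^ m * Real.exp (-(a1 * (m.choose r))) +
      2 ^ m * (64 * Real.exp (-((2 : ℝ) ^ L / M))) + 2 * ρ := by
  classical
  have ha : 0 < a := lt_of_lt_of_le ha1 haa
  obtain ⟨hp0, hpl⟩ := dens_p_bd hm' ha ha2 hp
  obtain ⟨hq0, hql⟩ := dens_p_bd hm' ha1 (haa.trans ha2) hp1
  have hLL : L ≤ L' := by
    have h1 : 2 ^ L ≤ 2 ^ L' := by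
      refine le_trans ?_ hL
      exact Nat.le_mul_of_pos_left _ (by positivity)
    exact (Nat.pow_le_pow_iff_right (by norm_num)).mp h1
  set q : ℝ := p * θ with hq
  set p2 : ℝ := (p - q) / (1 - q) with hp2
  have h1q : 0 < 1 - q := by linarith
  have hqp : q ≤ p := by
    rw [hq]
    nlinarith
  have hp20 : 0 ≤ p2 := div_nonneg (by linarith) h1q.le
  have hp21 : p2 ≤ 1 := by
    rw [hp2, div_le_one h1q]
    linarith
  have hp2l : p * (1 - θ) ≤ p2 := by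
    rw [hp2, le_div_iff₀ h1q]
    have e : p - q = p * (1 - θ) := by rw [hq]; ring
    rw [e]
    have h1 : 0 ≤ p * (1 - θ) := mul_nonneg hp0.le (by linarith)
    nlinarith
  have hpt : 0 ≤ p * (1 - θ) := mul_nonneg hp0.le (by linarith)
  -- sprinkling parameter
  set D : ℕ := 2 ^ L / (m + 1) ^ (2 * r + 4) with hD
  have hρ2 : 2 ^ m * (1 - p2 ^ (2 * r + 1)) ^ D ≤ ρ := by
    refine le_trans ?_ hρ
    apply mul_le_mul_of_nonneg_left _ (by positivity)
    apply pow_le_pow_left₀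
    · have := pow_le_one₀ (n := 2 * r + 1) hp20 hp21
      linarith
    · have := pow_le_pow_left₀ hpt hp2l (2 * r + 1)
      linarith
  -- the bad events
  let B1 : Finset (Sym2 (Q m)) → Prop := fun ω =>
    ∃ x, M < (cl ω x).card ∧ (cl ω x).card ≤ 2 ^ L
  let B3 : Finset (Sym2 (Q m)) → Finset (Sym2 (Q m)) → Prop := fun ω ζ =>
    ∃ x, 2 ^ L < (cl ω x).card ∧ ∀ y ∈ cl ω x, (cl ζ y).card ≤ M
  let B4 : Finset (Sym2 (Q m)) → Prop := fun ζ =>
    ∃ v : Q m, ∀ w, hammingDist v w ≤ r → (cl ζ w).card ≤ 2 ^ L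
  let B5 : Finset (Sym2 (Q m)) → Finset (Sym2 (Q m)) → Prop := fun ω ζ =>
    ¬ ∀ x y, 2 ^ L < (cl ζ x).card → 2 ^ L < (cl ζ y).card → y ∈ cl ω x
  have hsplit : ∀ ω ⊆ cubeE m, ∀ ζ ⊆ ω,
      ind (¬ (Uniq M ω ∧ ∃ x, M < (cl ω x).card)) ≤
        ind (B1 ω) + (ind (B1 ζ) + (ind (B3 ω ζ) + (ind (B4 ζ) + ind (¬ B4 ζ ∧ B5 ω ζ)))) := by
    intro ω _ ζ hζ
    have n1 := dens_ind_nonneg (B1 ω)
    have n2 := dens_ind_nonneg (B1 ζ)
    have n3 := dens_ind_nonneg (B3 ω ζ)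
    have n4 := dens_ind_nonneg (B4 ζ)
    have n5 := dens_ind_nonneg (¬ B4 ζ ∧ B5 ω ζ)
    by_cases hb : ¬ (Uniq M ω ∧ ∃ x, M < (cl ω x).card)
    · rw [dens_ind_true hb]
      by_cases c1 : B1 ω
      · rw [dens_ind_true c1]; linarith
      by_cases c2 : B1 ζ
      · rw [dens_ind_true c2]; linarith
      by_cases c3 : B3 ω ζ
      · rw [dens_ind_true c3]; linarith
      by_cases c4 : B4 ζ
      · rw [dens_ind_true c4]; linarith
      by_cases c5 : B5 ω ζ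
      · rw [dens_ind_true (show ¬ B4 ζ ∧ B5 ω ζ from ⟨c4, c5⟩)]; linarith
      exfalso
      apply hb
      have c4' : ∃ w, 2 ^ L < (cl ζ w).card := by
        by_contra hc
        push Not at hc
        exact c4 ⟨fun _ => false, fun w _ => hc w⟩
      exact uniq_det M (2 ^ L) hML ω ζ hζ c1 c2 c3 c4' (not_not.mp c5)
    · rw [dens_ind_false hb]
      linarith
  have hmain : Ex (cubeE m) p (fun ω => ind (¬ (Uniq M ω ∧ ∃ x, M < (cl ω x).card))) ≤
      Ex (cubeE m) p (fun ω => Ex ω θ (fun ζ =>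
        ind (B1 ω) + (ind (B1 ζ) + (ind (B3 ω ζ) + (ind (B4 ζ) + ind (¬ B4 ζ ∧ B5 ω ζ)))))) := by
    apply Ex_mono _ _ hp0.le hpl.le
    intro ω hω
    have h1 := Ex_mono ω θ hθ0 hθ1
      (fun _ => ind (¬ (Uniq M ω ∧ ∃ x, M < (cl ω x).card))) _
      (fun ζ hζ => hsplit ω hω ζ hζ)
    rwa [Ex_const] at h1
  have hlin : Ex (cubeE m) p (fun ω => Ex ω θ (fun ζ =>
        ind (B1 ω) + (ind (B1 ζ) + (ind (B3 ω ζ) + (ind (B4 ζ) + ind (¬ B4 ζ ∧ B5 ω ζ)))))) =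
      Ex (cubeE m) p (fun ω => ind (B1 ω)) +
      (Ex (cubeE m) p (fun ω => Ex ω θ (fun ζ => ind (B1 ζ))) +
      (Ex (cubeE m) p (fun ω => Ex ω θ (fun ζ => ind (B3 ω ζ))) +
      (Ex (cubeE m) p (fun ω => Ex ω θ (fun ζ => ind (B4 ζ))) +
      Ex (cubeE m) p (fun ω => Ex ω θ (fun ζ => ind (¬ B4 ζ ∧ B5 ω ζ)))))) := by
    rw [← Ex_add, ← Ex_add, ← Ex_add, ← Ex_add]
    congr 1
    funext ω
    rw [Ex_add, Ex_add, Ex_add, Ex_add, Ex_const]
  rw [hlin] at hmain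
  have hne : p * θ ≠ 1 := ne_of_lt hql
  -- first term
  have t1 : Ex (cubeE m) p (fun ω => ind (B1 ω)) ≤
      2 ^ m * 2 ^ L * Real.exp (-(M * a1 ^ 2 / 6)) := by
    refine (gap m L m' M hm' (by omega) a p ha ha2 hp).trans ?_
    apply mul_le_mul_of_nonneg_left _ (by positivity)
    apply Real.exp_le_exp.mpr
    have h1 : a1 ^ 2 ≤ a ^ 2 := pow_le_pow_left₀ ha1.le haa 2
    have h2 : (M : ℝ) * a1 ^ 2 ≤ M * a ^ 2 := mul_le_mul_of_nonneg_left h1 (by positivity)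
    linarith
  -- second term
  have t2 : Ex (cubeE m) p (fun ω => Ex ω θ (fun ζ => ind (B1 ζ))) ≤
      2 ^ m * 2 ^ L * Real.exp (-(M * a1 ^ 2 / 6)) := by
    rw [joint (cubeE m) p θ hne (fun _ ζ => ind (B1 ζ))]
    simp only [Ex_const]
    exact gap m L m' M hm' (by omega) a1 q ha1 (haa.trans ha2) hp1
  -- third term
  have t3 : Ex (cubeE m) p (fun ω => Ex ω θ (fun ζ => ind (B3 ω ζ))) ≤
      2 ^ m * (64 * Real.exp (-((2 : ℝ) ^ L / M))) := by
    have h1 : Ex (cubeE m) p (fun ω => Ex ω θ (fun ζ => ind (B3 ω ζ))) ≤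
        Ex (cubeE m) p (fun _ => 2 ^ m * (64 * Real.exp (-((2 : ℝ) ^ L / M)))) := by
      apply Ex_mono _ _ hp0.le hpl.le
      intro ω _
      apply uniq_union ω θ hθ0 hθ1
        (fun x ζ => 2 ^ L < (cl ω x).card ∧ ∀ y ∈ cl ω x, (cl ζ y).card ≤ M)
      intro x
      by_cases hx : 2 ^ L < (cl ω x).card
      · refine le_trans ?_ ((thin_bad ω θ hθ0 hθ1 x M hM).trans ?_)
        · apply Ex_mono _ _ hθ0 hθ1
          intro ζ _
          exact uniq_ind_le (fun h => h.2)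
        · have h2 := uniq_thin_num (cl ω x).card (2 ^ L) M hM θ hθ1 hθ hx.le
          rw [Nat.cast_pow, Nat.cast_ofNat] at h2
          exact h2
      · have h3 : Ex ω θ (fun ζ => ind (2 ^ L < (cl ω x).card ∧
            ∀ y ∈ cl ω x, (cl ζ y).card ≤ M)) = Ex ω θ (fun _ => 0) := by
          apply Ex_congr
          intro ζ _
          exact dens_ind_false (fun h => hx h.1)
        rw [h3, Ex_const]
        positivity
    rwa [Ex_const] at h1
  -- fourth term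
  have t4 : Ex (cubeE m) p (fun ω => Ex ω θ (fun ζ => ind (B4 ζ))) ≤
      2 ^ m * Real.exp (-(a1 * (m.choose r))) := by
    rw [joint (cubeE m) p θ hne (fun _ ζ => ind (B4 ζ))]
    simp only [Ex_const]
    apply uniq_union (cubeE m) q hq0.le hql.le
      (fun v ζ => ∀ w, hammingDist v w ≤ r → (cl ζ w).card ≤ 2 ^ L)
    intro v
    exact dens m r L L' m' hm' h hL a1 q ha1 (haa.trans ha2) hp1 v
  -- fifth term
  have t5 : Ex (cubeE m) p (fun ω => Ex ω θ (fun ζ => ind (¬ B4 ζ ∧ B5 ω ζ))) ≤ 2 * ρ := by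
    rw [joint (cubeE m) p θ hne (fun ω ζ => ind (¬ B4 ζ ∧ B5 ω ζ))]
    have h1 : Ex (cubeE m) (p * θ) (fun ζ => Ex (cubeE m \ ζ) ((p - p * θ) / (1 - p * θ))
        (fun η => ind (¬ B4 ζ ∧ B5 (ζ ∪ η) ζ))) ≤ Ex (cubeE m) (p * θ) (fun _ => 2 * ρ) := by
      apply Ex_mono _ _ hq0.le hql.le
      intro ζ hζ
      by_cases hB : B4 ζ
      · have h3 : Ex (cubeE m \ ζ) ((p - p * θ) / (1 - p * θ))
            (fun η => ind (¬ B4 ζ ∧ B5 (ζ ∪ η) ζ)) =
            Ex (cubeE m \ ζ) ((p - p * θ) / (1 - p * θ)) (fun _ => 0) := by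
          apply Ex_congr
          intro η _
          exact dens_ind_false (fun h => h.1 hB)
        rw [h3, Ex_const]
        have : 0 ≤ 2 ^ m * (1 - p2 ^ (2 * r + 1)) ^ D := by
          have h4 := pow_le_one₀ (n := 2 * r + 1) hp20 hp21
          have h5 : 0 ≤ 1 - p2 ^ (2 * r + 1) := by linarith
          positivity
        linarith
      · have hd : ∀ v : Q m, ∃ w, hammingDist v w ≤ r ∧ 2 ^ L < (cl ζ w).card := by
          intro v
          by_contra hc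
          push Not at hc
          exact hB ⟨v, hc⟩
        have h6 := sprinkle m r L hm p2 hp20 hp21 ζ hζ hd (hρ2.trans hρ1)
        have h7 : Ex (cubeE m \ ζ) ((p - p * θ) / (1 - p * θ))
            (fun η => ind (¬ B4 ζ ∧ B5 (ζ ∪ η) ζ)) ≤
            Ex (cubeE m \ ζ) p2 (fun η => ind (¬ ∀ x y, 2 ^ L < (cl ζ x).card →
              2 ^ L < (cl ζ y).card → y ∈ cl (ζ ∪ η) x)) := by
          apply Ex_mono _ _ hp20 hp21
          intro η _
          exact uniq_ind_le (fun h => h.2)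
        refine h7.trans (h6.trans ?_)
        linarith
    rwa [Ex_const] at h1
  linarith

end Pool.Agent.Work.MP_b7dc8a_pr
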