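import Pool.Agent.Work.MP_b7dc8a_pr.Base
import Pool.Agent.Work.MP_b7dc8a_pr.Uniq

/-! Module NUMU (numerical corollary of uniq, K = m^4)
lg := Nat.log 2 m + 1 (so m + 1 <= 2^lg <= 2 m, lg <= 2 log m for large m), M = m^4, r = 2, L = 36 lg, L' = 38 lg, m' = m - L',
 th = 1 - 1/(16 m^4).
-/

namespace Pool.Agent.Work.MP_b7dc8a_pr

open Finset Filter Topology

private lemma numu_poly (x : ℝ) (hx : 2000 ≤ x) : 69 * Real.exp (-x) ≤ 1 / x ^ 3 := by
  have hx0 : 0 < x := by linarith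
  have h4 := Real.pow_div_factorial_le_exp x hx0.le 4
  have h5 : (69 : ℝ) * x ^ 3 ≤ x ^ 4 / (Nat.factorial 4 : ℝ) := by
    have : (Nat.factorial 4 : ℝ) = 24 := by norm_num [Nat.factorial]
    rw [this, le_div_iff₀ (by norm_num)]
    have h3 : 0 ≤ x ^ 3 := by positivity
    nlinarith
  rw [Real.exp_neg, ← div_eq_mul_inv, div_le_div_iff₀ (Real.exp_pos x) (by positivity), one_mul]
  linarith

private lemma numu_two_pow (n : ℕ) : (2 : ℝ) ^ n ≤ Real.exp n := by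
  have h : (2 : ℝ) ≤ Real.exp 1 := by
    have := Real.add_one_le_exp (1 : ℝ)
    linarith
  calc (2 : ℝ) ^ n ≤ (Real.exp 1) ^ n := pow_le_pow_left₀ (by norm_num) h n
    _ = Real.exp n := by rw [← Real.exp_nat_mul, mul_one]

theorem num_uniq : ∃ m0 : ℕ, ∀ m ≥ m0, ∀ δ p : ℝ, 2000 * Real.log m / m ≤ δ →
    1 + δ ≤ p * m → p * m ≤ 5 / 4 →
    Ex (cubeE m) p (fun ω => ind (¬ (Uniq (m ^ 4) ω ∧ ∃ x, m ^ 4 < (cl ω x).card))) ≤
      1 / (m : ℝ) ^ 3 := by
  refine ⟨2000, fun m hm δ p hδ hp1 hp2 => ?_⟩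
  have hm2 : (2000 : ℝ) ≤ m := by exact_mod_cast hm
  have hmpos : (0 : ℝ) < m := by linarith
  have hlog1 : 2 ≤ Real.log m := by
    rw [Real.le_log_iff_exp_le hmpos]
    have h1 := Real.exp_one_lt_d9
    have h2 : Real.exp 2 = Real.exp 1 * Real.exp 1 := by
      rw [← Real.exp_add]; norm_num
    have h3 := Real.exp_pos 1
    rw [h2]
    nlinarith
  have hδ4 : δ ≤ 1 / 4 := by linarith
  have hlogm : 8000 * Real.log m ≤ m := by
    have h1 : 2000 * Real.log m / m ≤ 1 / 4 := hδ.trans hδ4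
    rw [div_le_iff₀ hmpos] at h1
    linarith
  have hδm : 2000 * Real.log m ≤ δ * m := by
    rwa [div_le_iff₀ hmpos] at hδ
  have hδpos : 0 < δ := by
    have : 0 < 2000 * Real.log m / m := by positivity
    linarith
  have hppos : 0 < p := by
    by_contra hcon
    push Not at hcon
    have : p * m ≤ 0 := mul_nonpos_of_nonpos_of_nonneg hcon hmpos.le
    linarith
  obtain ⟨lg, hlgpow, hlgpow2⟩ : ∃ lg : ℕ, m + 1 ≤ 2 ^ lg ∧ 2 ^ lg ≤ 2 * m := by
    refine ⟨Nat.log 2 m + 1, Nat.lt_pow_succ_log_self (by norm_num) m, ?_⟩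
    rw [pow_succ]
    have := Nat.pow_log_le_self 2 (x := m) (by omega)
    omega
  have hlgle : (lg : ℝ) ≤ 2 * Real.log m := by
    have h1 : (2 : ℝ) ^ lg ≤ 2 * m := by exact_mod_cast hlgpow2
    have h2 : lg * Real.log 2 ≤ Real.log 2 + Real.log m := by
      rw [← Real.log_pow, ← Real.log_mul (by norm_num) hmpos.ne']
      exact Real.log_le_log (by positivity) h1
    have h3 := Real.log_two_gt_d9
    have h4 := Real.log_two_lt_d9
    have h5 : (0 : ℝ) ≤ lg := Nat.cast_nonneg _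
    nlinarith
  have hlgm : (38 * lg : ℝ) * 100 ≤ m := by linarith
  have hlgmN : 38 * lg * 100 ≤ m := by exact_mod_cast hlgm
  set m' : ℕ := m - 38 * lg with hm'
  have hm'R : (m' : ℝ) = m - 38 * lg := by
    rw [hm', Nat.cast_sub (by omega)]; push_cast; ring
  have hm'le : (m' : ℝ) ≤ m := by rw [hm'R]; have : (0 : ℝ) ≤ lg := Nat.cast_nonneg _; linarith
  have hm'pos : (0 : ℝ) < m' := by rw [hm'R]; linarith
  set t : ℝ := 1 / (16 * (m : ℝ) ^ 4) with ht
  have htpos : 0 < t := by positivity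
  -- p L' small
  have hpL : p * (38 * lg) ≤ δ / 10 := by
    have h1 : p * (38 * lg) * m ≤ δ / 10 * m := by
      have h2 : p * (38 * lg) * m = (p * m) * (38 * lg) := by ring
      rw [h2]
      have h3 : (p * m) * (38 * lg) ≤ 5 / 4 * (38 * lg) :=
        mul_le_mul_of_nonneg_right hp2 (by positivity)
      nlinarith
    exact le_of_mul_le_mul_right h1 hmpos
  have hpm' : p * m' = p * m - p * (38 * lg) := by rw [hm'R]; ring
  have hpm'nn : 0 ≤ p * (38 * lg) := by positivity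
  set a : ℝ := p * m' - 1 with ha
  have ha_lo : 9 / 10 * δ ≤ a := by rw [ha, hpm']; linarith
  have ha_hi : a ≤ 1 / 4 := by rw [ha, hpm']; linarith
  set θ : ℝ := 1 - t with hθ
  set a1 : ℝ := p * θ * m' - 1 with ha1
  have ha1eq : a1 = a - t * (1 + a) := by rw [ha1, ha, hθ]; ring
  have htm : t * m ≤ 1 / 1000 := by
    rw [ht, div_mul_eq_mul_div, one_mul, div_le_div_iff₀ (by positivity) (by norm_num)]
    have h1 : (m : ℝ) ≤ (m : ℝ) ^ 3 := le_self_pow₀ (by linarith) (by norm_num)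
    have h2 : (m : ℝ) * 2000 ≤ m * (m : ℝ) ^ 3 :=
      mul_le_mul_of_nonneg_left (hm2.trans h1) hmpos.le
    have h3 : (m : ℝ) ^ 4 = m * (m : ℝ) ^ 3 := by ring
    rw [h3]
    linarith
  have htδ : t * 2 ≤ δ / 10 := by
    have h1 : t * 2 * m ≤ δ / 10 * m := by
      nlinarith
    exact le_of_mul_le_mul_right h1 hmpos
  have ha1_lo : δ / 2 ≤ a1 := by
    rw [ha1eq]
    nlinarith
  have ha1_pos : 0 < a1 := by linarith
  have ha1_le : a1 ≤ a := by
    rw [ha1eq]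
    have : 0 ≤ t * (1 + a) := by
      apply mul_nonneg htpos.le; linarith
    linarith
  have ht1 : t ≤ 1 := by
    have : t * 1 ≤ t * m := mul_le_mul_of_nonneg_left (by linarith) htpos.le
    linarith
  -- size facts
  have hmm : (m : ℝ) ≤ (2 : ℝ) ^ lg := by
    have : (m : ℝ) + 1 ≤ (2 : ℝ) ^ lg := by exact_mod_cast hlgpow
    linarith
  have hML : m ^ 4 ≤ 2 ^ (36 * lg) := by
    have h1 : m ≤ 2 ^ lg := by omega
    calc m ^ 4 ≤ (2 ^ lg) ^ 4 := Nat.pow_le_pow_left h1 4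
      _ ≤ (2 ^ lg) ^ 36 := Nat.pow_le_pow_right (by positivity) (by norm_num)
      _ = 2 ^ (36 * lg) := by rw [← pow_mul, mul_comm]
  have hLL : (m + 1) ^ 2 * 2 ^ (36 * lg) ≤ 2 ^ (38 * lg) := by
    calc (m + 1) ^ 2 * 2 ^ (36 * lg) ≤ (2 ^ lg) ^ 2 * 2 ^ (36 * lg) :=
          Nat.mul_le_mul_right _ (Nat.pow_le_pow_left hlgpow 2)
      _ = 2 ^ (38 * lg) := by rw [← pow_mul, ← pow_add]; congr 1; ring
  -- the sprinkling term
  set ρ : ℝ := Real.exp (-(m : ℝ)) with hρdef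
  have hρ : (2 : ℝ) ^ m * (1 - (p * (1 - θ)) ^ (2 * 2 + 1)) ^
      (2 ^ (36 * lg) / (m + 1) ^ (2 * 2 + 4)) ≤ ρ := by
    have hN : m ^ 28 ≤ 2 ^ (36 * lg) / (m + 1) ^ (2 * 2 + 4) := by
      rw [Nat.le_div_iff_mul_le (by positivity)]
      calc m ^ 28 * (m + 1) ^ (2 * 2 + 4) ≤ (2 ^ lg) ^ 28 * (2 ^ lg) ^ (2 * 2 + 4) :=
            Nat.mul_le_mul (Nat.pow_le_pow_left (by omega) _) (Nat.pow_le_pow_left hlgpow _)
        _ = 2 ^ (36 * lg) := by rw [← pow_add, ← pow_mul]; congr 1; ring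
    have hθt : 1 - θ = t := by rw [hθ]; ring
    rw [hθt]
    have hpt : 1 / (16 * (m : ℝ) ^ 5) ≤ p * t := by
      rw [ht, div_le_iff₀ (by positivity)]
      have h1 : p * (1 / (16 * (m : ℝ) ^ 4)) * (16 * (m : ℝ) ^ 5) = p * m := by
        field_simp
      rw [h1]
      linarith
    have hpt1 : p * t ≤ 1 := by
      have h2 : p * t * m ≤ 1 * m := by
        have h3 : p * t * m = (p * m) * t := by ring
        rw [h3]
        have : (p * m) * t ≤ 5 / 4 * 1 := mul_le_mul hp2 ht1 htpos.le (by norm_num)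
        linarith
      exact le_of_mul_le_mul_right h2 hmpos
    have hptpos : 0 ≤ p * t := by positivity
    set y : ℝ := (p * t) ^ (2 * 2 + 1) with hy
    have hy0 : 0 ≤ y := by positivity
    have hy1 : y ≤ 1 := pow_le_one₀ hptpos hpt1
    have hylo : 1 / (2 ^ 20 * (m : ℝ) ^ 25) ≤ y := by
      have h1 : (1 / (16 * (m : ℝ) ^ 5)) ^ 5 ≤ y := by
        rw [hy]; exact pow_le_pow_left₀ (by positivity) hpt _
      have h2 : (1 / (16 * (m : ℝ) ^ 5)) ^ 5 = 1 / (2 ^ 20 * (m : ℝ) ^ 25) := by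
        rw [div_pow, mul_pow, ← pow_mul]; norm_num
      rwa [h2] at h1
    have h1 : (1 - y) ^ (2 ^ (36 * lg) / (m + 1) ^ (2 * 2 + 4)) ≤ (1 - y) ^ (m ^ 28) :=
      pow_le_pow_of_le_one (by linarith) (by linarith) hN
    have h2 : (1 - y) ^ (m ^ 28) ≤ Real.exp (-(y * (m : ℝ) ^ 28)) := by
      calc (1 - y) ^ (m ^ 28) ≤ (Real.exp (-y)) ^ (m ^ 28) := by
            apply pow_le_pow_left₀ (by linarith)
            have := Real.add_one_le_exp (-y)
            linarith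
        _ = Real.exp (-(y * (m : ℝ) ^ 28)) := by
            rw [← Real.exp_nat_mul]; congr 1; push_cast; ring
    have h3 : 2 * (m : ℝ) ≤ y * (m : ℝ) ^ 28 := by
      calc 2 * (m : ℝ) ≤ (m : ℝ) ^ 3 / 2 ^ 20 := by
            rw [le_div_iff₀ (by norm_num)]
            have : (2000 : ℝ) * 2000 ≤ m * m := mul_le_mul hm2 hm2 (by norm_num) hmpos.le
            nlinarith
        _ = 1 / (2 ^ 20 * (m : ℝ) ^ 25) * (m : ℝ) ^ 28 := by
            field_simp
        _ ≤ y * (m : ℝ) ^ 28 := mul_le_mul_of_nonneg_right hylo (by positivity)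
    calc (2 : ℝ) ^ m * (1 - y) ^ (2 ^ (36 * lg) / (m + 1) ^ (2 * 2 + 4))
        ≤ Real.exp m * Real.exp (-(2 * (m : ℝ))) := by
          apply mul_le_mul (numu_two_pow m) _ (pow_nonneg (by linarith) _) (Real.exp_pos _).le
          refine (h1.trans h2).trans ?_
          apply Real.exp_le_exp.mpr
          linarith
      _ = ρ := by rw [← Real.exp_add, hρdef]; congr 1; ring
  have hρ1 : ρ ≤ 1 / 2 := by
    have h1 := numu_poly m hm2
    have h2 : 1 / (m : ℝ) ^ 3 ≤ 1 := by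
      rw [div_le_one (by positivity)]
      exact one_le_pow₀ (by linarith)
    rw [hρdef]
    linarith
  have key := uniq m 2 (36 * lg) (38 * lg) m' (m ^ 4) (by omega) (by omega) (by omega) hLL
    (Nat.one_le_pow _ _ (by omega)) hML p θ a a1 ha1_pos ha1_le (by linarith)
    (by rw [ha]; ring) (by rw [ha1]; ring) (by rw [hθ]; linarith) (by rw [hθ]; linarith)
    (by rw [hθ, ht]; push_cast; linarith) ρ hρ hρ1
  refine key.trans ?_
  refine le_trans ?_ (numu_poly m hm2)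
  -- first term
  have hT1 : 2 * ((2 : ℝ) ^ m * 2 ^ (36 * lg) * Real.exp (-(((m ^ 4 : ℕ) : ℝ) * a1 ^ 2 / 6))) ≤
      2 * Real.exp (-(m : ℝ)) := by
    have h1 : (2 : ℝ) ^ (36 * lg) ≤ Real.exp (72 * m) := by
      calc (2 : ℝ) ^ (36 * lg) = ((2 : ℝ) ^ lg) ^ 36 := by rw [← pow_mul, mul_comm]
        _ ≤ (2 * (m : ℝ)) ^ 36 := by
            apply pow_le_pow_left₀ (by positivity)
            exact_mod_cast hlgpow2
        _ ≤ (Real.exp (2 * m)) ^ 36 := by
            apply pow_le_pow_left₀ (by positivity)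
            have := Real.add_one_le_exp (2 * (m : ℝ))
            linarith
        _ = Real.exp (72 * m) := by rw [← Real.exp_nat_mul]; congr 1; push_cast; ring
    have h2 : (m : ℝ) ^ 2 ≤ ((m ^ 4 : ℕ) : ℝ) * a1 ^ 2 / 6 := by
      have h3 : 2000 ≤ a1 * m := by
        have : δ / 2 * m ≤ a1 * m := mul_le_mul_of_nonneg_right ha1_lo hmpos.le
        linarith
      have h4 : (2000 : ℝ) * 2000 ≤ (a1 * m) * (a1 * m) :=
        mul_le_mul h3 h3 (by norm_num) (by linarith)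
      have h5 : ((m ^ 4 : ℕ) : ℝ) * a1 ^ 2 / 6 = (m : ℝ) ^ 2 * ((a1 * m) * (a1 * m)) / 6 := by
        push_cast; ring
      rw [h5]
      have h6 : 0 ≤ (m : ℝ) ^ 2 := by positivity
      nlinarith
    have h7 : (m : ℝ) + 72 * m + -(((m ^ 4 : ℕ) : ℝ) * a1 ^ 2 / 6) ≤ -m := by
      nlinarith
    have h8 : (2 : ℝ) ^ m * 2 ^ (36 * lg) * Real.exp (-(((m ^ 4 : ℕ) : ℝ) * a1 ^ 2 / 6)) ≤
        Real.exp (-(m : ℝ)) := by
      calc (2 : ℝ) ^ m * 2 ^ (36 * lg) * Real.exp (-(((m ^ 4 : ℕ) : ℝ) * a1 ^ 2 / 6))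
          ≤ Real.exp m * Real.exp (72 * m) * Real.exp (-(((m ^ 4 : ℕ) : ℝ) * a1 ^ 2 / 6)) := by
            apply mul_le_mul_of_nonneg_right _ (Real.exp_pos _).le
            exact mul_le_mul (numu_two_pow m) h1 (by positivity) (Real.exp_pos _).le
        _ = Real.exp ((m : ℝ) + 72 * m + -(((m ^ 4 : ℕ) : ℝ) * a1 ^ 2 / 6)) := by
            rw [← Real.exp_add, ← Real.exp_add]
        _ ≤ Real.exp (-(m : ℝ)) := Real.exp_le_exp.mpr h7
    linarith
  have hT2 : (2 : ℝ) ^ m * Real.exp (-(a1 * (m.choose 2))) ≤ Real.exp (-(m : ℝ)) := by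
    have h1 : ((m.choose 2 : ℕ) : ℝ) = m * (m - 1) / 2 := Nat.cast_choose_two ℝ m
    have h2 : 2 * (m : ℝ) ≤ a1 * (m.choose 2) := by
      rw [h1]
      have h3 : 2000 ≤ a1 * m := by
        have : δ / 2 * m ≤ a1 * m := mul_le_mul_of_nonneg_right ha1_lo hmpos.le
        linarith
      have h4 : a1 * (m * (m - 1) / 2) = (a1 * m) * ((m - 1) / 2) := by ring
      rw [h4]
      have h5 : 2000 * (((m : ℝ) - 1) / 2) ≤ (a1 * m) * ((m - 1) / 2) :=
        mul_le_mul_of_nonneg_right h3 (by linarith)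
      linarith
    calc (2 : ℝ) ^ m * Real.exp (-(a1 * (m.choose 2)))
        ≤ Real.exp m * Real.exp (-(2 * (m : ℝ))) := by
          apply mul_le_mul (numu_two_pow m) _ (Real.exp_pos _).le (Real.exp_pos _).le
          apply Real.exp_le_exp.mpr
          linarith
      _ = Real.exp (-(m : ℝ)) := by rw [← Real.exp_add]; congr 1; ring
  have hT3 : (2 : ℝ) ^ m * (64 * Real.exp (-((2 : ℝ) ^ (36 * lg) / ((m ^ 4 : ℕ) : ℝ)))) ≤
      64 * Real.exp (-(m : ℝ)) := by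
    have h1 : 2 * (m : ℝ) ≤ (2 : ℝ) ^ (36 * lg) / ((m ^ 4 : ℕ) : ℝ) := by
      push_cast
      rw [le_div_iff₀ (by positivity)]
      calc 2 * (m : ℝ) * m ^ 4 ≤ (m : ℝ) * m * m ^ 4 := by
            apply mul_le_mul_of_nonneg_right _ (by positivity)
            apply mul_le_mul_of_nonneg_right _ hmpos.le
            linarith
        _ = (m : ℝ) ^ 6 := by ring
        _ ≤ (m : ℝ) ^ 36 := pow_le_pow_right₀ (by linarith) (by norm_num)
        _ ≤ ((2 : ℝ) ^ lg) ^ 36 := pow_le_pow_left₀ hmpos.le hmm 36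
        _ = (2 : ℝ) ^ (36 * lg) := by rw [← pow_mul, mul_comm]
    calc (2 : ℝ) ^ m * (64 * Real.exp (-((2 : ℝ) ^ (36 * lg) / ((m ^ 4 : ℕ) : ℝ))))
        ≤ Real.exp m * (64 * Real.exp (-(2 * (m : ℝ)))) := by
          apply mul_le_mul (numu_two_pow m) _ (by positivity) (Real.exp_pos _).le
          apply mul_le_mul_of_nonneg_left _ (by norm_num)
          apply Real.exp_le_exp.mpr
          linarith
      _ = 64 * (Real.exp m * Real.exp (-(2 * (m : ℝ)))) := by ring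
      _ = 64 * Real.exp (-(m : ℝ)) := by rw [← Real.exp_add]; congr 2; ring
  have hρ2 : 2 * ρ = 2 * Real.exp (-(m : ℝ)) := by rw [hρdef]
  rw [hρ2]
  linarith

end Pool.Agent.Work.MP_b7dc8a_pr
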