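import Pool.Agent.Work.MP_b7dc8a_pr.Base
import Pool.Agent.Work.MP_b7dc8a_pr.Var
import Pool.Agent.Work.MP_b7dc8a_pr.Nums

/-! Module NUMV (numerical corollary, K = m^4)
NUMV: var_lb, same L, crude.
-/

namespace Pool.Agent.Work.MP_b7dc8a_pr

open Finset Filter Topology

theorem num_var : ∃ m0 : ℕ, ∀ m ≥ m0, ∀ δ p : ℝ, 2000 * Real.log m / m ≤ δ →
    1 + δ ≤ p * m → p * m ≤ 5 / 4 →
    2 ^ m / (m : ℝ) ^ 4 ≤ Ex (cubeE m) p (fun ω => (XK (m ^ 4) ω : ℝ) ^ 2) -
      (Ex (cubeE m) p (fun ω => (XK (m ^ 4) ω : ℝ))) ^ 2 := by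
  refine ⟨3, fun m hm δ p hδ h1 h2 => ?_⟩
  obtain ⟨hlog, hbig, hL11, hpow, hp, hpL, hδ2⟩ := nums_basic m hm δ p hδ h1 h2
  set L := 4 * (Nat.log 2 m + 1) with hL
  have hm0 : (0 : ℝ) < m := by
    have : 0 < m := by omega
    exact_mod_cast this
  have hm3 : (3 : ℝ) ≤ m := by exact_mod_cast hm
  have hδpos : 0 < δ := lt_of_lt_of_le (by positivity) hδ2
  have hLm : L + 4 ≤ m := by
    have : (L : ℝ) + 4 ≤ m := by linarith
    exact_mod_cast this
  have hcast : ((m - L - 1 : ℕ) : ℝ) = m - L - 1 := by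
    rw [Nat.cast_sub (by omega), Nat.cast_sub (by omega)]
    norm_num
  have ha : p * (m - L - 1 : ℕ) = 1 + (p * (m - L - 1 : ℕ) - 1) := by ring
  have hval : p * ((m - L - 1 : ℕ) : ℝ) - 1 = p * m - p * (L + 1) - 1 := by rw [hcast]; ring
  have hpL0 : 0 ≤ p * (L + 1) := by positivity
  set a := p * ((m - L - 1 : ℕ) : ℝ) - 1 with hadef
  have haδ : δ / 3 ≤ a := by rw [hval]; linarith
  have ha2 : a ≤ 1 / 2 := by rw [hval]; linarith
  have hv := var_lb m (m ^ 4) L (m - L - 1) (by omega) (by omega) (by omega)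
    (Nat.one_le_pow _ _ (by omega)) hpow a p (by linarith) ha2 ha
  refine le_trans ?_ hv
  -- p is small
  have hm8 : (8000 : ℝ) ≤ m := by linarith
  have hpsmall : p ≤ 1 / 2 := by
    by_contra hc
    push Not at hc
    nlinarith
  have h1p : 1 / 2 ≤ 1 - p := by linarith
  have h1p0 : 0 < 1 - p := by linarith
  have hexp : Real.exp (-(2 * p)) ≤ 1 - p := by
    have h3 : 1 / (1 - p) ≤ Real.exp (2 * p) := by
      have h4 := Real.add_one_le_exp (p / (1 - p))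
      have h5 : p / (1 - p) ≤ 2 * p := by
        rw [div_le_iff₀ h1p0]
        nlinarith
      have h6 : 1 / (1 - p) = p / (1 - p) + 1 := by field_simp; ring
      rw [h6]
      exact h4.trans (Real.exp_le_exp.2 h5)
    rw [Real.exp_neg, inv_le_comm₀ (Real.exp_pos _) h1p0, ← one_div]
    exact h3
  have hpow2 : 1 / 27 ≤ (1 - p) ^ (m - 1) := by
    calc (1 : ℝ) / 27 ≤ Real.exp (-3) := by
          rw [Real.exp_neg, one_div]
          refine inv_anti₀ (Real.exp_pos _) ?_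
          have h7 : Real.exp 3 = (Real.exp 1) ^ 3 := by rw [← Real.exp_nat_mul]; norm_num
          rw [h7]
          have h8 := Real.exp_one_lt_d9
          have h9 := Real.exp_pos 1
          calc (Real.exp 1) ^ 3 ≤ 3 ^ 3 := pow_le_pow_left₀ h9.le (by linarith) 3
            _ = 27 := by norm_num
      _ ≤ Real.exp (-(2 * p) * m) := Real.exp_le_exp.2 (by nlinarith)
      _ = (Real.exp (-(2 * p))) ^ m := by rw [← Real.exp_nat_mul, mul_comm]
      _ ≤ (1 - p) ^ m := pow_le_pow_left₀ (Real.exp_pos _).le hexp m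
      _ ≤ (1 - p) ^ (m - 1) := pow_le_pow_of_le_one h1p0.le (by linarith) (Nat.sub_le _ _)
  have h2m : (2 : ℝ) ^ m = 2 * 2 ^ (m - 1) := by
    rw [← pow_succ']
    congr 1
    omega
  have hP : (0 : ℝ) < 2 ^ (m - 1) := by positivity
  have hc1 : 2 ^ m / 4 ≤ p * (1 - p) * (m * 2 ^ (m - 1)) := by
    have h3 : 1 ≤ p * m := by linarith
    have h4 : 1 / 2 ≤ p * m * (1 - p) := by nlinarith
    have h5 := mul_le_mul_of_nonneg_right h4 hP.le
    rw [h2m]
    nlinarith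
  have hc2 : 1 / (m : ℝ) ≤ (1 - p) ^ (m - 1) * (3 * a / 4) := by
    have h3 : 500 / (m : ℝ) ≤ 3 * a / 4 := by
      have : 3 * (2000 / (m : ℝ)) / 12 ≤ 3 * a / 4 := by linarith
      refine le_trans (le_of_eq ?_) this
      ring
    calc 1 / (m : ℝ) ≤ 1 / 27 * (500 / m) := by
          rw [div_mul_div_comm, div_le_div_iff₀ hm0 (by positivity)]
          linarith
      _ ≤ (1 - p) ^ (m - 1) * (3 * a / 4) :=
          mul_le_mul hpow2 h3 (by positivity) (by positivity)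
  have hc3 : (1 / (m : ℝ)) ^ 2 ≤ ((1 - p) ^ (m - 1) * (3 * a / 4)) ^ 2 :=
    pow_le_pow_left₀ (by positivity) hc2 2
  calc 2 ^ m / (m : ℝ) ^ 4 ≤ 2 ^ m / 4 * (1 / (m : ℝ)) ^ 2 := by
        have e : 2 ^ m / 4 * (1 / (m : ℝ)) ^ 2 = 2 ^ m / (4 * (m : ℝ) ^ 2) := by
          field_simp
        rw [e]
        refine div_le_div_of_nonneg_left (by positivity) (by positivity) ?_
        have h4 : (4 : ℝ) ≤ (m : ℝ) ^ 2 := by nlinarith
        nlinarith [sq_nonneg (m : ℝ)]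
    _ ≤ p * (1 - p) * (m * 2 ^ (m - 1)) * ((1 - p) ^ (m - 1) * (3 * a / 4)) ^ 2 :=
        mul_le_mul hc1 hc3 (by positivity) (by positivity)

end Pool.Agent.Work.MP_b7dc8a_pr
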