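import Pool.Agent.Work.MP_b7dc8a_pr.Base
import Pool.Agent.Work.MP_b7dc8a_pr.Joint
import Pool.Agent.Work.MP_b7dc8a_pr.Subc
import Pool.Agent.Work.MP_b7dc8a_pr.Exlow
import Pool.Agent.Work.MP_b7dc8a_pr.Numu
import Pool.Agent.Work.MP_b7dc8a_pr.Nums
import Pool.Agent.Work.MP_b7dc8a_pr.Numv
import Pool.Agent.Work.MP_b7dc8a_pr.App
import Pool.Agent.Work.MP_b7dc8a_pr.Levy

/-! Module FINAL -/

namespace Pool.Agent.Work.MP_b7dc8a_pr

open Finset Filter Topology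

/-- `m^k < c r^m` eventually -/
theorem final_pow_lt (k : ℕ) (r c : ℝ) (hr : 1 < r) (hc : 0 < c) :
    ∀ᶠ m : ℕ in atTop, (m : ℝ) ^ k < c * r ^ m := by
  have h := tendsto_pow_const_div_const_pow_of_one_lt k hr
  have h2 := h.eventually (gt_mem_nhds hc)
  filter_upwards [h2] with m hm
  rwa [div_lt_iff₀ (by positivity)] at hm

theorem final_log_tendsto : Tendsto (fun m : ℕ => 2000 * Real.log m / m) atTop (𝓝 0) := by
  have h : Tendsto (fun x : ℝ => Real.log x / x) atTop (𝓝 0) := by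
    have := (Real.isLittleO_pow_log_id_atTop (n := 1)).tendsto_div_nhds_zero
    simpa using this
  have h2 := (h.comp tendsto_natCast_atTop_atTop).const_mul 2000
  simp only [mul_zero] at h2
  refine h2.congr fun m => ?_
  simp only [Function.comp]
  ring

theorem final_rpow (m : ℕ) : ((2 : ℝ) ^ m) ^ (1 / 3 : ℝ) = ((2 : ℝ) ^ (1 / 3 : ℝ)) ^ m := by
  rw [← Real.rpow_natCast, ← Real.rpow_natCast, ← Real.rpow_mul (by norm_num),
    ← Real.rpow_mul (by norm_num)]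
  congr 1
  ring

theorem final_r : (1 : ℝ) < (2 : ℝ) ^ (1 / 3 : ℝ) ∧ ((2 : ℝ) ^ (1 / 3 : ℝ)) ^ 3 = 2 := by
  constructor
  · exact Real.one_lt_rpow (by norm_num) (by norm_num)
  · rw [← Real.rpow_natCast, ← Real.rpow_mul (by norm_num)]
    norm_num

theorem final_ind_le {P R : Prop} (h : P → R) : ind P ≤ ind R := by
  classical
  by_cases hP : P
  · simp [ind, hP, h hP]
  · by_cases hR : R
    · simp [ind, hP, hR]
    · simp [ind, hP, hR]

/-- the critical point is not too small -/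
theorem final_pc_lower (lam : ℝ) (hlam : 0 < lam) (pc : ℕ → ℝ)
    (hpc : ∀ᶠ m in atTop, 0 ≤ pc m ∧ pc m ≤ 1 ∧
      Ex (cubeE m) (pc m) (fun ω => ((cl ω (fun _ => false)).card : ℝ)) =
        lam * ((2 : ℝ) ^ m) ^ (1 / 3 : ℝ)) :
    ∀ᶠ m : ℕ in atTop, 1 < pc m * m := by
  have h1 := final_pow_lt 1 _ (lam / 2) final_r.1 (by positivity)
  filter_upwards [hpc, h1, eventually_ge_atTop 1] with m hm h2 hm1
  by_contra hcon
  push Not at hcon
  have h3 := subcrit m hm1 (pc m) hm.1 hcon (fun _ => false)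
  rw [hm.2.2, final_rpow] at h3
  have hmr : (1 : ℝ) ≤ m := by exact_mod_cast hm1
  simp only [pow_one] at h2
  linarith

/-- the critical point is not too large -/
theorem final_pc_upper (lam : ℝ) (hlam : 0 < lam) (pc : ℕ → ℝ)
    (hpc : ∀ᶠ m in atTop, 0 ≤ pc m ∧ pc m ≤ 1 ∧
      Ex (cubeE m) (pc m) (fun ω => ((cl ω (fun _ => false)).card : ℝ)) =
        lam * ((2 : ℝ) ^ m) ^ (1 / 3 : ℝ)) :
    ∀ᶠ m : ℕ in atTop, pc m * m ≤ 1 + 2000 * Real.log m / m := by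
  obtain ⟨m1, hm1⟩ := num_uniq
  obtain ⟨m2, hm2⟩ := num_surv
  have h1 := final_pow_lt 3 _ (1 / lam) final_r.1 (by positivity)
  have h2 := final_log_tendsto.eventually (gt_mem_nhds (show (0 : ℝ) < 1 / 4 by norm_num))
  filter_upwards [hpc, h1, h2, eventually_ge_atTop 3, eventually_ge_atTop m1,
    eventually_ge_atTop m2] with m hm h3 h4 h5 h6 h7
  by_contra hcon
  push Not at hcon
  set δ : ℝ := 2000 * Real.log m / m with hδ
  have hmr : (3 : ℝ) ≤ m := by exact_mod_cast h5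
  have hm0 : (0 : ℝ) < m := by linarith
  have hlog : 1 ≤ Real.log m := by
    rw [Real.le_log_iff_exp_le hm0]
    have := Real.exp_one_lt_d9
    linarith
  have hδpos : 0 < δ := by positivity
  have hp0m : (1 + δ) / m * m = 1 + δ := by field_simp
  have hlt : (1 + δ) / m ≤ pc m := by
    rw [div_le_iff₀ hm0]
    exact hcon.le
  have hpp : (0 : ℝ) ≤ (1 + δ) / m := by positivity
  have hu : Ex (cubeE m) ((1 + δ) / m) (fun ω => ind (¬ Uniq (m ^ 4) ω)) ≤ 1 / (m : ℝ) ^ 3 := by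
    refine le_trans ?_ (hm1 m h6 δ ((1 + δ) / m) le_rfl (by rw [hp0m]) (by rw [hp0m]; linarith))
    refine Ex_mono _ _ hpp (hlt.trans hm.2.1) _ _ fun ω _ => ?_
    exact final_ind_le (fun h8 h => h8 h.1)
  have hs := hm2 m h7 δ ((1 + δ) / m) le_rfl (by rw [hp0m]) (by rw [hp0m]; linarith)
  have hex := ex_lower m (m ^ 4) ((1 + δ) / m) (δ / 4) (1 / (m : ℝ) ^ 3) hpp (hlt.trans hm.2.1)
    (by positivity) hs hu (fun _ => false)
  have hmono := Ex_mono_p (cubeE m) ((1 + δ) / m) (pc m) hpp hlt hm.2.1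
    (fun ω => ((cl ω (fun _ => false)).card : ℝ)) (fun ω ω' h _ => by
      exact_mod_cast Finset.card_le_card (cl_mono ω ω' h _))
  rw [hm.2.2, final_rpow] at hmono
  set r : ℝ := (2 : ℝ) ^ (1 / 3 : ℝ) with hr
  have hr1 : 1 < r := final_r.1
  have hr3 : r ^ 3 = 2 := final_r.2
  have h2m : (2 : ℝ) ^ m = (r ^ m) ^ 3 := by
    rw [← hr3]; ring
  have hrm : 1 ≤ r ^ m := one_le_pow₀ hr1.le
  have hs2 : 1 / (m : ℝ) ^ 3 ≤ (δ / 4) ^ 2 - 1 / (m : ℝ) ^ 3 := by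
    have : (2 : ℝ) / (m : ℝ) ^ 3 ≤ (δ / 4) ^ 2 := by
      rw [hδ, div_le_iff₀ (by positivity)]
      have h8 : (2000 * Real.log m / m / 4) ^ 2 * (m : ℝ) ^ 3 =
        250000 * Real.log m ^ 2 * m := by field_simp; ring
      rw [h8]
      have h9 : 1 ≤ Real.log m ^ 2 := one_le_pow₀ hlog
      nlinarith
    have h11 : (2 : ℝ) / (m : ℝ) ^ 3 = 1 / (m : ℝ) ^ 3 + 1 / (m : ℝ) ^ 3 := by ring
    linarith
  have h12 : (2 : ℝ) ^ m * (1 / (m : ℝ) ^ 3) ≤ lam * r ^ m :=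
    (mul_le_mul_of_nonneg_left hs2 (by positivity)).trans (hex.trans hmono)
  rw [h2m, mul_one_div, div_le_iff₀ (by positivity)] at h12
  -- r^m ^3 ≤ lam * r^m * m^3 < r^m * r^m
  have h13 : lam * (m : ℝ) ^ 3 < r ^ m := by
    calc lam * (m : ℝ) ^ 3 < lam * (1 / lam * r ^ m) := mul_lt_mul_of_pos_left h3 hlam
      _ = r ^ m := by field_simp
  have h14 : lam * r ^ m * (m : ℝ) ^ 3 < r ^ m * r ^ m := by
    have : lam * r ^ m * (m : ℝ) ^ 3 = (lam * (m : ℝ) ^ 3) * r ^ m := by ring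
    rw [this]
    exact mul_lt_mul_of_pos_right h13 (by linarith)
  have h15 : r ^ m * r ^ m ≤ (r ^ m) ^ 3 := by
    have : (r ^ m) ^ 3 = r ^ m * r ^ m * r ^ m := by ring
    rw [this]
    exact le_mul_of_one_le_right (by positivity) hrm
  linarith

/-- the error in the CLT tends to zero -/
theorem final_err (t : ℝ) (σ : ℕ → ℝ) (hσ : ∀ᶠ m : ℕ in atTop, 0 < σ m ∧
    (2 : ℝ) ^ m / (m : ℝ) ^ 4 ≤ σ m ^ 2) :
    Tendsto (fun m : ℕ => t ^ 2 *
      Real.sqrt (8 * (2 * (m + 1) * (((m ^ 4 : ℕ) : ℝ)) ^ 2) ^ 3 * (2 * 2 ^ m)) / σ m ^ 2 +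
        |t| ^ 3 * (2 * (m + 1) * (((m ^ 4 : ℕ) : ℝ)) ^ 2) ^ 2 * (2 * 2 ^ m) / (2 * σ m ^ 3))
      atTop (𝓝 0) := by
  have hs2 : (1 : ℝ) < Real.sqrt 2 := by
    rw [show (1 : ℝ) = Real.sqrt 1 by simp]
    exact Real.sqrt_lt_sqrt (by norm_num) (by norm_num)
  have hb : Tendsto (fun m : ℕ => 32 * t ^ 2 * ((m : ℝ) ^ 18 / Real.sqrt 2 ^ m) +
      16 * |t| ^ 3 * ((m : ℝ) ^ 24 / Real.sqrt 2 ^ m)) atTop (𝓝 0) := by
    have h1 := (tendsto_pow_const_div_const_pow_of_one_lt 18 hs2).const_mul (32 * t ^ 2)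
    have h2 := (tendsto_pow_const_div_const_pow_of_one_lt 24 hs2).const_mul (16 * |t| ^ 3)
    have := h1.add h2
    simpa using this
  refine squeeze_zero' ?_ ?_ hb
  · filter_upwards [hσ] with m hm
    have := hm.1
    positivity
  · filter_upwards [hσ, eventually_ge_atTop 1] with m hm hm1
    obtain ⟨hpos, hlow⟩ := hm
    have hmr : (1 : ℝ) ≤ m := by exact_mod_cast hm1
    have hm0 : (0 : ℝ) < m := by linarith
    set w : ℝ := Real.sqrt 2 ^ m with hw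
    have hw0 : 0 < w := by positivity
    have hw2 : (2 : ℝ) ^ m = w ^ 2 := by
      rw [hw, ← pow_mul, mul_comm, pow_mul, Real.sq_sqrt (by norm_num)]
    have hσw : w / (m : ℝ) ^ 2 ≤ σ m := by
      have h3 : (w / (m : ℝ) ^ 2) ^ 2 ≤ σ m ^ 2 := by
        calc (w / (m : ℝ) ^ 2) ^ 2 = 2 ^ m / (m : ℝ) ^ 4 := by rw [hw2]; ring
          _ ≤ σ m ^ 2 := hlow
      exact (pow_le_pow_iff_left₀ (by positivity) hpos.le (by norm_num)).1 h3
    have hD : 2 * ((m : ℝ) + 1) * (((m ^ 4 : ℕ) : ℝ)) ^ 2 ≤ 4 * (m : ℝ) ^ 9 := by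
      push_cast
      have : 2 * ((m : ℝ) + 1) * ((m : ℝ) ^ 4) ^ 2 = 2 * (m : ℝ) ^ 8 * (m + 1) := by ring
      rw [this]
      have h4 : 4 * (m : ℝ) ^ 9 = 2 * (m : ℝ) ^ 8 * (2 * m) := by ring
      rw [h4]
      exact mul_le_mul_of_nonneg_left (by linarith) (by positivity)
    have hD0 : 0 ≤ 2 * ((m : ℝ) + 1) * (((m ^ 4 : ℕ) : ℝ)) ^ 2 := by positivity
    set D : ℝ := 2 * ((m : ℝ) + 1) * (((m ^ 4 : ℕ) : ℝ)) ^ 2 with hDdef
    have h5 : Real.sqrt (8 * D ^ 3 * (2 * 2 ^ m)) ≤ 32 * (m : ℝ) ^ 14 * w := by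
      apply Real.sqrt_le_iff.2
      refine ⟨by positivity, ?_⟩
      have h6 : D ^ 3 ≤ (4 * (m : ℝ) ^ 9) ^ 3 := pow_le_pow_left₀ hD0 hD 3
      have h7 : (m : ℝ) ^ 27 ≤ (m : ℝ) ^ 28 := pow_le_pow_right₀ hmr (by norm_num)
      calc 8 * D ^ 3 * (2 * 2 ^ m) ≤ 8 * (4 * (m : ℝ) ^ 9) ^ 3 * (2 * 2 ^ m) := by gcongr
        _ = 1024 * (m : ℝ) ^ 27 * w ^ 2 := by rw [hw2]; ring
        _ ≤ 1024 * (m : ℝ) ^ 28 * w ^ 2 := by gcongr
        _ = (32 * (m : ℝ) ^ 14 * w) ^ 2 := by ring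
    have h8 : w ^ 2 / (m : ℝ) ^ 4 ≤ σ m ^ 2 := by rw [← hw2]; exact hlow
    have h9 : w ^ 3 / (m : ℝ) ^ 6 ≤ σ m ^ 3 := by
      calc w ^ 3 / (m : ℝ) ^ 6 = (w / (m : ℝ) ^ 2) ^ 3 := by ring
        _ ≤ σ m ^ 3 := pow_le_pow_left₀ (by positivity) hσw 3
    have h10 : t ^ 2 * Real.sqrt (8 * D ^ 3 * (2 * 2 ^ m)) / σ m ^ 2 ≤
        32 * t ^ 2 * ((m : ℝ) ^ 18 / w) := by
      calc t ^ 2 * Real.sqrt (8 * D ^ 3 * (2 * 2 ^ m)) / σ m ^ 2
          ≤ t ^ 2 * (32 * (m : ℝ) ^ 14 * w) / (w ^ 2 / (m : ℝ) ^ 4) := by gcongr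
        _ = 32 * t ^ 2 * ((m : ℝ) ^ 18 / w) := by field_simp
    have h11 : |t| ^ 3 * D ^ 2 * (2 * 2 ^ m) / (2 * σ m ^ 3) ≤
        16 * |t| ^ 3 * ((m : ℝ) ^ 24 / w) := by
      have h12 : D ^ 2 ≤ (4 * (m : ℝ) ^ 9) ^ 2 := pow_le_pow_left₀ hD0 hD 2
      calc |t| ^ 3 * D ^ 2 * (2 * 2 ^ m) / (2 * σ m ^ 3)
          ≤ |t| ^ 3 * (4 * (m : ℝ) ^ 9) ^ 2 * (2 * 2 ^ m) / (2 * (w ^ 3 / (m : ℝ) ^ 6)) := by
            gcongr
        _ = 16 * |t| ^ 3 * ((m : ℝ) ^ 24 / w) := by rw [hw2]; field_simp; ring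
    exact add_le_add h10 h11

theorem main (lam : ℝ) (hlam : 0 < lam) (pc ε : ℕ → ℝ)
    (hpc : ∀ᶠ m in atTop, 0 ≤ pc m ∧ pc m ≤ 1 ∧
      Ex (cubeE m) (pc m) (fun ω => ((cl ω (fun _ => false)).card : ℝ)) =
        lam * ((2 : ℝ) ^ m) ^ (1 / 3 : ℝ))
    (hε0 : Tendsto ε atTop (𝓝 0))
    (hε : ∀ᶠ m : ℕ in atTop, 2000 * Real.log m / m ≤ ε m) :
    ∃ a b : ℕ → ℝ, (∀ m, 0 < b m) ∧ ∀ x : ℝ,
      Tendsto (fun m => Ex (cubeE m) (pc m * (1 + ε m))
        (fun ω => ind (((largest ω : ℝ) - a m) / b m ≤ x))) atTop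
        (𝓝 ((ProbabilityTheory.gaussianReal 0 1).real (Set.Iic x))) := by
  obtain ⟨m1, hm1⟩ := num_uniq
  obtain ⟨m3, hm3⟩ := num_var
  set p : ℕ → ℝ := fun m => pc m * (1 + ε m) with hp
  -- the range of p
  have hrange : ∀ᶠ m : ℕ in atTop, 3 ≤ m ∧ 2000 * Real.log m / m ≤ ε m ∧
      1 + ε m ≤ p m * m ∧ p m * m ≤ 5 / 4 ∧ 0 ≤ p m ∧ p m ≤ 1 := by
    have h1 := final_pc_lower lam hlam pc hpc
    have h2 := final_pc_upper lam hlam pc hpc
    have h4 := hε0.eventually (gt_mem_nhds (show (0 : ℝ) < 1 / 20 by norm_num))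
    have h5 := final_log_tendsto.eventually (gt_mem_nhds (show (0 : ℝ) < 1 / 20 by norm_num))
    filter_upwards [h1, h2, hε, h4, h5, hpc, eventually_ge_atTop 3] with m h1 h2 h8 h4 h5 h6 h7
    have hmr : (3 : ℝ) ≤ m := by exact_mod_cast h7
    have hm0 : (0 : ℝ) < m := by linarith
    have hlog : 1 ≤ Real.log m := by
      rw [Real.le_log_iff_exp_le hm0]
      have := Real.exp_one_lt_d9
      linarith
    have hεpos : 0 < ε m := lt_of_lt_of_le (by positivity) h8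
    have h9 : p m * m = pc m * m * (1 + ε m) := by simp only [hp]; ring
    have hpm0 : 0 ≤ p m := mul_nonneg h6.1 (by linarith)
    have hpm54 : p m * m ≤ 5 / 4 := by
      rw [h9]
      have h10 : pc m * m ≤ 21 / 20 := by linarith
      nlinarith
    refine ⟨h7, h8, ?_, hpm54, hpm0, ?_⟩
    · rw [h9]
      nlinarith
    · nlinarith
  set X : ∀ m, Finset (Sym2 (Q m)) → ℝ := fun m ω => (XK (m ^ 4) ω : ℝ) with hX
  set μ : ℕ → ℝ := fun m => Ex (cubeE m) (p m) (X m) with hμ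
  set v : ℕ → ℝ := fun m => Ex (cubeE m) (p m) (fun ω => (X m ω - μ m) ^ 2) with hv
  set b : ℕ → ℝ := fun m => if 0 < v m then Real.sqrt (v m) else 1 with hb
  have hbpos : ∀ m, 0 < b m := by
    intro m
    simp only [hb]
    split_ifs with h
    · exact Real.sqrt_pos.2 h
    · norm_num
  have hvexp : ∀ m, v m = Ex (cubeE m) (p m) (fun ω => X m ω ^ 2) - μ m ^ 2 := by
    intro m
    simp only [hv]
    have h1 : (fun ω : Finset (Sym2 (Q m)) => (X m ω - μ m) ^ 2) =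
        fun ω => (X m ω ^ 2 - (2 * μ m) * X m ω) + μ m ^ 2 := by
      funext ω; ring
    rw [h1, Ex_add, Ex_sub, Ex_mul_left, Ex_const]
    simp only [hμ]
    ring
  have hvar : ∀ᶠ m : ℕ in atTop, (2 : ℝ) ^ m / (m : ℝ) ^ 4 ≤ v m := by
    filter_upwards [hrange, eventually_ge_atTop m3] with m hm h1
    rw [hvexp]
    exact hm3 m h1 (ε m) (p m) hm.2.1 hm.2.2.1 hm.2.2.2.1
  have hbv : ∀ᶠ m : ℕ in atTop, 0 < b m ∧ b m ^ 2 = v m ∧ (2 : ℝ) ^ m / (m : ℝ) ^ 4 ≤ b m ^ 2 := by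
    filter_upwards [hvar, eventually_ge_atTop 1] with m hm h1
    have hm0 : (0 : ℝ) < m := by exact_mod_cast h1
    have h2 : 0 < v m := lt_of_lt_of_le (by positivity) hm
    have h3 : b m ^ 2 = v m := by
      simp only [hb, if_pos h2]
      exact Real.sq_sqrt h2.le
    exact ⟨hbpos m, h3, by rw [h3]; exact hm⟩
  refine ⟨fun m => 2 ^ m - μ m, b, hbpos, fun x => ?_⟩
  refine levy (fun m => Sym2 (Q m)) cubeE p ?_ (fun m ω => -((X m ω - μ m) / b m))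
    (fun m ω => ((largest ω : ℝ) - (2 ^ m - μ m)) / b m) ?_ ?_ x
  · filter_upwards [hrange] with m hm
    exact ⟨hm.2.2.2.2.1, hm.2.2.2.2.2⟩
  · intro t
    rw [tendsto_iff_norm_sub_tendsto_zero]
    have herr := final_err (-t) b (hbv.mono fun m hm => ⟨hm.1, hm.2.2⟩)
    refine squeeze_zero' (Eventually.of_forall fun _ => norm_nonneg _) ?_ herr
    filter_upwards [hrange, hbv] with m hm hbm
    have h1 := clt_XK m (m ^ 4) (by omega) (p m) hm.2.2.2.2.1 hm.2.2.2.2.2 (μ m) (b m) rfl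
      (hbpos m) hbm.2.1.symm (-t)
    refine le_of_eq_of_le ?_ h1
    congr 2
    · unfold ExC
      refine Finset.sum_congr rfl fun ω _ => ?_
      congr 4
      simp only [hX]
      ring_nf
    · rw [neg_sq]
  · have h0 : Tendsto (fun m : ℕ => 1 / (m : ℝ) ^ 3) atTop (𝓝 0) := by
      have := (tendsto_one_div_atTop_nhds_zero_nat (𝕜 := ℝ)).pow 3
      simpa using this
    refine squeeze_zero' ?_ ?_ h0
    · filter_upwards [hrange] with m hm
      have := Ex_mono (cubeE m) (p m) hm.2.2.2.2.1 hm.2.2.2.2.2 (fun _ => 0)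
        (fun ω => ind (((largest ω : ℝ) - (2 ^ m - μ m)) / b m ≠ -((X m ω - μ m) / b m)))
        (fun ω _ => by unfold ind; split_ifs <;> norm_num)
      rwa [Ex_const] at this
    · filter_upwards [hrange, eventually_ge_atTop m1] with m hm h1
      refine le_trans ?_ (hm1 m h1 (ε m) (p m) hm.2.1 hm.2.2.1 hm.2.2.2.1)
      refine Ex_mono _ _ hm.2.2.2.2.1 hm.2.2.2.2.2 _ _ fun ω _ => ?_
      refine final_ind_le fun h8 h9 => h8 ?_
      have h10 := largest_eq (m ^ 4) ω h9.1 h9.2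
      rw [h10]
      have h11 : (Fintype.card (Q m) : ℝ) = 2 ^ m := by
        simp [Q]
      rw [h11]
      simp only [hX]
      ring

end Pool.Agent.Work.MP_b7dc8a_pr
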