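import Pool.Agent.Work.MP_b7dc8a_pr.Defs

namespace Pool.Agent.Work.MP_b7dc8a_pr

open Finset

/-- vertices of the cube -/
abbrev Q (m : ℕ) : Type := Fin m → Bool

open Classical in
/-- cluster of a set of vertices -/
noncomputable def cls {V : Type} [Fintype V] (ω : Finset (Sym2 V)) (S : Finset V) : Finset V :=
  univ.filter fun y => ∃ x ∈ S, (SimpleGraph.fromEdgeSet (ω : Set (Sym2 V))).Reachable x y

open Classical in
/-- edge boundary of `A` in `E` -/
noncomputable def bd {V : Type} (E : Finset (Sym2 V)) (A : Finset V) : Finset (Sym2 V) :=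
  E.filter fun e => ∃ x ∈ A, ∃ y, y ∉ A ∧ e = s(x, y)

open Classical in
/-- indicator of a proposition -/
noncomputable def ind (P : Prop) : ℝ := if P then 1 else 0

/-- complex valued expectation -/
noncomputable def ExC {α : Type} (E : Finset α) (p : ℝ) (F : Finset α → ℂ) : ℂ :=
  ∑ ω ∈ E.powerset, ((p ^ ω.card * (1 - p) ^ (E.card - ω.card) : ℝ) : ℂ) * F ω

open Classical in
/-- number of vertices in clusters with at most `K` vertices -/
noncomputable def XK {V : Type} [Fintype V] (K : ℕ) (ω : Finset (Sym2 V)) : ℕ :=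
  (univ.filter fun x : V => (cl ω x).card ≤ K).card

/-- flip the coordinates in `I` -/
def flip {m : ℕ} (v : Q m) (I : Finset (Fin m)) : Q m := fun i => xor (v i) (decide (i ∈ I))

open Classical in
/-- the edges of the subcube of all `x` which agree with `u` on `T` -/
noncomputable def subE {m : ℕ} (T : Finset (Fin m)) (u : Q m) : Finset (Sym2 (Q m)) :=
  (cubeE m).filter fun e => ∀ x ∈ e, ∀ i ∈ T, x i = u i

/-- all vertices in clusters with more than `M` vertices are connected to each other -/
def Uniq {V : Type} [Fintype V] (M : ℕ) (ω : Finset (Sym2 V)) : Prop :=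
  ∀ x y, M < (cl ω x).card → M < (cl ω y).card → y ∈ cl ω x

end Pool.Agent.Work.MP_b7dc8a_pr
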