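import Mathlib

/-!
# Bond percolation on the hypercube: definitions
-/

namespace Pool.Agent.Work.MP_b7dc8a_pr

open Finset

/-- The hypercube graph on the vertex set `{0,1}^m`: two vertices are adjacent when they differ
in exactly one coordinate. -/
def cube (m : ℕ) : SimpleGraph (Fin m → Bool) where
  Adj x y := hammingDist x y = 1
  symm := ⟨fun x y h => by rw [hammingDist_comm]; exact h⟩
  loopless := ⟨fun x h => by rw [hammingDist_self] at h; exact absurd h (by norm_num)⟩

instance (m : ℕ) : DecidableRel (cube m).Adj := fun x y =>
  inferInstanceAs (Decidable (hammingDist x y = 1))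

/-- The edges of the hypercube. -/
def cubeE (m : ℕ) : Finset (Sym2 (Fin m → Bool)) := (cube m).edgeFinset

/-- The expectation of `F ω`, where `ω` is the random subset of `E` to which each element of `E`
belongs independently with probability `p`. -/
noncomputable def Ex {α : Type} (E : Finset α) (p : ℝ) (F : Finset α → ℝ) : ℝ :=
  ∑ ω ∈ E.powerset, p ^ ω.card * (1 - p) ^ (E.card - ω.card) * F ω

open Classical in
/-- The cluster of `x`: the set of vertices which are connected to `x` by edges of `ω`. -/
noncomputable def cl {V : Type} [Fintype V] (ω : Finset (Sym2 V)) (x : V) : Finset V :=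
  univ.filter fun y => (SimpleGraph.fromEdgeSet (ω : Set (Sym2 V))).Reachable x y

/-- The number of vertices of the largest cluster. -/
noncomputable def largest {V : Type} [Fintype V] (ω : Finset (Sym2 V)) : ℕ :=
  univ.sup fun x => (cl ω x).card

end Pool.Agent.Work.MP_b7dc8a_pr
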