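import Pool.Agent.Work.MP_b7dc8a_pr.Base
import Pool.Agent.Work.MP_b7dc8a_pr.Iso
import Pool.Agent.Work.MP_b7dc8a_pr.Clb

/-! Module SUBQ (uses ISO, CLB)
SUBQ: subE_bd: every vertex of A has exactly |T| edges of cubeE in directions of T, all leave A; the other boundary edges of A lie
 in subE T u: |bd cubeE A| <= |T||A| + |bd (subE T u) A|; ISO. subE_cl: walk induction.
-/

namespace Pool.Agent.Work.MP_b7dc8a_pr

open Finset Filter Topology

theorem subq_mem {m : ℕ} (T : Finset (Fin m)) (u : Q m) (e : Sym2 (Q m)) :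
    e ∈ subE T u ↔ e ∈ cubeE m ∧ ∀ x ∈ e, ∀ i ∈ T, x i = u i := by
  unfold subE
  simp only [Finset.mem_filter]

theorem subE_bd (m L : ℕ) (T : Finset (Fin m)) (hL : L + T.card ≤ m) (u : Q m)
    (A : Finset (Q m)) (hA : ∀ x ∈ A, ∀ i ∈ T, x i = u i) (hc : A.card ≤ 2 ^ L) :
    A.card * (m - T.card - L) ≤ (bd (subE T u) A).card := by
  have hTc : (Tᶜ).card = m - T.card := by rw [Finset.card_compl, Fintype.card_fin]
  have h1 := iso_out_ge L (Tᶜ) (by omega) A hc
  rw [hTc] at h1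
  refine h1.trans (iso_out_le_bd _ A _ ?_)
  intro x hx i hi
  rw [Finset.mem_compl] at hi
  rw [subq_mem]
  refine ⟨iso_mem_cubeE i x, ?_⟩
  intro y hy j hj
  rw [Sym2.mem_iff] at hy
  rcases hy with rfl | rfl
  · exact hA y hx j hj
  · rw [iso_f_ne i j x (fun h => hi (h ▸ hj))]
    exact hA x hx j hj

theorem subE_cl (m : ℕ) (T : Finset (Fin m)) (u y : Q m) (h : y ∈ cl (subE T u) u) :
    ∀ i ∈ T, y i = u i := by
  rw [clb_mem_cl] at h
  refine clb_closed (subE T u) {z | ∀ i ∈ T, z i = u i} ?_ u y (fun i _ => rfl) h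
  intro a _ b hab
  rw [subq_mem] at hab
  exact fun i hi => hab.2 b (by simp) i hi

theorem subE_disjoint (m : ℕ) (T : Finset (Fin m)) (u u' : Q m) (h : ∃ i ∈ T, u i ≠ u' i) :
    Disjoint (subE T u) (subE T u') := by
  rw [Finset.disjoint_left]
  intro e he he'
  obtain ⟨i, hi, hne⟩ := h
  rw [subq_mem] at he he'
  induction e using Sym2.ind with
  | _ a b =>
    apply hne
    rw [← he.2 a (by simp) i hi, ← he'.2 a (by simp) i hi]

theorem hamming_flip (m : ℕ) (v : Q m) (I : Finset (Fin m)) :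
    hammingDist v (flip v I) = I.card := by
  unfold hammingDist flip
  congr 1
  ext j
  simp only [Finset.mem_filter, Finset.mem_univ, true_and]
  by_cases hj : j ∈ I
  · simp [hj]
  · simp [hj]

end Pool.Agent.Work.MP_b7dc8a_pr
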